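import Mathlib

set_option autoImplicit false

namespace Pool.Agent.HilbertReverse

open Set Filter Topology

/-- Value at `x` of the affine functional with coefficient triple `h`. -/
def ev (h : ℝ × ℝ × ℝ) (x : ℝ × ℝ) : ℝ := h.1 * x.1 + h.2.1 * x.2 + h.2.2

/-- Linear part of the affine functional with coefficient triple `h`. -/
def lin (h : ℝ × ℝ × ℝ) (w : ℝ × ℝ) : ℝ := h.1 * w.1 + h.2.1 * w.2

lemma ev_add_smul (h : ℝ × ℝ × ℝ) (x w : ℝ × ℝ) (s : ℝ) :
    ev h (x + s • w) = ev h x + s * lin h w := by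
  simp only [ev, lin, Prod.fst_add, Prod.snd_add, Prod.smul_fst, Prod.smul_snd, smul_eq_mul]
  ring

lemma ev_sub_smul (h : ℝ × ℝ × ℝ) (x w : ℝ × ℝ) (s : ℝ) :
    ev h (x - s • w) = ev h x - s * lin h w := by
  simp only [ev, lin, Prod.fst_sub, Prod.snd_sub, Prod.smul_fst, Prod.smul_snd, smul_eq_mul]
  ring

lemma lin_sub (h : ℝ × ℝ × ℝ) (x y : ℝ × ℝ) : lin h (x - y) = ev h x - ev h y := by
  simp only [ev, lin, Prod.fst_sub, Prod.snd_sub]
  ring

lemma continuous_ev (h : ℝ × ℝ × ℝ) : Continuous (ev h) := by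
  unfold ev
  fun_prop

lemma continuous_ev2 : Continuous (fun p : (ℝ × ℝ × ℝ) × (ℝ × ℝ) => ev p.1 p.2) := by
  unfold ev
  fun_prop

/-- an affine functional positive on `Ω`, normalised to `1` at `O`, and zero at `U` -/
structure Supp (Ω : Set (ℝ × ℝ)) (O : ℝ × ℝ) (h : ℝ × ℝ × ℝ) (U : ℝ × ℝ) : Prop where
  pos : ∀ x ∈ Ω, 0 < ev h x
  norm : ev h O = 1
  zero : ev h U = 0

lemma exists_supp {Ω : Set (ℝ × ℝ)} (hc : Convex ℝ Ω) (ho : IsOpen Ω) {O U : ℝ × ℝ}
    (hO : O ∈ Ω) (hU : U ∉ Ω) : ∃ h, Supp Ω O h U := by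
  obtain ⟨f, hf⟩ := geometric_hahn_banach_open_point hc ho hU
  have key : ∀ x : ℝ × ℝ, f x = x.1 * f (1, 0) + x.2 * f (0, 1) := by
    intro x
    have : x = x.1 • ((1 : ℝ), (0 : ℝ)) + x.2 • ((0 : ℝ), (1 : ℝ)) := by
      ext <;> simp
    conv_lhs => rw [this]
    rw [map_add, map_smul, map_smul]
    simp
  have hpos : 0 < f U - f O := sub_pos.mpr (hf O hO)
  refine ⟨(- f (1, 0) / (f U - f O), - f (0, 1) / (f U - f O), f U / (f U - f O)), ?_, ?_, ?_⟩
  · intro x hx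
    have h1 := hf x hx
    have : ev (- f (1, 0) / (f U - f O), - f (0, 1) / (f U - f O), f U / (f U - f O)) x
        = (f U - f x) / (f U - f O) := by
      rw [key x]
      simp only [ev]
      ring
    rw [this]
    exact div_pos (sub_pos.mpr h1) hpos
  · have : ev (- f (1, 0) / (f U - f O), - f (0, 1) / (f U - f O), f U / (f U - f O)) O
        = (f U - f O) / (f U - f O) := by
      conv_rhs => rw [key O]
      conv_lhs => rw [key O]
      simp only [ev]
      ring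
    rw [this]
    exact div_self hpos.ne'
  · have : ev (- f (1, 0) / (f U - f O), - f (0, 1) / (f U - f O), f U / (f U - f O)) U
        = (f U - f U) / (f U - f O) := by
      have h2 := key U
      simp only [ev]
      rw [sub_self, zero_div]
      have : (- f (1, 0) / (f U - f O)) * U.1 + (- f (0, 1) / (f U - f O)) * U.2
          + f U / (f U - f O) = (f U - (U.1 * f (1, 0) + U.2 * f (0, 1))) / (f U - f O) := by
        ring
      rw [this, ← h2, sub_self, zero_div]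
    rw [this]
    simp

/-- length parameter of the ray from `x` in direction `w` inside `Ω` -/
noncomputable def ext (Ω : Set (ℝ × ℝ)) (x w : ℝ × ℝ) : ℝ :=
  sSup {s : ℝ | 0 ≤ s ∧ x + s • w ∈ Ω}

section ray

variable {Ω : Set (ℝ × ℝ)} (ho : IsOpen Ω) (hc : Convex ℝ Ω) (hb : Bornology.IsBounded Ω)

include hb in
lemma bddAbove_ray {x w : ℝ × ℝ} (hw : w ≠ 0) : BddAbove {s : ℝ | 0 ≤ s ∧ x + s • w ∈ Ω} := by
  obtain ⟨R, hR⟩ := hb.subset_closedBall x
  have hwn : 0 < ‖w‖ := norm_pos_iff.mpr hw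
  refine ⟨R / ‖w‖, ?_⟩
  rintro s ⟨hs, hsΩ⟩
  have := hR hsΩ
  rw [Metric.mem_closedBall, dist_eq_norm, add_sub_cancel_left, norm_smul, Real.norm_eq_abs,
    abs_of_nonneg hs] at this
  rwa [le_div_iff₀ hwn]

include ho hc in
lemma mem_of_lt {x y : ℝ × ℝ} (hx : x ∈ Ω) (hy : y ∈ closure Ω) {t : ℝ} (ht0 : 0 ≤ t)
    (ht1 : t < 1) : x + t • (y - x) ∈ Ω := by
  have h := hc.combo_interior_closure_mem_interior (x := x) (y := y)
    (by rwa [ho.interior_eq]) hy (a := 1 - t) (b := t) (by linarith) ht0 (by ring)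
  rw [ho.interior_eq] at h
  have e : x + t • (y - x) = (1 - t) • x + t • y := by
    ext <;> simp <;> ring
  rwa [e]

include ho hc in
lemma ray_eq_Ico {x w : ℝ × ℝ} (hx : x ∈ Ω) {s0 : ℝ} (hs0 : 0 ≤ s0)
    (h1 : x + s0 • w ∈ closure Ω) (h2 : x + s0 • w ∉ Ω) :
    {s : ℝ | 0 ≤ s ∧ x + s • w ∈ Ω} = Ico 0 s0 := by
  have hs0' : 0 < s0 := by
    rcases hs0.lt_or_eq with h | h
    · exact h
    · exfalso
      rw [← h] at h2
      simp at h2
      exact h2 hx
  ext s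
  constructor
  · rintro ⟨hs, hsΩ⟩
    refine ⟨hs, ?_⟩
    by_contra hlt
    push Not at hlt
    rcases hlt.lt_or_eq with h | h
    · apply h2
      have := mem_of_lt ho hc hx (subset_closure hsΩ) (t := s0 / s) (by positivity)
        ((div_lt_one (by linarith)).mpr h)
      have e : x + (s0 / s) • (x + s • w - x) = x + s0 • w := by
        rw [add_sub_cancel_left, smul_smul, div_mul_cancel₀]
        linarith
      rwa [e] at this
    · rw [← h] at hsΩ
      exact h2 hsΩ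
  · rintro ⟨hs, hlt⟩
    refine ⟨hs, ?_⟩
    have := mem_of_lt ho hc hx h1 (t := s / s0) (by positivity)
        ((div_lt_one hs0').mpr hlt)
    have e : x + (s / s0) • (x + s0 • w - x) = x + s • w := by
      rw [add_sub_cancel_left, smul_smul, div_mul_cancel₀]
      linarith
    rwa [e] at this

include ho hc in
lemma ext_eq {x w : ℝ × ℝ} (hx : x ∈ Ω) {s0 : ℝ} (hs0 : 0 ≤ s0)
    (h1 : x + s0 • w ∈ closure Ω) (h2 : x + s0 • w ∉ Ω) :
    ext Ω x w = s0 := by
  unfold ext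
  rw [ray_eq_Ico ho hc hx hs0 h1 h2]
  apply csSup_Ico
  rcases hs0.lt_or_eq with h | h
  · exact h
  · exfalso
    rw [← h] at h2
    simp at h2
    exact h2 hx

include ho hb in
lemma ext_pos {x w : ℝ × ℝ} (hx : x ∈ Ω) (hw : w ≠ 0) : 0 < ext Ω x w := by
  have hcont : Tendsto (fun s : ℝ => x + s • w) (𝓝 0) (𝓝 (x + (0:ℝ) • w)) := by
    apply Continuous.tendsto
    fun_prop
  rw [zero_smul, add_zero] at hcont
  have h1 : ∀ᶠ s in 𝓝[>] (0:ℝ), x + s • w ∈ Ω :=
    (hcont.eventually (ho.mem_nhds hx)).filter_mono nhdsWithin_le_nhds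
  obtain ⟨s, hs, hs0⟩ := (h1.and self_mem_nhdsWithin).exists
  exact lt_of_lt_of_le hs0 (le_csSup (bddAbove_ray hb hw) ⟨(le_of_lt hs0), hs⟩)

include hb in
lemma ext_mem_closure {x w : ℝ × ℝ} (hx : x ∈ Ω) (hw : w ≠ 0) :
    x + ext Ω x w • w ∈ closure Ω := by
  have h := csSup_mem_closure (s := {s : ℝ | 0 ≤ s ∧ x + s • w ∈ Ω}) ⟨0, by simpa using hx⟩
    (bddAbove_ray hb hw)
  have hcont : Continuous (fun s : ℝ => x + s • w) := by fun_prop
  have := hcont.closure_preimage_subset Ω |>.trans subset_rfl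
  have h2 : closure {s : ℝ | 0 ≤ s ∧ x + s • w ∈ Ω} ⊆ (fun s : ℝ => x + s • w) ⁻¹' closure Ω := by
    refine Subset.trans (closure_mono ?_) this
    rintro s ⟨_, hs⟩
    exact hs
  exact h2 h

include ho hb in
lemma ext_not_mem {x w : ℝ × ℝ} (hx : x ∈ Ω) (hw : w ≠ 0) :
    x + ext Ω x w • w ∉ Ω := by
  intro hmem
  have h0 := ext_pos ho hb hmem hw
  have hcont : Tendsto (fun s : ℝ => x + s • w) (𝓝 (ext Ω x w)) (𝓝 (x + ext Ω x w • w)) := by
    apply Continuous.tendsto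
    fun_prop
  have h1 : ∀ᶠ s in 𝓝[>] (ext Ω x w), x + s • w ∈ Ω :=
    (hcont.eventually (ho.mem_nhds hmem)).filter_mono nhdsWithin_le_nhds
  obtain ⟨s, hs, hs0⟩ := (h1.and self_mem_nhdsWithin).exists
  have h2 := le_csSup (bddAbove_ray hb hw (x := x))
    (show s ∈ {s : ℝ | 0 ≤ s ∧ x + s • w ∈ Ω} from
      ⟨(ext_pos ho hb hx hw).le.trans (le_of_lt hs0), hs⟩)
  exact absurd hs0 (not_lt.mpr h2)

end ray

end Pool.Agent.HilbertReverse
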