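import Pool.Agent.HilbertReverse.Dense

set_option autoImplicit false

namespace Pool.Agent.HilbertReverse

open Set Filter Topology

/-- quadratic polynomial function with given coefficients -/
def qf (α β γ s t e : ℝ) (X : ℝ × ℝ) : ℝ :=
  α * X.1 ^ 2 + β * (X.1 * X.2) + γ * X.2 ^ 2 + s * X.1 + t * X.2 + e

section

variable {Ω : Set (ℝ × ℝ)} (ho : IsOpen Ω) (hc : Convex ℝ Ω) (hb : Bornology.IsBounded Ω)

include ho hc hb in
/-- a bounded open convex set whose boundary lies on a conic missing an interior point is an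
ellipse -/
lemma ellipse_of_conic {O : ℝ × ℝ} (hO : O ∈ Ω) {α β γ s t e : ℝ}
    (hz : ∀ x ∈ closure Ω, x ∉ Ω → qf α β γ s t e x = 0) (hne : qf α β γ s t e O ≠ 0) :
    ∃ f : (ℝ × ℝ) ≃ᵃ[ℝ] (ℝ × ℝ), Ω = f '' {p : ℝ × ℝ | p.1 ^ 2 + p.2 ^ 2 < 1} := by
  classical
  -- normalise
  set N := qf α β γ s t e O with hN
  set a := -(α / N) with ha
  set b := -(β / N) with hb0
  set c := -(γ / N) with hc0
  -- Q' (O + τ v) = 1 + L v τ - q v τ²
  set L : ℝ × ℝ → ℝ := fun v => (2 * α * O.1 + β * O.2 + s) / N * v.1 +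
    (β * O.1 + 2 * γ * O.2 + t) / N * v.2 with hL
  set q : ℝ × ℝ → ℝ := fun v => a * v.1 ^ 2 + b * (v.1 * v.2) + c * v.2 ^ 2 with hq
  have hexp : ∀ (v : ℝ × ℝ) (τ : ℝ), qf α β γ s t e (O + τ • v) =
      N * (1 + L v * τ - q v * τ ^ 2) := by
    intro v τ
    have e1 : N * (1 + L v * τ - q v * τ ^ 2) = N + ((2 * α * O.1 + β * O.2 + s) * v.1 +
      (β * O.1 + 2 * γ * O.2 + t) * v.2) * τ + (α * v.1 ^ 2 + β * (v.1 * v.2) + γ * v.2 ^ 2) *
        τ ^ 2 := by
      simp only [hL, hq, ha, hb0, hc0]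
      field_simp
      ring
    rw [e1, hN]
    simp only [qf, Prod.fst_add, Prod.snd_add, Prod.smul_fst, Prod.smul_snd, smul_eq_mul]
    ring
  have hLneg : ∀ v, L (-v) = - L v := by
    intro v
    simp only [hL, Prod.fst_neg, Prod.snd_neg]
    ring
  have hqneg : ∀ v, q (-v) = q v := by
    intro v
    simp only [hq, Prod.fst_neg, Prod.snd_neg]
    ring
  -- factorisation along each line
  have hfac : ∀ v : ℝ × ℝ, v ≠ 0 → 0 < q v ∧
      ∀ τ, 1 + L v * τ - q v * τ ^ 2 = q v * (ext Ω O v - τ) * (τ + ext Ω O (-v)) := by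
    intro v hv
    have hv' : -v ≠ 0 := neg_ne_zero.mpr hv
    have t1 := ext_pos ho hb hO hv
    have t2 := ext_pos ho hb hO hv'
    have z1 := hz _ (ext_mem_closure hb hO hv) (ext_not_mem ho hb hO hv)
    have z2 := hz _ (ext_mem_closure hb hO hv') (ext_not_mem ho hb hO hv')
    rw [hexp] at z1 z2
    have z1' := (mul_eq_zero.mp z1).resolve_left hne
    have z2' := (mul_eq_zero.mp z2).resolve_left hne
    rw [hLneg, hqneg] at z2'
    set T1 := ext Ω O v
    set T2 := ext Ω O (-v)
    have hqT : q v * (T1 * T2) = 1 := by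
      have : (T1 + T2) * (q v * (T1 * T2) - 1) = 0 := by
        linear_combination -T2 * z1' - T1 * z2'
      rcases mul_eq_zero.mp this with h | h
      · linarith
      · linarith
    have hLT : L v = q v * (T1 - T2) := by
      have : T1 * (L v - q v * (T1 - T2)) = 0 := by
        linear_combination z1' + hqT
      rcases mul_eq_zero.mp this with h | h
      · linarith
      · linarith
    refine ⟨?_, ?_⟩
    · have h12 : 0 < T1 * T2 := mul_pos t1 t2
      by_contra hcon
      push Not at hcon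
      have := mul_nonpos_of_nonpos_of_nonneg hcon h12.le
      linarith
    · intro τ
      rw [hLT]
      linear_combination -hqT
  have hpos1 : 0 < a := by
    have := (hfac (1, 0) (by simp)).1
    simpa [hq] using this
  have hdisc : 0 < 4 * a * c - b ^ 2 := by
    have h1 := (hfac (-b, 2 * a) (by
      intro h
      have := congrArg Prod.snd h
      simp at this
      exact hpos1.ne' this)).1
    have h2 : q (-b, 2 * a) = a * (4 * a * c - b ^ 2) := by
      simp only [hq]
      ring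
    rw [h2] at h1
    exact (pos_iff_pos_of_mul_pos h1).mp hpos1
  -- description of Ω
  have hmem : ∀ v : ℝ × ℝ, O + v ∈ Ω ↔ 0 < 1 + L v - q v := by
    intro v
    by_cases hv : v = 0
    · subst hv
      simp [hL, hq, hO]
    · obtain ⟨q0, hf⟩ := hfac v hv
      have hf1 := hf 1
      have t2 := ext_pos ho hb hO (neg_ne_zero.mpr hv)
      have e1 : 1 + L v - q v = q v * (ext Ω O v - 1) * (1 + ext Ω O (-v)) := by
        rw [← hf1]; ring
      rw [e1]
      have hray : O + v ∈ Ω ↔ 1 < ext Ω O v := by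
        have h1 := ray_eq_Ico ho hc hO (ext_pos ho hb hO hv).le (ext_mem_closure hb hO hv)
          (ext_not_mem ho hb hO hv)
        have h2 : (1 : ℝ) ∈ {s : ℝ | 0 ≤ s ∧ O + s • v ∈ Ω} ↔ (1:ℝ) ∈ Ico 0 (ext Ω O v) := by
          rw [h1]
        simpa using h2
      rw [hray]
      constructor
      · intro h
        have : 0 < ext Ω O v - 1 := by linarith
        positivity
      · intro h
        by_contra hcon
        push Not at hcon
        have h3 : 0 ≤ q v * (1 + ext Ω O (-v)) := by positivity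
        have h4 : q v * (ext Ω O v - 1) * (1 + ext Ω O (-v)) =
          (ext Ω O v - 1) * (q v * (1 + ext Ω O (-v))) := by ring
        rw [h4] at h
        have := mul_nonpos_of_nonpos_of_nonneg (show ext Ω O v - 1 ≤ 0 by linarith) h3
        linarith
  -- complete the square
  set l1 := (2 * α * O.1 + β * O.2 + s) / N with hl1
  set l2 := (β * O.1 + 2 * γ * O.2 + t) / N with hl2
  set Δ := 4 * a * c - b ^ 2 with hΔ
  set x0 := (2 * c * l1 - b * l2) / Δ with hx0
  set y0 := (2 * a * l2 - b * l1) / Δ with hy0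
  set M := 1 + (l1 * x0 + l2 * y0) / 2 with hM
  have eq1 : 2 * a * x0 + b * y0 = l1 := by
    have h : 2 * a * x0 + b * y0 = (4 * a * c - b ^ 2) * l1 / Δ := by
      rw [hx0, hy0]
      ring
    rw [h, ← hΔ]
    field_simp
  have eq2 : b * x0 + 2 * c * y0 = l2 := by
    have h : b * x0 + 2 * c * y0 = (4 * a * c - b ^ 2) * l2 / Δ := by
      rw [hx0, hy0]
      ring
    rw [h, ← hΔ]
    field_simp
  have hsq : ∀ v : ℝ × ℝ, 1 + L v - q v =
      M - (a * ((v.1 - x0) + b / (2 * a) * (v.2 - y0)) ^ 2 + Δ / (4 * a) * (v.2 - y0) ^ 2) := by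
    intro v
    have e1 : a * ((v.1 - x0) + b / (2 * a) * (v.2 - y0)) ^ 2 + Δ / (4 * a) * (v.2 - y0) ^ 2 =
        a * (v.1 - x0) ^ 2 + b * ((v.1 - x0) * (v.2 - y0)) + c * (v.2 - y0) ^ 2 := by
      rw [hΔ]
      field_simp
      ring
    rw [e1]
    simp only [hL, hq, hM]
    linear_combination (x0 / 2 - v.1) * eq1 + (y0 / 2 - v.2) * eq2
  have hMpos : 0 < M := by
    have h1 := hsq 0
    have h2 : 1 + L 0 - q 0 = 1 := by simp [hL, hq]
    rw [h2] at h1
    have h3 : 0 ≤ a * (((0 : ℝ × ℝ).1 - x0) + b / (2 * a) * ((0 : ℝ × ℝ).2 - y0)) ^ 2 +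
      Δ / (4 * a) * ((0 : ℝ × ℝ).2 - y0) ^ 2 := by positivity
    linarith
  set s1 := Real.sqrt (M / a) with hs1
  set s2 := Real.sqrt (M / (Δ / (4 * a))) with hs2
  have hs1p : 0 < s1 := Real.sqrt_pos.mpr (by positivity)
  have hs2p : 0 < s2 := Real.sqrt_pos.mpr (by positivity)
  have hs1q : a * s1 ^ 2 = M := by
    rw [hs1, Real.sq_sqrt (by positivity)]
    field_simp
  have hs2q : Δ / (4 * a) * s2 ^ 2 = M := by
    rw [hs2, Real.sq_sqrt (by positivity)]
    have : Δ / (4 * a) ≠ 0 := by positivity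
    field_simp
  -- the linear equivalence
  let E : (ℝ × ℝ) ≃ₗ[ℝ] (ℝ × ℝ) :=
    { toFun := fun p => (s1 * p.1 - b / (2 * a) * (s2 * p.2), s2 * p.2)
      map_add' := by
        intro p p'
        ext <;> simp <;> ring
      map_smul' := by
        intro r p
        ext <;> simp <;> ring
      invFun := fun p => ((p.1 + b / (2 * a) * p.2) / s1, p.2 / s2)
      left_inv := by
        intro p
        ext
        · simp only
          field_simp
          ring
        · simp only
          field_simp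
      right_inv := by
        intro p
        ext
        · simp only
          field_simp
          ring
        · simp only
          field_simp }
  refine ⟨E.toAffineEquiv.trans (AffineEquiv.constVAdd ℝ (ℝ × ℝ) (O + (x0, y0))), ?_⟩
  have hval : ∀ p : ℝ × ℝ, (E.toAffineEquiv.trans (AffineEquiv.constVAdd ℝ (ℝ × ℝ)
      (O + (x0, y0)))) p = O + ((x0, y0) + E p) := by
    intro p
    simp
  have hkey : ∀ p : ℝ × ℝ, O + ((x0, y0) + E p) ∈ Ω ↔ p.1 ^ 2 + p.2 ^ 2 < 1 := by
    intro p
    rw [hmem, hsq]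
    have e1 : ((x0, y0) + E p : ℝ × ℝ).1 = x0 + (s1 * p.1 - b / (2 * a) * (s2 * p.2)) := rfl
    have e2 : ((x0, y0) + E p : ℝ × ℝ).2 = y0 + s2 * p.2 := rfl
    rw [e1, e2]
    have e3 : M - (a * (x0 + (s1 * p.1 - b / (2 * a) * (s2 * p.2)) - x0 +
        b / (2 * a) * (y0 + s2 * p.2 - y0)) ^ 2 + Δ / (4 * a) * (y0 + s2 * p.2 - y0) ^ 2) =
        M * (1 - (p.1 ^ 2 + p.2 ^ 2)) := by
      linear_combination (-p.1 ^ 2) * hs1q + (-p.2 ^ 2) * hs2q
    rw [e3]
    constructor
    · intro h
      have := (pos_iff_pos_of_mul_pos h).mp hMpos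
      linarith
    · intro h
      have : 0 < 1 - (p.1 ^ 2 + p.2 ^ 2) := by linarith
      positivity
  ext X
  constructor
  · intro hX
    refine ⟨E.symm (X - O - (x0, y0)), (hkey _).mp ?_, ?_⟩
    · rw [LinearEquiv.apply_symm_apply]
      have : O + ((x0, y0) + (X - O - (x0, y0))) = X := by abel
      rw [this]
      exact hX
    · rw [hval, LinearEquiv.apply_symm_apply]
      abel
  · rintro ⟨p, hp, rfl⟩
    rw [hval]
    exact (hkey p).mpr hp

end

end Pool.Agent.HilbertReverse
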