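import Pool.Agent.HilbertReverse.Segre

set_option autoImplicit false

namespace Pool.Agent.HilbertReverse

open Set Filter Topology

section

variable {Ω : Set (ℝ × ℝ)} (ho : IsOpen Ω) (hc : Convex ℝ Ω) (hb : Bornology.IsBounded Ω)

/-- a functional which is nonnegative on an open set, one at a point and zero at another point is
positive on the open set -/
lemma pos_of_nonneg (ho : IsOpen Ω) {h : ℝ × ℝ × ℝ} (hh : ∀ x ∈ Ω, 0 ≤ ev h x) {m U : ℝ × ℝ}
    (hm : ev h m = 1) (hU : ev h U = 0) : ∀ x ∈ Ω, 0 < ev h x := by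
  intro x hx
  rcases (hh x hx).lt_or_eq with h1 | h1
  · exact h1
  exfalso
  have key : ∀ w : ℝ × ℝ, 0 ≤ lin h w := by
    intro w
    have hcont : Tendsto (fun s : ℝ => x + s • w) (𝓝 0) (𝓝 (x + (0:ℝ) • w)) := by
      apply Continuous.tendsto
      fun_prop
    rw [zero_smul, add_zero] at hcont
    have h2 : ∀ᶠ s in 𝓝[>] (0:ℝ), x + s • w ∈ Ω :=
      (hcont.eventually (ho.mem_nhds hx)).filter_mono nhdsWithin_le_nhds
    obtain ⟨s, hs, hs0⟩ := (h2.and self_mem_nhdsWithin).exists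
    have h3 := hh _ hs
    rw [ev_add_smul, ← h1, zero_add] at h3
    exact nonneg_of_mul_nonneg_right h3 hs0
  have a1 := key (m - U)
  have a2 := key (U - m)
  rw [lin_sub, hm, hU] at a2
  linarith

include ho hc hb in
/-- the distance to the boundary along a ray depends continuously on the direction -/
lemma tendsto_ext_dir {ι : Type*} {l : Filter ι} {x w0 : ℝ × ℝ} (hx : x ∈ Ω) (hw0 : w0 ≠ 0)
    {w : ι → ℝ × ℝ} (hw : Tendsto w l (𝓝 w0)) :
    Tendsto (fun i => ext Ω x (w i)) l (𝓝 (ext Ω x w0)) := by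
  have hne : ∀ᶠ i in l, w i ≠ 0 := hw.eventually_ne hw0
  rw [tendsto_order]
  constructor
  · intro c hc1
    have hpos := ext_pos ho hb hx hw0
    obtain ⟨c', hc'1, hc'2⟩ := exists_between (max_lt hc1 hpos)
    have hc'0 : 0 < c' := lt_of_le_of_lt (le_max_right _ _) hc'1
    have hcc' : c < c' := lt_of_le_of_lt (le_max_left _ _) hc'1
    have hin : x + c' • w0 ∈ Ω := by
      have := mem_of_lt ho hc hx (ext_mem_closure hb hx hw0) (t := c' / ext Ω x w0)
        (by positivity) ((div_lt_one hpos).mpr hc'2)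
      rwa [add_sub_cancel_left, smul_smul, div_mul_cancel₀ _ hpos.ne'] at this
    have hlim : Tendsto (fun i => x + c' • w i) l (𝓝 (x + c' • w0)) :=
      tendsto_const_nhds.add (hw.const_smul c')
    filter_upwards [hlim.eventually (ho.mem_nhds hin), hne] with i hi hnei
    exact lt_of_lt_of_le hcc' (le_csSup (bddAbove_ray hb hnei) ⟨hc'0.le, hi⟩)
  · intro c hc1
    have hpos := ext_pos ho hb hx hw0
    have hc0 : 0 < c := hpos.trans hc1
    obtain ⟨c', hc'1, hc'2⟩ := exists_between hc1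
    have hc'0 : 0 < c' := hpos.trans hc'1
    have hout : x + c' • w0 ∉ closure Ω := by
      intro hmem
      have := mem_of_lt ho hc hx hmem (t := ext Ω x w0 / c') (by positivity)
        ((div_lt_one hc'0).mpr hc'1)
      rw [add_sub_cancel_left, smul_smul, div_mul_cancel₀ _ hc'0.ne'] at this
      exact ext_not_mem ho hb hx hw0 this
    have hlim : Tendsto (fun i => x + c' • w i) l (𝓝 (x + c' • w0)) :=
      tendsto_const_nhds.add (hw.const_smul c')
    have hop : IsOpen (closure Ω)ᶜ := isClosed_closure.isOpen_compl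
    filter_upwards [hlim.eventually (hop.mem_nhds hout), hne] with i hi hnei
    refine lt_of_le_of_lt ?_ hc'2
    by_contra hcon
    push Not at hcon
    apply hi
    have hp := ext_pos ho hb hx hnei
    have := mem_of_lt ho hc hx (ext_mem_closure hb hx hnei) (t := c' / ext Ω x (w i))
      (by positivity) ((div_lt_one hp).mpr hcon)
    rw [add_sub_cancel_left, smul_smul, div_mul_cancel₀ _ hp.ne'] at this
    exact subset_closure this

include ho hb in
/-- the distance through functionals vanishing at the ends -/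
lemma hd_of_zero {x z : ℝ × ℝ} (hx : x ∈ Ω) (hz : z ∈ Ω) (hxz : x ≠ z)
    {h k : ℝ × ℝ × ℝ} (hh : ∀ x ∈ Ω, 0 < ev h x) (hk : ∀ x ∈ Ω, 0 < ev k x)
    (h0 : ev h (x + ext Ω x (x - z) • (x - z)) = 0)
    (k0 : ev k (x + ext Ω x (z - x) • (z - x)) = 0) :
    2 * hd Ω x z = Real.log (ev h z * ev k x / (ev h x * ev k z)) := by
  have hw' : x - z ≠ 0 := sub_ne_zero.mpr hxz
  have hS := ext_pos ho hb hx hw'
  have hT := one_lt_ext ho hb hx hz hxz
  rw [ev_add_smul, lin_sub] at h0 k0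
  unfold hd
  set S := ext Ω x (x - z) with hSdef
  set T := ext Ω x (z - x) with hTdef
  have hhx := hh x hx
  have hhz := hh z hz
  have hkx := hk x hx
  have hkz := hk z hz
  have hT1 : T - 1 ≠ 0 := by linarith
  have e : ev h z * ev k x / (ev h x * ev k z) = (1 + S) * T / (S * (T - 1)) := by
    rw [div_eq_div_iff (by positivity) (mul_ne_zero hS.ne' hT1)]
    have a1 : S * ev h z = (1 + S) * ev h x := by linarith
    have a2 : (T - 1) * ev k x = T * ev k z := by linarith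
    calc ev h z * ev k x * (S * (T - 1)) = (S * ev h z) * ((T - 1) * ev k x) := by ring
      _ = ((1 + S) * ev h x) * (T * ev k z) := by rw [a1, a2]
      _ = (1 + S) * T * (ev h x * ev k z) := by ring
  rw [e]
  ring

include ho hb in
lemma hd_pos {x z : ℝ × ℝ} (hx : x ∈ Ω) (hz : z ∈ Ω) (hxz : x ≠ z) : 0 < hd Ω x z := by
  have hw' : x - z ≠ 0 := sub_ne_zero.mpr hxz
  have hS := ext_pos ho hb hx hw'
  have hT := one_lt_ext ho hb hx hz hxz
  unfold hd
  have : 0 < Real.log ((1 + ext Ω x (x - z)) * ext Ω x (z - x) /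
      (ext Ω x (x - z) * (ext Ω x (z - x) - 1))) := by
    apply Real.log_pos
    rw [one_lt_div (mul_pos hS (by linarith))]
    nlinarith
  linarith

include ho hc hb in
/-- one-sided comparison: if `m` is nearest to `x` on the ray `m + ε v`, there are support
functionals at the ends of the chord `x m` with `lin k v ≤ lin h v` -/
lemma exists_pair {x m v : ℝ × ℝ} (hx : x ∈ Ω) (hm : m ∈ Ω) (hxm : x ≠ m)
    (hnear : ∀ ε : ℝ, 0 < ε → m + ε • v ∈ Ω → hd Ω x m ≤ hd Ω x (m + ε • v)) :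
    ∃ h k : ℝ × ℝ × ℝ, Supp Ω m h (x + ext Ω x (x - m) • (x - m)) ∧
      Supp Ω m k (x + ext Ω x (m - x) • (m - x)) ∧ lin k v ≤ lin h v := by
  classical
  -- the moving point
  set Z : ℝ → ℝ × ℝ := fun ε => m + ε • v with hZ
  have hZ0 : Tendsto Z (𝓝[>] (0:ℝ)) (𝓝 m) := by
    have : Tendsto Z (𝓝 (0:ℝ)) (𝓝 (m + (0:ℝ) • v)) := by
      apply Continuous.tendsto
      fun_prop
    rw [zero_smul, add_zero] at this
    exact this.mono_left nhdsWithin_le_nhds
  have hZΩ : ∀ᶠ ε in 𝓝[>] (0:ℝ), Z ε ∈ Ω := hZ0.eventually (ho.mem_nhds hm)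
  have hZx : ∀ᶠ ε in 𝓝[>] (0:ℝ), Z ε ≠ x := hZ0.eventually_ne hxm.symm
  -- choice of support functionals
  have hex : ∀ y : ℝ × ℝ, ∃ h : ℝ × ℝ × ℝ, y ∉ Ω → Supp Ω m h y := by
    intro y
    by_cases hy : y ∈ Ω
    · exact ⟨0, fun h => absurd hy h⟩
    · obtain ⟨h, hh⟩ := exists_supp hc ho hm hy
      exact ⟨h, fun _ => hh⟩
  choose H hH using hex
  set P : ℝ → ℝ × ℝ := fun ε => x + ext Ω x (x - Z ε) • (x - Z ε) with hP
  set Q : ℝ → ℝ × ℝ := fun ε => x + ext Ω x (Z ε - x) • (Z ε - x) with hQ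
  have hPlim : Tendsto P (𝓝[>] (0:ℝ)) (𝓝 (x + ext Ω x (x - m) • (x - m))) := by
    have h1 : Tendsto (fun ε => x - Z ε) (𝓝[>] (0:ℝ)) (𝓝 (x - m)) := tendsto_const_nhds.sub hZ0
    exact tendsto_const_nhds.add
      ((tendsto_ext_dir ho hc hb hx (sub_ne_zero.mpr hxm) h1).smul h1)
  have hQlim : Tendsto Q (𝓝[>] (0:ℝ)) (𝓝 (x + ext Ω x (m - x) • (m - x))) := by
    have h1 : Tendsto (fun ε => Z ε - x) (𝓝[>] (0:ℝ)) (𝓝 (m - x)) := hZ0.sub_const x
    exact tendsto_const_nhds.add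
      ((tendsto_ext_dir ho hc hb hx (sub_ne_zero.mpr hxm.symm) h1).smul h1)
  have hPS : ∀ᶠ ε in 𝓝[>] (0:ℝ), Supp Ω m (H (P ε)) (P ε) := by
    filter_upwards [hZΩ, hZx] with ε h1 h2
    exact hH _ (ext_not_mem ho hb hx (sub_ne_zero.mpr h2.symm))
  have hQS : ∀ᶠ ε in 𝓝[>] (0:ℝ), Supp Ω m (H (Q ε)) (Q ε) := by
    filter_upwards [hZΩ, hZx] with ε h1 h2
    exact hH _ (ext_not_mem ho hb hx (sub_ne_zero.mpr h2))
  have hineq : ∀ᶠ ε in 𝓝[>] (0:ℝ), lin (H (Q ε)) v ≤ lin (H (P ε)) v := by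
    filter_upwards [hZΩ, hZx, hPS, hQS, self_mem_nhdsWithin] with ε h1 h2 h3 h4 h5
    have h5' : 0 < ε := h5
    have e1 := hd_of_zero ho hb hx h1 h2.symm h3.pos h4.pos h3.zero h4.zero
    have e2 := log_le_hd ho hb hx hm hxm h3.pos h4.pos
    have e3 := hnear ε h5' h1
    rw [h3.norm, h4.norm, one_mul, mul_one] at e2
    have px := h3.pos x hx
    have pz := h3.pos _ h1
    have qx := h4.pos x hx
    have qz := h4.pos _ h1
    have e4 : Real.log (ev (H (Q ε)) x / ev (H (P ε)) x) ≤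
        Real.log (ev (H (P ε)) (Z ε) * ev (H (Q ε)) x /
          (ev (H (P ε)) x * ev (H (Q ε)) (Z ε))) := by
      rw [← e1]
      linarith
    have e5 := (Real.log_le_log_iff (by positivity) (by positivity)).mp e4
    rw [div_le_div_iff₀ px (by positivity)] at e5
    have e6 : ev (H (Q ε)) (Z ε) ≤ ev (H (P ε)) (Z ε) := by
      have : (ev (H (Q ε)) x * ev (H (P ε)) x) * ev (H (Q ε)) (Z ε) ≤
          (ev (H (Q ε)) x * ev (H (P ε)) x) * ev (H (P ε)) (Z ε) := by linarith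
      exact le_of_mul_le_mul_left this (by positivity)
    have e7 : ev (H (Q ε)) (Z ε) = 1 + ε * lin (H (Q ε)) v := by
      rw [hZ, ev_add_smul, h4.norm]
    have e8 : ev (H (P ε)) (Z ε) = 1 + ε * lin (H (P ε)) v := by
      rw [hZ, ev_add_smul, h3.norm]
    rw [e7, e8] at e6
    exact le_of_mul_le_mul_left (by linarith) h5'
  -- limit along an ultrafilter
  have hcomp := compact_supp ho hm
  obtain ⟨F, hF⟩ := Ultrafilter.exists_le (𝓝[>] (0:ℝ))
  have hmap : ∀ {X : ℝ → ℝ × ℝ} {X0 : ℝ × ℝ}, Tendsto X (𝓝[>] (0:ℝ)) (𝓝 X0) →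
      (∀ᶠ ε in 𝓝[>] (0:ℝ), Supp Ω m (H (X ε)) (X ε)) →
      ∃ h : ℝ × ℝ × ℝ, Supp Ω m h X0 ∧ Tendsto (fun ε => H (X ε)) F (𝓝 h) := by
    intro X X0 hX hS
    have hle : (F.map (fun ε => H (X ε)) : Filter (ℝ × ℝ × ℝ)) ≤
        𝓟 {h : ℝ × ℝ × ℝ | (∀ x ∈ Ω, 0 ≤ ev h x) ∧ ev h m = 1} := by
      rw [le_principal_iff]
      show _ ∈ Filter.map _ _
      rw [Filter.mem_map]
      apply hF
      filter_upwards [hS] with ε hε
      exact ⟨fun x hx => (hε.pos x hx).le, hε.norm⟩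
    obtain ⟨h, hh, hlim⟩ := hcomp.ultrafilter_le_nhds _ hle
    have hlim' : Tendsto (fun ε => H (X ε)) F (𝓝 h) := hlim
    refine ⟨h, ?_, hlim'⟩
    have h1 := tendsto_ev hlim' (hX.mono_left hF)
    have h2 : Tendsto (fun ε : ℝ => ev (H (X ε)) (X ε)) F (𝓝 0) := by
      refine tendsto_const_nhds.congr' ?_
      filter_upwards [hF hS] with ε hε
      exact hε.zero.symm
    have h3 := tendsto_nhds_unique h1 h2
    exact ⟨pos_of_nonneg ho hh.1 hh.2 h3, hh.2, h3⟩
  obtain ⟨h, hhS, hhlim⟩ := hmap hPlim hPS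
  obtain ⟨k, hkS, hklim⟩ := hmap hQlim hQS
  refine ⟨h, k, hhS, hkS, ?_⟩
  have hlin : ∀ {G : ℝ → ℝ × ℝ × ℝ} {g : ℝ × ℝ × ℝ}, Tendsto G F (𝓝 g) →
      Tendsto (fun ε => lin (G ε) v) F (𝓝 (lin g v)) := by
    intro G g hG
    have hcont : Continuous (fun p : ℝ × ℝ × ℝ => lin p v) := by
      unfold lin
      fun_prop
    exact (hcont.tendsto g).comp hG
  exact le_of_tendsto_of_tendsto (hlin hklim) (hlin hhlim) (hF hineq)

end

end Pool.Agent.HilbertReverse
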