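import Pool.Agent.HilbertReverse.Converse

set_option autoImplicit false

namespace Pool.Agent.HilbertReverse

open Set Filter Topology

lemma ev_comb2 (s t : ℝ) (h k : ℝ × ℝ × ℝ) (x : ℝ × ℝ) :
    ev (s • h + t • k) x = s * ev h x + t * ev k x := by
  simp only [ev, Prod.fst_add, Prod.snd_add, Prod.smul_fst, Prod.smul_snd, smul_eq_mul]
  ring

lemma lin_comb2 (s t : ℝ) (h k : ℝ × ℝ × ℝ) (x : ℝ × ℝ) :
    lin (s • h + t • k) x = s * lin h x + t * lin k x := by
  simp only [lin, Prod.fst_add, Prod.snd_add, Prod.smul_fst, Prod.smul_snd, smul_eq_mul]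
  ring

lemma ev_smul (s : ℝ) (h : ℝ × ℝ × ℝ) (x : ℝ × ℝ) : ev (s • h) x = s * ev h x := by
  simp only [ev, Prod.smul_fst, Prod.smul_snd, smul_eq_mul]
  ring

lemma lin_smul (s : ℝ) (h : ℝ × ℝ × ℝ) (x : ℝ × ℝ) : lin (s • h) x = s * lin h x := by
  simp only [lin, Prod.smul_fst, Prod.smul_snd, smul_eq_mul]
  ring

lemma lin_neg (h : ℝ × ℝ × ℝ) (x : ℝ × ℝ) : lin h (-x) = - lin h x := by
  simp only [lin, Prod.fst_neg, Prod.snd_neg]
  ring

section

variable {Ω : Set (ℝ × ℝ)} (ho : IsOpen Ω) (hc : Convex ℝ Ω) (hb : Bornology.IsBounded Ω)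

include ho hc hb in
lemma ray_scale {x w : ℝ × ℝ} (hx : x ∈ Ω) (hw : w ≠ 0) {t : ℝ} (ht : 0 < t) :
    x + ext Ω x (t • w) • (t • w) = x + ext Ω x w • w := by
  have h0 := ext_pos ho hb hx hw
  have e : x + (ext Ω x w / t) • (t • w) = x + ext Ω x w • w := by
    rw [smul_smul, div_mul_cancel₀ _ ht.ne']
  have h1 : ext Ω x (t • w) = ext Ω x w / t := by
    apply ext_eq ho hc hx (by positivity)
    · rw [e]; exact ext_mem_closure hb hx hw
    · rw [e]; exact ext_not_mem ho hb hx hw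
  rw [h1, e]

include ho hc hb in
lemma ray_point {x y w : ℝ × ℝ} (hx : x ∈ Ω) (hy : y ∈ Ω) (hw : w ≠ 0) {s : ℝ} (hs : 0 ≤ s)
    (hxy : y = x + s • w) : y + ext Ω y w • w = x + ext Ω x w • w := by
  have h0 := ext_pos ho hb hy hw
  have e : x + (s + ext Ω y w) • w = y + ext Ω y w • w := by
    rw [hxy]
    generalize ext Ω (x + s • w) w = r
    rw [add_smul, add_assoc]
  have h1 : ext Ω x w = s + ext Ω y w := by
    apply ext_eq ho hc hx (by positivity)
    · rw [e]; exact ext_mem_closure hb hy hw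
    · rw [e]; exact ext_not_mem ho hb hy hw
  rw [h1, e]

include ho hc hb in
/-- forward end -/
lemma fwd_eq_en {x y : ℝ × ℝ} (hx : x ∈ Ω) (hy : y ∈ Ω) (hxy : x ≠ y) :
    x + ext Ω x (y - x) • (y - x) = en Ω y x := by
  unfold en
  exact (ray_point ho hc hb hx hy (sub_ne_zero.mpr hxy.symm) zero_le_one (by simp)).symm

include ho hc hb in
/-- backward end for an intermediate point -/
lemma en_left {a b m : ℝ × ℝ} (ha : a ∈ Ω) (hab : a ≠ b) {t : ℝ} (ht : 0 < t)
    (hm : m = a + t • (b - a)) : en Ω a m = en Ω a b := by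
  have e : a - m = t • (a - b) := by
    rw [hm]
    ext <;> simp <;> ring
  unfold en
  rw [e]
  exact ray_scale ho hc hb ha (sub_ne_zero.mpr hab) ht

include ho hc hb in
lemma en_mid {a b m : ℝ × ℝ} (ha : a ∈ Ω) (hm' : m ∈ Ω) (hab : a ≠ b) {t : ℝ} (ht : 0 ≤ t)
    (ht1 : t < 1) (hm : m = a + t • (b - a)) : en Ω m b = en Ω a b := by
  have e : m - b = (1 - t) • (a - b) := by
    rw [hm]
    ext <;> simp <;> ring
  have e2 : a = m + t • (a - b) := by
    rw [hm]
    ext <;> simp <;> ring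
  unfold en
  rw [e, ray_scale ho hc hb hm' (sub_ne_zero.mpr hab) (by linarith)]
  exact (ray_point ho hc hb hm' ha (sub_ne_zero.mpr hab) ht e2).symm

include ho hc hb in
/-- every reverse perpendicular median line comes from support functionals at the ends -/
lemma RR_line {O a b : ℝ × ℝ} (hO : O ∈ Ω) (ha : a ∈ Ω) (hb' : b ∈ Ω) (hab : a ≠ b)
    {ℓ : AffineSubspace ℝ (ℝ × ℝ)} (hR : RR Ω a b ℓ) :
    ∃ h k : ℝ × ℝ × ℝ, Supp Ω O h (en Ω a b) ∧ Supp Ω O k (en Ω b a) ∧
      (∀ z ∈ ℓ, ev h z = Real.sqrt ((ev h a * ev h b) / (ev k a * ev k b)) * ev k z) ∧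
      ∃ w : ℝ × ℝ, w ≠ 0 ∧ ℓ.direction = Submodule.span ℝ {w} ∧
        lin h w = Real.sqrt ((ev h a * ev h b) / (ev k a * ev k b)) * lin k w := by
  obtain ⟨hfin, m, hmseg, hmid, hmℓ, hnear⟩ := hR
  have hm : m ∈ Ω := hc.segment_subset ha hb' hmseg
  have hma : a ≠ m := by
    rintro rfl
    rw [hd_self Ω a ha] at hmid
    exact (hd_pos ho hb ha hb' hab).ne hmid
  have hmb : m ≠ b := by
    rintro rfl
    rw [hd_self Ω m hm] at hmid
    exact (hd_pos ho hb ha hm hma).ne' hmid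
  -- parameter of m
  obtain ⟨t, ⟨ht0, ht1⟩, htm⟩ := (segment_eq_image' ℝ a b) ▸ hmseg
  have htm' : m = a + t • (b - a) := htm.symm
  have ht0' : 0 < t := by
    rcases ht0.lt_or_eq with h | h
    · exact h
    · exfalso
      apply hma
      rw [htm', ← h]
      simp
  have ht1' : t < 1 := by
    rcases ht1.lt_or_eq with h | h
    · exact h
    · exfalso
      apply hmb
      rw [htm', h]
      simp
  have hrev : m = b + (1 - t) • (a - b) := by
    rw [htm']
    ext <;> simp <;> ring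
  -- ends
  have E1 : en Ω a m = en Ω a b := en_left ho hc hb ha hab ht0' htm'
  have E2 : en Ω m a = en Ω b a := en_mid ho hc hb hb' hm hab.symm (by linarith) (by linarith) hrev
  have E3 : en Ω m b = en Ω a b := en_mid ho hc hb ha hm hab ht0 ht1' htm'
  have E4 : en Ω b m = en Ω b a := en_left ho hc hb hb' hab.symm (by linarith) hrev
  -- direction
  obtain ⟨w, hw, hdir⟩ : ∃ w : ℝ × ℝ, w ≠ 0 ∧ ℓ.direction = Submodule.span ℝ {w} := by
    obtain ⟨⟨w, hwm⟩, hw0, hw⟩ := finrank_eq_one_iff'.mp hfin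
    refine ⟨w, fun h => hw0 (by ext1; exact h), ?_⟩
    apply le_antisymm
    · intro y hy
      obtain ⟨c, hcy⟩ := hw ⟨y, hy⟩
      rw [Submodule.mem_span_singleton]
      exact ⟨c, congrArg Subtype.val hcy⟩
    · rw [Submodule.span_singleton_le_iff_mem]
      exact hwm
  have hwdir : w ∈ ℓ.direction := by
    rw [hdir]
    exact Submodule.mem_span_singleton_self w
  have hmem : ∀ ε : ℝ, m + ε • w ∈ ℓ := by
    intro ε
    have := AffineSubspace.vadd_mem_of_mem_direction (ℓ.direction.smul_mem ε hwdir) hmℓ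
    rwa [vadd_eq_add, add_comm] at this
  have haspan : a ∈ affineSpan ℝ {a, b} := left_mem_affineSpan_pair ℝ a b
  obtain ⟨h1, k1, hs1, ks1, l1⟩ := exists_pair ho hc hb (v := w) ha hm hma
    (fun ε _ hε => hnear a haspan ha _ (hmem ε) hε)
  obtain ⟨h2, k2, hs2, ks2, l2⟩ := exists_pair ho hc hb (v := -w) ha hm hma
    (fun ε _ hε => hnear a haspan ha _ (by
      rw [smul_neg, ← neg_smul]
      exact hmem (-ε)) hε)
  rw [fwd_eq_en ho hc hb ha hm hma, E2] at ks1 ks2
  change Supp Ω m h1 (en Ω a m) at hs1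
  change Supp Ω m h2 (en Ω a m) at hs2
  rw [E1] at hs1 hs2
  rw [lin_neg, lin_neg] at l2
  -- convex combination
  obtain ⟨s, hs0, hs1', hs⟩ : ∃ s : ℝ, 0 ≤ s ∧ s ≤ 1 ∧
      (1 - s) * lin h1 w + s * lin h2 w = (1 - s) * lin k1 w + s * lin k2 w := by
    by_cases hz : (lin h1 w - lin k1 w) + (lin k2 w - lin h2 w) = 0
    · exact ⟨0, le_rfl, zero_le_one, by linarith⟩
    · have hpos : 0 < (lin h1 w - lin k1 w) + (lin k2 w - lin h2 w) :=
        lt_of_le_of_ne (by linarith) (Ne.symm hz)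
      refine ⟨(lin h1 w - lin k1 w) / ((lin h1 w - lin k1 w) + (lin k2 w - lin h2 w)),
        div_nonneg (by linarith) hpos.le, (div_le_one hpos).mpr (by linarith), ?_⟩
      field_simp
      ring
  set h := (1 - s) • h1 + s • h2 with hh
  set k := (1 - s) • k1 + s • k2 with hk
  have comb : ∀ {f g : ℝ × ℝ × ℝ} {U : ℝ × ℝ}, Supp Ω m f U → Supp Ω m g U →
      Supp Ω m ((1 - s) • f + s • g) U := by
    intro f g U hf hg
    refine ⟨fun x hx => ?_, ?_, ?_⟩
    · rw [ev_comb2]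
      have a1 := hf.pos x hx
      have a2 := hg.pos x hx
      rcases hs0.lt_or_eq with h0 | h0
      · have : 0 ≤ (1 - s) * ev f x := mul_nonneg (by linarith) a1.le
        have : 0 < s * ev g x := mul_pos h0 a2
        linarith
      · rw [← h0]
        simpa using a1
    · rw [ev_comb2, hf.norm, hg.norm]
      ring
    · rw [ev_comb2, hf.zero, hg.zero]
      ring
  have Sh : Supp Ω m h (en Ω a b) := comb hs1 hs2
  have Sk : Supp Ω m k (en Ω b a) := comb ks1 ks2
  have hlin : lin h w = lin k w := by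
    rw [hh, hk, lin_comb2, lin_comb2]
    exact hs
  -- the midpoint equation
  have d1 := hd_of_zero ho hb ha hm hma Sh.pos Sk.pos
    (by
      change ev h (en Ω a m) = 0
      rw [E1]; exact Sh.zero)
    (by rw [fwd_eq_en ho hc hb ha hm hma, E2]; exact Sk.zero)
  have d2 := hd_of_zero ho hb hm hb' hmb Sh.pos Sk.pos
    (by
      change ev h (en Ω m b) = 0
      rw [E3]; exact Sh.zero)
    (by rw [fwd_eq_en ho hc hb hm hb' hmb, E4]; exact Sk.zero)
  have pha := Sh.pos a ha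
  have phb := Sh.pos b hb'
  have pka := Sk.pos a ha
  have pkb := Sk.pos b hb'
  have hprod : ev h a * ev h b = ev k a * ev k b := by
    rw [Sh.norm, Sk.norm] at d1 d2
    have e : Real.log (1 * ev k a / (ev h a * 1)) = Real.log (ev h b * 1 / (1 * ev k b)) := by
      rw [← d1, ← d2, hmid]
    have q1 : (0:ℝ) < 1 * ev k a / (ev h a * 1) := by positivity
    have q2 : (0:ℝ) < ev h b * 1 / (1 * ev k b) := by positivity
    have e2 := Real.log_injOn_pos (Set.mem_Ioi.mpr q1) (Set.mem_Ioi.mpr q2) e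
    rw [div_eq_div_iff (by positivity) (by positivity)] at e2
    linarith
  -- rescale
  have cO := Sh.pos O hO
  have dO := Sk.pos O hO
  have hsq : Real.sqrt ((ev ((ev h O)⁻¹ • h) a * ev ((ev h O)⁻¹ • h) b) /
      (ev ((ev k O)⁻¹ • k) a * ev ((ev k O)⁻¹ • k) b)) = ev k O / ev h O := by
    have e : (ev ((ev h O)⁻¹ • h) a * ev ((ev h O)⁻¹ • h) b) /
      (ev ((ev k O)⁻¹ • k) a * ev ((ev k O)⁻¹ • k) b) = (ev k O / ev h O) ^ 2 := by
      rw [ev_smul, ev_smul, ev_smul, ev_smul]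
      rw [div_eq_iff (by positivity)]
      field_simp
      linarith
    rw [e]
    exact Real.sqrt_sq (by positivity)
  have scale : ∀ {f : ℝ × ℝ × ℝ} {U : ℝ × ℝ}, Supp Ω m f U → Supp Ω O ((ev f O)⁻¹ • f) U := by
    intro f U hf
    have hfO := hf.pos O hO
    refine ⟨fun x hx => ?_, ?_, ?_⟩
    · rw [ev_smul]
      have := hf.pos x hx
      positivity
    · rw [ev_smul]
      exact inv_mul_cancel₀ hfO.ne'
    · rw [ev_smul, hf.zero, mul_zero]
  refine ⟨(ev h O)⁻¹ • h, (ev k O)⁻¹ • k, scale Sh, scale Sk, ?_, w, hw, hdir, ?_⟩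
  · intro z hz
    rw [hsq]
    -- z - m in direction
    have hzm : z - m ∈ ℓ.direction := by
      have := AffineSubspace.vsub_mem_direction hz hmℓ
      rwa [vsub_eq_sub] at this
    rw [hdir, Submodule.mem_span_singleton] at hzm
    obtain ⟨c, hcz⟩ := hzm
    have e6 : z = m + c • w := by rw [hcz]; abel
    rw [ev_smul, ev_smul, e6, ev_add_smul, ev_add_smul, Sh.norm, Sk.norm, hlin]
    field_simp
  · rw [hsq, lin_smul, lin_smul, hlin]
    field_simp

end

end Pool.Agent.HilbertReverse
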