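import Pool.Agent.HilbertReverse.Segre

set_option autoImplicit false

namespace Pool.Agent.HilbertReverse

open Set Filter Topology

section

variable {Ω : Set (ℝ × ℝ)} (ho : IsOpen Ω) (hc : Convex ℝ Ω) (hb : Bornology.IsBounded Ω)

/-- Euclidean squared distance -/
def qd (X Y : ℝ × ℝ) : ℝ := (X.1 - Y.1) ^ 2 + (X.2 - Y.2) ^ 2

lemma continuous_qd (X : ℝ × ℝ) : Continuous (qd X) := by
  unfold qd
  fun_prop

include ho hc hb in
/-- density of the smooth boundary points -/
lemma exists_good_near {O : ℝ × ℝ} (hO : O ∈ Ω) {x0 : ℝ × ℝ} (hx0 : x0 ∈ closure Ω)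
    (hx0' : x0 ∉ Ω) {δ : ℝ} (hδ : 0 < δ) : ∃ U u, Good Ω O U u ∧ dist x0 U < δ := by
  -- choose X in Ω near x0
  obtain ⟨X, hX, hXd⟩ := Metric.mem_closure_iff.mp hx0 (δ / 4) (by positivity)
  -- minimise the Euclidean distance over the boundary
  have hcomp : IsCompact (closure Ω \ Ω) := by
    apply Metric.isCompact_of_isClosed_isBounded
    · exact isClosed_closure.sdiff ho
    · exact hb.closure.subset sdiff_subset
  obtain ⟨U, hU, hmin⟩ := hcomp.exists_isMinOn ⟨x0, hx0, hx0'⟩ (continuous_qd X).continuousOn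
  have hUmin : ∀ Y ∈ closure Ω \ Ω, qd X U ≤ qd X Y := fun Y hY => hmin hY
  have hXU : X ≠ U := by
    rintro rfl
    exact hU.2 hX
  -- the open disc is inside Ω
  have hdisc : ∀ Z : ℝ × ℝ, qd X Z < qd X U → Z ∈ Ω := by
    intro Z hZ
    by_contra hZΩ
    have hZX : Z - X ≠ 0 := by
      intro h
      rw [sub_eq_zero] at h
      rw [h] at hZΩ
      exact hZΩ hX
    have h1 := ext_mem_closure hb hX hZX
    have h2 := ext_not_mem ho hb hX hZX
    have h0 := ext_pos ho hb hX hZX
    have hle : ext Ω X (Z - X) ≤ 1 := by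
      by_contra hcon
      push Not at hcon
      have := mem_of_lt ho hc hX h1 (t := 1 / ext Ω X (Z - X)) (by positivity)
        ((div_lt_one h0).mpr hcon)
      rw [add_sub_cancel_left, smul_smul, div_mul_cancel₀ _ h0.ne', one_smul,
        add_sub_cancel] at this
      exact hZΩ this
    have h3 := hUmin _ ⟨h1, h2⟩
    have h4 : qd X (X + ext Ω X (Z - X) • (Z - X)) = (ext Ω X (Z - X)) ^ 2 * qd X Z := by
      simp only [qd, Prod.fst_add, Prod.snd_add, Prod.smul_fst, Prod.smul_snd, smul_eq_mul,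
        Prod.fst_sub, Prod.snd_sub]
      ring
    have h5 : 0 ≤ qd X Z := by
      unfold qd
      positivity
    have h6 : (ext Ω X (Z - X)) ^ 2 ≤ 1 := by nlinarith
    nlinarith
  obtain ⟨u, hu⟩ := exists_supp hc ho hO hU.2
  refine ⟨U, u, ⟨hu, hU.1, ?_⟩, ?_⟩
  · -- smoothness
    set n := X - U with hn
    have hnpos : 0 < n.1 ^ 2 + n.2 ^ 2 := by
      by_contra hcon
      push Not at hcon
      apply hXU
      have e1 : n.1 = 0 := by nlinarith [sq_nonneg n.1, sq_nonneg n.2]
      have e2 : n.2 = 0 := by nlinarith [sq_nonneg n.1, sq_nonneg n.2]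
      rw [← sub_eq_zero, ← hn]
      ext
      · exact e1
      · exact e2
    have hin : ∀ w : ℝ × ℝ, 0 < n.1 * w.1 + n.2 * w.2 → ∀ᶠ ε in 𝓝[>] (0 : ℝ), U + ε • w ∈ Ω := by
      intro w hw
      have hlim : Tendsto (fun ε : ℝ => ε * (w.1 ^ 2 + w.2 ^ 2)) (𝓝[>] 0)
          (𝓝 (0 * (w.1 ^ 2 + w.2 ^ 2))) :=
        (tendsto_id.mono_left nhdsWithin_le_nhds).mul tendsto_const_nhds
      rw [zero_mul] at hlim
      have h1 := hlim.eventually (eventually_lt_nhds (show (0:ℝ) < 2 * (n.1 * w.1 + n.2 * w.2) by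
        linarith))
      filter_upwards [h1, self_mem_nhdsWithin] with ε hε hε0
      have hε0' : 0 < ε := hε0
      apply hdisc
      have e : qd X (U + ε • w) = qd X U - 2 * ε * (n.1 * w.1 + n.2 * w.2)
          + ε ^ 2 * (w.1 ^ 2 + w.2 ^ 2) := by
        simp only [qd, hn, Prod.fst_add, Prod.snd_add, Prod.smul_fst, Prod.smul_snd, smul_eq_mul,
          Prod.fst_sub, Prod.snd_sub]
        ring
      rw [e]
      nlinarith
    have key : ∀ w : ℝ × ℝ, 0 < n.1 * w.1 + n.2 * w.2 → 0 < lin u w := by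
      intro w hw
      obtain ⟨ε, hε, hε0⟩ := ((hin w hw).and self_mem_nhdsWithin).exists
      have := hu.pos _ hε
      rw [ev_add_smul, hu.zero, zero_add] at this
      exact (pos_iff_pos_of_mul_pos this).mp hε0
    have hcross : u.1 * n.2 = u.2.1 * n.1 := by
      by_contra hcon
      set c := u.2.1 * n.1 - u.1 * n.2 with hcdef
      have hc0 : c ≠ 0 := fun h => hcon (by linarith)
      set t := -((u.1 * n.1 + u.2.1 * n.2) + 1) / c with ht
      have h3 := key (n.1 - t * n.2, n.2 + t * n.1) (by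
        simp only
        nlinarith)
      have h4 : lin u (n.1 - t * n.2, n.2 + t * n.1) =
          (u.1 * n.1 + u.2.1 * n.2) + t * c := by
        simp only [lin, hcdef]
        ring
      rw [h4, ht, div_mul_cancel₀ _ hc0] at h3
      linarith
    have hun : 0 < lin u n := key n (by nlinarith)
    intro w hw
    apply hin
    have e : (n.1 * w.1 + n.2 * w.2) * lin u n = (n.1 ^ 2 + n.2 ^ 2) * lin u w := by
      simp only [lin]
      linear_combination (w.2 * n.1 - w.1 * n.2) * hcross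
    have : 0 < (n.1 * w.1 + n.2 * w.2) * lin u n := by
      rw [e]; positivity
    exact (pos_iff_pos_of_mul_pos this).mpr hun
  · -- distance
    have h1 := hUmin x0 ⟨hx0, hx0'⟩
    rw [Prod.dist_eq, max_lt_iff, Real.dist_eq, Real.dist_eq] at hXd
    obtain ⟨d1, d2⟩ := hXd
    have h2 : qd X x0 < (δ / 2) ^ 2 := by
      unfold qd
      have s1 : (X.1 - x0.1) ^ 2 < (δ / 4) ^ 2 := by
        rw [sq_lt_sq, abs_sub_comm, abs_of_pos (show 0 < δ / 4 by positivity)]
        exact d1
      have s2 : (X.2 - x0.2) ^ 2 < (δ / 4) ^ 2 := by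
        rw [sq_lt_sq, abs_sub_comm, abs_of_pos (show 0 < δ / 4 by positivity)]
        exact d2
      nlinarith
    have h3 : qd X U < (δ / 2) ^ 2 := lt_of_le_of_lt h1 h2
    have h4 : |X.1 - U.1| < δ / 2 := by
      apply abs_lt_of_sq_lt_sq _ (by positivity)
      unfold qd at h3
      nlinarith [sq_nonneg (X.2 - U.2)]
    have h5 : |X.2 - U.2| < δ / 2 := by
      apply abs_lt_of_sq_lt_sq _ (by positivity)
      unfold qd at h3
      nlinarith [sq_nonneg (X.1 - U.1)]
    rw [Prod.dist_eq, max_lt_iff, Real.dist_eq, Real.dist_eq]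
    constructor
    · have := abs_sub_le x0.1 X.1 U.1
      linarith
    · have := abs_sub_le x0.2 X.2 U.2
      linarith

include ho hc hb in
/-- a continuous function vanishing at all good points vanishes on the boundary -/
lemma zero_on_boundary {O : ℝ × ℝ} (hO : O ∈ Ω) {f : ℝ × ℝ → ℝ} (hf : Continuous f)
    (h0 : ∀ U u, Good Ω O U u → f U = 0) {x : ℝ × ℝ} (hx : x ∈ closure Ω) (hx' : x ∉ Ω) :
    f x = 0 := by
  have hcl : IsClosed {y | f y = 0} := isClosed_eq hf continuous_const
  have : x ∈ closure {y | f y = 0} := by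
    rw [Metric.mem_closure_iff]
    intro δ hδ
    obtain ⟨U, u, hU, hd⟩ := exists_good_near ho hc hb hO hx hx' hδ
    exact ⟨U, h0 U u hU, hd⟩
  rw [hcl.closure_eq] at this
  exact this

include ho hc hb in
/-- the boundary is not covered by two lines missing `O` -/
lemma exists_good_off {O : ℝ × ℝ} (hO : O ∈ Ω) {f g : ℝ × ℝ × ℝ} (hf : ev f O = 1)
    (hg : ev g O = 1) : ∃ U u, Good Ω O U u ∧ ev f U * ev g U ≠ 0 := by
  by_contra hcon
  push Not at hcon
  have hz : ∀ x ∈ closure Ω, x ∉ Ω → ev f x * ev g x = 0 := by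
    intro x hx hx'
    exact zero_on_boundary ho hc hb hO ((continuous_ev f).mul (continuous_ev g)) hcon hx hx'
  obtain ⟨w, hw, hlin⟩ : ∃ w : ℝ × ℝ, w ≠ 0 ∧ lin f w = lin g w := by
    by_cases h : f.1 = g.1 ∧ f.2.1 = g.2.1
    · refine ⟨(1, 0), by simp, ?_⟩
      simp [lin, h.1]
    · refine ⟨(-(f.2.1 - g.2.1), f.1 - g.1), ?_, ?_⟩
      · intro h0
        apply h
        have h1 := congrArg Prod.fst h0
        have h2 := congrArg Prod.snd h0
        simp only [Prod.fst_zero, Prod.snd_zero] at h1 h2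
        exact ⟨by linarith, by linarith⟩
      · simp only [lin]; ring
  have hw' : -w ≠ 0 := neg_ne_zero.mpr hw
  have t1 := ext_pos ho hb hO hw
  have t2 := ext_pos ho hb hO hw'
  have z1 := hz _ (ext_mem_closure hb hO hw) (ext_not_mem ho hb hO hw)
  have z2 := hz _ (ext_mem_closure hb hO hw') (ext_not_mem ho hb hO hw')
  have hneg : ∀ h : ℝ × ℝ × ℝ, lin h (-w) = - lin h w := by
    intro h
    simp only [lin, Prod.fst_neg, Prod.snd_neg]
    ring
  rw [ev_add_smul f, ev_add_smul g, hf, hg, ← hlin] at z1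
  rw [ev_add_smul f, ev_add_smul g, hf, hg, hneg, hneg, ← hlin] at z2
  have a1 : 1 + ext Ω O w * lin f w = 0 := by simpa using z1
  have a2 : 1 + ext Ω O (-w) * -lin f w = 0 := by simpa using z2
  have b1 : lin f w < 0 := by
    by_contra hh
    push Not at hh
    have := mul_nonneg t1.le hh
    linarith
  have b2 : 0 < lin f w := by
    by_contra hh
    push Not at hh
    have := mul_nonneg t2.le (neg_nonneg.mpr hh)
    linarith
  linarith

end

end Pool.Agent.HilbertReverse
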