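import Pool.Agent.HilbertReverse.Basic

set_option autoImplicit false

namespace Pool.Agent.HilbertReverse

open Set Filter Topology

/-- the Hilbert distance, in terms of `ext` -/
noncomputable def hd (Ω : Set (ℝ × ℝ)) (x y : ℝ × ℝ) : ℝ :=
  (1 / 2) * Real.log (((1 + ext Ω x (x - y)) * ext Ω x (y - x)) /
    (ext Ω x (x - y) * (ext Ω x (y - x) - 1)))

lemma hd_eq (Ω : Set (ℝ × ℝ)) (x y : ℝ × ℝ) :
    hd Ω x y = (1 / 2) * Real.log
        (((1 + sSup {s : ℝ | 0 ≤ s ∧ x - s • (y - x) ∈ Ω}) *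
            sSup {t : ℝ | 0 ≤ t ∧ x + t • (y - x) ∈ Ω}) /
          (sSup {s : ℝ | 0 ≤ s ∧ x - s • (y - x) ∈ Ω} *
            (sSup {t : ℝ | 0 ≤ t ∧ x + t • (y - x) ∈ Ω} - 1))) := by
  have : {s : ℝ | 0 ≤ s ∧ x - s • (y - x) ∈ Ω} = {s : ℝ | 0 ≤ s ∧ x + s • (x - y) ∈ Ω} := by
    ext s
    have : x - s • (y - x) = x + s • (x - y) := by
      rw [sub_eq_add_neg, ← smul_neg, neg_sub]
    simp only [mem_setOf_eq, this]
  rw [this]
  rfl

lemma hd_self (Ω : Set (ℝ × ℝ)) (x : ℝ × ℝ) (hx : x ∈ Ω) : hd Ω x x = 0 := by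
  have h : ext Ω x (x - x) = 0 := by
    unfold ext
    have : {s : ℝ | 0 ≤ s ∧ x + s • (x - x) ∈ Ω} = Ici 0 := by
      ext s
      simp [hx]
    rw [this]
    apply Real.sSup_of_not_bddAbove
    exact not_bddAbove_Ici 0
  unfold hd
  rw [h]
  simp

section

variable {Ω : Set (ℝ × ℝ)} (ho : IsOpen Ω) (hc : Convex ℝ Ω) (hb : Bornology.IsBounded Ω)

lemma ev_nonneg_closure {h : ℝ × ℝ × ℝ} (hpos : ∀ x ∈ Ω, 0 < ev h x) {x : ℝ × ℝ}
    (hx : x ∈ closure Ω) : 0 ≤ ev h x := by
  have hcl : IsClosed {x | 0 ≤ ev h x} := isClosed_le continuous_const (continuous_ev h)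
  exact closure_minimal (fun y hy => (hpos y hy).le) hcl hx

include ho hb in
lemma one_lt_ext {x y : ℝ × ℝ} (hx : x ∈ Ω) (hy : y ∈ Ω) (hxy : x ≠ y) :
    1 < ext Ω x (y - x) := by
  have hw : y - x ≠ 0 := sub_ne_zero.mpr hxy.symm
  have h1 : (1 : ℝ) ≤ ext Ω x (y - x) :=
    le_csSup (bddAbove_ray hb hw) ⟨zero_le_one, by simpa using hy⟩
  rcases h1.lt_or_eq with h | h
  · exact h
  · exfalso
    have := ext_not_mem ho hb hx hw
    rw [← h] at this
    simp at this
    exact this hy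

include ho hb in
/-- cross ratio bound by any two positive affine functionals -/
lemma log_le_hd {x z : ℝ × ℝ} (hx : x ∈ Ω) (hz : z ∈ Ω) (hxz : x ≠ z)
    {h k : ℝ × ℝ × ℝ} (hh : ∀ x ∈ Ω, 0 < ev h x) (hk : ∀ x ∈ Ω, 0 < ev k x) :
    Real.log (ev h z * ev k x / (ev h x * ev k z)) ≤ 2 * hd Ω x z := by
  have hw : z - x ≠ 0 := sub_ne_zero.mpr hxz.symm
  have hw' : x - z ≠ 0 := sub_ne_zero.mpr hxz
  have hS := ext_pos ho hb hx hw'
  have hT := one_lt_ext ho hb hx hz hxz
  have e1 := ev_nonneg_closure hh (ext_mem_closure hb hx hw')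
  have e2 := ev_nonneg_closure hk (ext_mem_closure hb hx hw)
  rw [ev_add_smul, lin_sub] at e1 e2
  set S := ext Ω x (x - z) with hSdef
  set T := ext Ω x (z - x) with hTdef
  have hhx := hh x hx
  have hhz := hh z hz
  have hkx := hk x hx
  have hkz := hk z hz
  have hST : 0 < S * (T - 1) := mul_pos hS (by linarith)
  have : ev h z * ev k x / (ev h x * ev k z) ≤ ((1 + S) * T) / (S * (T - 1)) := by
    rw [div_le_div_iff₀ (mul_pos hhx hkz) hST]
    have a1 : S * ev h z ≤ (1 + S) * ev h x := by nlinarith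
    have a2 : (T - 1) * ev k x ≤ T * ev k z := by nlinarith
    calc ev h z * ev k x * (S * (T - 1)) = (S * ev h z) * ((T - 1) * ev k x) := by ring
      _ ≤ ((1 + S) * ev h x) * (T * ev k z) := by
          apply mul_le_mul a1 a2
          · apply mul_nonneg <;> linarith
          · apply mul_nonneg <;> linarith
      _ = (1 + S) * T * (ev h x * ev k z) := by ring
  have hpos : 0 < ev h z * ev k x / (ev h x * ev k z) := by positivity
  have := Real.log_le_log hpos this
  unfold hd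
  rw [← hSdef, ← hTdef]
  linarith

include ho hc in
/-- the distance of two points of a chord -/
lemma hd_chord {P Q : ℝ × ℝ} (hP : P ∈ closure Ω) (hP' : P ∉ Ω) (hQ : Q ∈ closure Ω)
    (hQ' : Q ∉ Ω) {p q : ℝ} (hp : 0 < p) (hpq : p < q) (hq : q < 1)
    (hx : P + p • (Q - P) ∈ Ω) :
    hd Ω (P + p • (Q - P)) (P + q • (Q - P)) =
      (1 / 2) * Real.log (q * (1 - p) / (p * (1 - q))) := by
  have hqp : 0 < q - p := sub_pos.mpr hpq
  have e1 : P + p • (Q - P) - (P + q • (Q - P)) = (-(q - p)) • (Q - P) := by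
    rw [add_sub_add_left_eq_sub, ← sub_smul]
    congr 1
    ring
  have e2 : P + q • (Q - P) - (P + p • (Q - P)) = (q - p) • (Q - P) := by
    rw [add_sub_add_left_eq_sub, ← sub_smul]
  have S : ext Ω (P + p • (Q - P)) (P + p • (Q - P) - (P + q • (Q - P))) = p / (q - p) := by
    have e3 : P + p • (Q - P) + (p / (q - p)) • (P + p • (Q - P) - (P + q • (Q - P))) = P := by
      rw [e1, smul_smul, add_assoc, ← add_smul]
      have : p + p / (q - p) * -(q - p) = 0 := by
        field_simp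
        ring
      rw [this, zero_smul, add_zero]
    apply ext_eq ho hc hx (by positivity)
    · rw [e3]; exact hP
    · rw [e3]; exact hP'
  have T : ext Ω (P + p • (Q - P)) (P + q • (Q - P) - (P + p • (Q - P))) = (1 - p) / (q - p) := by
    have e3 : P + p • (Q - P) + ((1 - p) / (q - p)) • (P + q • (Q - P) - (P + p • (Q - P))) = Q := by
      rw [e2, smul_smul, add_assoc, ← add_smul]
      have : p + (1 - p) / (q - p) * (q - p) = 1 := by
        field_simp
        ring
      rw [this, one_smul, add_sub_cancel]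
    apply ext_eq ho hc hx (div_nonneg (by linarith) hqp.le)
    · rw [e3]; exact hQ
    · rw [e3]; exact hQ'
  unfold hd
  rw [S, T]
  congr 2
  have h1 : (1 : ℝ) - q ≠ 0 := by linarith
  have h2 : q - p ≠ 0 := hqp.ne'
  have h3 : (1 - p) / (q - p) - 1 = (1 - q) / (q - p) := by
    field_simp
    ring
  have h4 : 1 + p / (q - p) = q / (q - p) := by
    field_simp
    ring
  rw [h3, h4]
  field_simp

end

end Pool.Agent.HilbertReverse
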