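import Pool.Agent.HilbertReverse.Main2

set_option autoImplicit false

namespace Pool.Agent.HilbertReverse

open Set Filter Topology

/-- the open unit disc -/
def UD : Set (ℝ × ℝ) := {p : ℝ × ℝ | p.1 ^ 2 + p.2 ^ 2 < 1}

/-- the inner product of the plane -/
def ip (x y : ℝ × ℝ) : ℝ := x.1 * y.1 + x.2 * y.2

lemma aff_decomp (f : (ℝ × ℝ) ≃ᵃ[ℝ] (ℝ × ℝ)) (x : ℝ × ℝ) :
    f x = f 0 + (x.1 • f.linear (1, 0) + x.2 • f.linear (0, 1)) := by
  have h1 : f x = f.linear x + f 0 := by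
    have := f.map_vadd 0 x
    simpa using this
  have h2 : x = x.1 • ((1 : ℝ), (0 : ℝ)) + x.2 • ((0 : ℝ), (1 : ℝ)) := by
    ext <;> simp
  rw [h1]
  conv_lhs => rw [h2]
  rw [map_add, map_smul, map_smul]
  abel

lemma aff_line (f : (ℝ × ℝ) ≃ᵃ[ℝ] (ℝ × ℝ)) (a b : ℝ × ℝ) (s : ℝ) :
    f (a + s • (a - b)) = f a + s • (f a - f b) := by
  rw [aff_decomp f (a + s • (a - b)), aff_decomp f a, aff_decomp f b]
  ext <;> simp <;> ring

lemma cont_aff (f : (ℝ × ℝ) ≃ᵃ[ℝ] (ℝ × ℝ)) : Continuous f :=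
  (f : (ℝ × ℝ) →ᵃ[ℝ] (ℝ × ℝ)).continuous_of_finiteDimensional

section

variable (f : (ℝ × ℝ) ≃ᵃ[ℝ] (ℝ × ℝ))

lemma mem_ell {x : ℝ × ℝ} : x ∈ f '' UD ↔ ip (f.symm x) (f.symm x) < 1 := by
  constructor
  · rintro ⟨y, hy, rfl⟩
    rw [f.symm_apply_apply]
    unfold ip
    have : y.1 ^ 2 + y.2 ^ 2 < 1 := hy
    nlinarith
  · intro h
    refine ⟨f.symm x, ?_, f.apply_symm_apply x⟩
    show (f.symm x).1 ^ 2 + (f.symm x).2 ^ 2 < 1
    unfold ip at h
    nlinarith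

lemma bdry_ell {x : ℝ × ℝ} (hx : x ∈ closure (f '' UD)) (hx' : x ∉ f '' UD) :
    ip (f.symm x) (f.symm x) = 1 := by
  rw [mem_ell] at hx'
  push Not at hx'
  refine le_antisymm ?_ hx'
  have hcl : IsClosed {x | ip (f.symm x) (f.symm x) ≤ 1} := by
    refine isClosed_le ?_ continuous_const
    have := cont_aff f.symm
    unfold ip
    fun_prop
  exact closure_minimal (fun y hy => ((mem_ell f).mp hy).le) hcl hx

/-- the support functionals of an ellipse -/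
lemma supp_ell {h : ℝ × ℝ × ℝ} {U : ℝ × ℝ} (hU : Supp (f '' UD) (f 0) h U)
    (hU1 : ip (f.symm U) (f.symm U) = 1) (z : ℝ × ℝ) :
    ev h z = 1 - ip (f.symm U) (f.symm z) := by
  set α := lin h (f.linear (1, 0)) with hα
  set β := lin h (f.linear (0, 1)) with hβ
  have key : ∀ x : ℝ × ℝ, ev h (f x) = 1 + (x.1 * α + x.2 * β) := by
    intro x
    have : ev h (f x) = ev h (f 0) + (x.1 * α + x.2 * β) := by
      rw [aff_decomp f x, hα, hβ]
      simp only [ev, lin, Prod.fst_add, Prod.snd_add, Prod.smul_fst, Prod.smul_snd, smul_eq_mul]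
      ring
    rw [this, hU.norm]
  have h1 : α ^ 2 + β ^ 2 ≤ 1 := by
    by_contra hcon
    push Not at hcon
    have hpos : 0 < α ^ 2 + β ^ 2 := by linarith
    have hm : (-α / (α ^ 2 + β ^ 2), -β / (α ^ 2 + β ^ 2)) ∈ UD := by
      show (-α / (α ^ 2 + β ^ 2)) ^ 2 + (-β / (α ^ 2 + β ^ 2)) ^ 2 < 1
      have : (-α / (α ^ 2 + β ^ 2)) ^ 2 + (-β / (α ^ 2 + β ^ 2)) ^ 2 = 1 / (α ^ 2 + β ^ 2) := by
        field_simp
      rw [this, div_lt_one hpos]
      exact hcon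
    have := hU.pos _ (mem_image_of_mem f hm)
    rw [key] at this
    have e : 1 + (-α / (α ^ 2 + β ^ 2) * α + -β / (α ^ 2 + β ^ 2) * β) = 0 := by
      field_simp
      ring
    simp only at this
    rw [e] at this
    exact lt_irrefl _ this
  have h2 : 1 + ((f.symm U).1 * α + (f.symm U).2 * β) = 0 := by
    rw [← key, f.apply_symm_apply]
    exact hU.zero
  unfold ip at hU1
  have h3 : (α + (f.symm U).1) ^ 2 + (β + (f.symm U).2) ^ 2 ≤ 0 := by nlinarith
  have q1 := sq_nonneg (α + (f.symm U).1)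
  have q2 := sq_nonneg (β + (f.symm U).2)
  have z1 : (α + (f.symm U).1) ^ 2 = 0 := by linarith
  have z2 : (β + (f.symm U).2) ^ 2 = 0 := by linarith
  have h4 : α = -(f.symm U).1 := by
    have := pow_eq_zero_iff two_ne_zero |>.mp z1
    linarith
  have h5 : β = -(f.symm U).2 := by
    have := pow_eq_zero_iff two_ne_zero |>.mp z2
    linarith
  have h6 := key (f.symm z)
  rw [f.apply_symm_apply] at h6
  rw [h6, h4, h5]
  unfold ip
  ring

lemma div_sqrt_eq {X Y A B : ℝ} (hX : 0 ≤ X) (hY : 0 ≤ Y) (hA : 0 < A) (hB : 0 < B)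
    (h : X ^ 2 * B = Y ^ 2 * A) : X / Real.sqrt A = Y / Real.sqrt B := by
  have hA' := Real.sqrt_pos.mpr hA
  have hB' := Real.sqrt_pos.mpr hB
  rw [div_eq_div_iff hA'.ne' hB'.ne']
  have h1 : (X * Real.sqrt B) ^ 2 = (Y * Real.sqrt A) ^ 2 := by
    rw [mul_pow, mul_pow, Real.sq_sqrt hB.le, Real.sq_sqrt hA.le, h]
  exact (pow_left_inj₀ (by positivity) (by positivity) two_ne_zero).mp h1

/-- the algebra behind the median lines of the disc -/
lemma alg_disc {P Q x y v : ℝ × ℝ} {S T κ : ℝ} (hS : 0 < S) (hT : 0 < T)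
    (hP : P = x + S • (x - y)) (hQ : Q = y + T • (y - x)) (hP1 : ip P P = 1) (hQ1 : ip Q Q = 1)
    (hc : 0 < 1 - ip P x)
    (hκ : κ = Real.sqrt (((1 - ip P x) * (1 - ip P y)) / ((1 - ip Q x) * (1 - ip Q y))))
    (hz : 1 - ip P v = κ * (1 - ip Q v)) :
    (1 - ip x v) / Real.sqrt (1 - ip x x) = (1 - ip y v) / Real.sqrt (1 - ip y y) := by
  have hN : 0 < 1 + S + T := by linarith
  have P1 : P.1 = x.1 + S * (x.1 - y.1) := by rw [hP]; simp
  have P2 : P.2 = x.2 + S * (x.2 - y.2) := by rw [hP]; simp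
  have Q1 : Q.1 = y.1 + T * (y.1 - x.1) := by rw [hQ]; simp
  have Q2 : Q.2 = y.2 + T * (y.2 - x.2) := by rw [hQ]; simp
  have hx1 : (1 + S + T) * x.1 = (1 + T) * P.1 + S * Q.1 := by rw [P1, Q1]; ring
  have hx2 : (1 + S + T) * x.2 = (1 + T) * P.2 + S * Q.2 := by rw [P2, Q2]; ring
  have hy1 : (1 + S + T) * y.1 = T * P.1 + (1 + S) * Q.1 := by rw [P1, Q1]; ring
  have hy2 : (1 + S + T) * y.2 = T * P.2 + (1 + S) * Q.2 := by rw [P2, Q2]; ring
  clear P1 P2 Q1 Q2 hP hQ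
  unfold ip at *
  set c := 1 - (P.1 * Q.1 + P.2 * Q.2) with hcdef
  have ePx : (1 + S + T) * (1 - (P.1 * x.1 + P.2 * x.2)) = S * c := by
    rw [hcdef]
    linear_combination (-P.1) * hx1 + (-P.2) * hx2 - (1 + T) * hP1
  have ePy : (1 + S + T) * (1 - (P.1 * y.1 + P.2 * y.2)) = (1 + S) * c := by
    rw [hcdef]
    linear_combination (-P.1) * hy1 + (-P.2) * hy2 - T * hP1
  have eQx : (1 + S + T) * (1 - (Q.1 * x.1 + Q.2 * x.2)) = (1 + T) * c := by
    rw [hcdef]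
    linear_combination (-Q.1) * hx1 + (-Q.2) * hx2 - S * hQ1
  have eQy : (1 + S + T) * (1 - (Q.1 * y.1 + Q.2 * y.2)) = T * c := by
    rw [hcdef]
    linear_combination (-Q.1) * hy1 + (-Q.2) * hy2 - (1 + S) * hQ1
  have hc0 : 0 < c := by
    have : 0 < S * c := by rw [← ePx]; positivity
    exact (pos_iff_pos_of_mul_pos this).mp hS
  have exx : (1 + S + T) ^ 2 * (1 - (x.1 * x.1 + x.2 * x.2)) = 2 * S * (1 + T) * c := by
    linear_combination (1 + T) * ePx + S * eQx - (1 + S + T) * x.1 * hx1 -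
      (1 + S + T) * x.2 * hx2
  have eyy : (1 + S + T) ^ 2 * (1 - (y.1 * y.1 + y.2 * y.2)) = 2 * T * (1 + S) * c := by
    linear_combination T * ePy + (1 + S) * eQy - (1 + S + T) * y.1 * hy1 -
      (1 + S + T) * y.2 * hy2
  have exv : (1 + S + T) * (1 - (x.1 * v.1 + x.2 * v.2)) =
      ((1 + T) * κ + S) * (1 - (Q.1 * v.1 + Q.2 * v.2)) := by
    linear_combination (-v.1) * hx1 - v.2 * hx2 + (1 + T) * hz
  have eyv : (1 + S + T) * (1 - (y.1 * v.1 + y.2 * v.2)) =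
      (T * κ + (1 + S)) * (1 - (Q.1 * v.1 + Q.2 * v.2)) := by
    linear_combination (-v.1) * hy1 - v.2 * hy2 + T * hz
  have hxx : 0 < 1 - (x.1 * x.1 + x.2 * x.2) := by
    have : 0 < (1 + S + T) ^ 2 * (1 - (x.1 * x.1 + x.2 * x.2)) := by rw [exx]; positivity
    exact (pos_iff_pos_of_mul_pos this).mp (by positivity)
  have hyy : 0 < 1 - (y.1 * y.1 + y.2 * y.2) := by
    have : 0 < (1 + S + T) ^ 2 * (1 - (y.1 * y.1 + y.2 * y.2)) := by rw [eyy]; positivity
    exact (pos_iff_pos_of_mul_pos this).mp (by positivity)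
  have hκ2 : κ ^ 2 * (T * (1 + T)) = S * (1 + S) := by
    have a1 : 0 < 1 - (P.1 * y.1 + P.2 * y.2) := by
      have : 0 < (1 + S + T) * (1 - (P.1 * y.1 + P.2 * y.2)) := by rw [ePy]; positivity
      exact (pos_iff_pos_of_mul_pos this).mp hN
    have a2 : 0 < 1 - (Q.1 * x.1 + Q.2 * x.2) := by
      have : 0 < (1 + S + T) * (1 - (Q.1 * x.1 + Q.2 * x.2)) := by rw [eQx]; positivity
      exact (pos_iff_pos_of_mul_pos this).mp hN
    have a3 : 0 < 1 - (Q.1 * y.1 + Q.2 * y.2) := by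
      have : 0 < (1 + S + T) * (1 - (Q.1 * y.1 + Q.2 * y.2)) := by rw [eQy]; positivity
      exact (pos_iff_pos_of_mul_pos this).mp hN
    rw [hκ, Real.sq_sqrt (by positivity)]
    rw [div_mul_eq_mul_div, div_eq_iff (by positivity)]
    have hne : (1 + S + T) ^ 2 * c ^ 2 ≠ 0 := by positivity
    have b1 : (1 + S + T) ^ 2 * ((1 - (P.1 * x.1 + P.2 * x.2)) * (1 - (P.1 * y.1 + P.2 * y.2)))
        = S * c * ((1 + S) * c) := by
      rw [← ePx, ← ePy]; ring
    have b2 : (1 + S + T) ^ 2 * ((1 - (Q.1 * x.1 + Q.2 * x.2)) * (1 - (Q.1 * y.1 + Q.2 * y.2)))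
        = (1 + T) * c * (T * c) := by
      rw [← eQx, ← eQy]; ring
    have hN2 : (1 + S + T) ^ 2 ≠ 0 := by positivity
    apply mul_left_cancel₀ hN2
    linear_combination (T * (1 + T)) * b1 - S * (1 + S) * b2
  have hκ0 : 0 ≤ κ := by rw [hκ]; exact Real.sqrt_nonneg _
  have main : ((1 + T) * κ + S) / Real.sqrt (1 - (x.1 * x.1 + x.2 * x.2)) =
      (T * κ + (1 + S)) / Real.sqrt (1 - (y.1 * y.1 + y.2 * y.2)) := by
    apply div_sqrt_eq (by positivity) (by positivity) hxx hyy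
    have hN2 : (1 + S + T) ^ 2 ≠ 0 := by positivity
    apply mul_left_cancel₀ hN2
    linear_combination ((1 + T) * κ + S) ^ 2 * eyy - (T * κ + (1 + S)) ^ 2 * exx +
      (2 * c * ((1 + T) * (1 + S) - T * S)) * hκ2
  have hxv : 1 - (x.1 * v.1 + x.2 * v.2) =
      ((1 + T) * κ + S) * ((1 - (Q.1 * v.1 + Q.2 * v.2)) / (1 + S + T)) := by
    field_simp
    linarith
  have hyv : 1 - (y.1 * v.1 + y.2 * v.2) =
      (T * κ + (1 + S)) * ((1 - (Q.1 * v.1 + Q.2 * v.2)) / (1 + S + T)) := by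
    field_simp
    linarith
  rw [hxv, hyv, mul_div_right_comm, mul_div_right_comm, main]

/-- the normalised polar functional of a point -/
noncomputable def gg (a z : ℝ × ℝ) : ℝ :=
  (1 - ip (f.symm a) (f.symm z)) / Real.sqrt (1 - ip (f.symm a) (f.symm a))

lemma gg_triple (a : ℝ × ℝ) : ∃ g : ℝ × ℝ × ℝ, ∀ z, ev g z = gg f a z := by
  set F1 := f.symm.linear (1, 0)
  set F2 := f.symm.linear (0, 1)
  set r := Real.sqrt (1 - ip (f.symm a) (f.symm a)) with hr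
  refine ⟨(-(ip (f.symm a) F1) / r, -(ip (f.symm a) F2) / r, (1 - ip (f.symm a) (f.symm 0)) / r),
    ?_⟩
  intro z
  unfold gg
  rw [← hr]
  have e : f.symm z = f.symm 0 + (z.1 • F1 + z.2 • F2) := aff_decomp f.symm z
  generalize f.symm a = a'
  rw [e]
  simp only [ev, ip, Prod.fst_add, Prod.snd_add, Prod.smul_fst, Prod.smul_snd, smul_eq_mul]
  ring

lemma open_ell : IsOpen (f '' UD) := by
  have : f '' UD = {x | ip (f.symm x) (f.symm x) < 1} := by
    ext x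
    exact mem_ell f
  rw [this]
  refine isOpen_lt ?_ continuous_const
  have := cont_aff f.symm
  unfold ip
  fun_prop

lemma UD_convex : Convex ℝ UD := by
  intro x hx y hy s t hs ht hst
  have h1 : x.1 ^ 2 + x.2 ^ 2 < 1 := hx
  have h2 : y.1 ^ 2 + y.2 ^ 2 < 1 := hy
  show (s • x + t • y).1 ^ 2 + (s • x + t • y).2 ^ 2 < 1
  simp only [Prod.fst_add, Prod.snd_add, Prod.smul_fst, Prod.smul_snd, smul_eq_mul]
  have ht' : t = 1 - s := by linarith
  subst ht'
  have e : (s * x.1 + (1 - s) * y.1) ^ 2 + (s * x.2 + (1 - s) * y.2) ^ 2 =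
      s * (x.1 ^ 2 + x.2 ^ 2) + (1 - s) * (y.1 ^ 2 + y.2 ^ 2) -
        s * (1 - s) * ((x.1 - y.1) ^ 2 + (x.2 - y.2) ^ 2) := by ring
  rw [e]
  have h3 : 0 ≤ s * (1 - s) * ((x.1 - y.1) ^ 2 + (x.2 - y.2) ^ 2) := by positivity
  rcases hs.lt_or_eq with h | h
  · nlinarith
  · rw [← h]
    nlinarith

lemma convex_ell : Convex ℝ (f '' UD) :=
  UD_convex.affine_image (f : (ℝ × ℝ) →ᵃ[ℝ] (ℝ × ℝ))

lemma UD_bounded : Bornology.IsBounded UD := by
  refine (Metric.isBounded_closedBall (x := (0 : ℝ × ℝ)) (r := 1)).subset ?_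
  intro x hx
  have h1 : x.1 ^ 2 + x.2 ^ 2 < 1 := hx
  rw [mem_closedBall_zero_iff, Prod.norm_def, max_le_iff, Real.norm_eq_abs, Real.norm_eq_abs]
  constructor
  · apply abs_le_of_sq_le_sq _ zero_le_one
    nlinarith [sq_nonneg x.2]
  · apply abs_le_of_sq_le_sq _ zero_le_one
    nlinarith [sq_nonneg x.1]

lemma bounded_ell : Bornology.IsBounded (f '' UD) := by
  have h1 : IsCompact (closure UD) := UD_bounded.isCompact_closure
  exact (h1.image (cont_aff f)).isBounded.subset (image_mono subset_closure)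

/-- points of a reverse perpendicular median line of an ellipse -/
lemma gg_eq_of_mem {a b : ℝ × ℝ} (ha : a ∈ f '' UD) (hb : b ∈ f '' UD) (hab : a ≠ b)
    {ℓ : AffineSubspace ℝ (ℝ × ℝ)} (hR : RR (f '' UD) a b ℓ) {z : ℝ × ℝ} (hz : z ∈ ℓ) :
    gg f a z = gg f b z := by
  have ho := open_ell f
  have hc := convex_ell f
  have hbd := bounded_ell f
  have hO : f 0 ∈ f '' UD := mem_image_of_mem f (by show (0:ℝ) ^ 2 + (0:ℝ) ^ 2 < 1; norm_num)
  obtain ⟨h, k, Sh, Sk, hl, -⟩ := RR_line ho hc hbd hO ha hb hab hR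
  have hw : a - b ≠ 0 := sub_ne_zero.mpr hab
  have hw' : b - a ≠ 0 := sub_ne_zero.mpr hab.symm
  have hS := ext_pos ho hbd ha hw
  have hS' := ext_pos ho hbd hb hw'
  have hP1 := bdry_ell f (ext_mem_closure hbd ha hw) (ext_not_mem ho hbd ha hw)
  have hQ1 := bdry_ell f (ext_mem_closure hbd hb hw') (ext_not_mem ho hbd hb hw')
  have fh := supp_ell f Sh hP1
  have fk := supp_ell f Sk hQ1
  have hz' := hl z hz
  have pha := Sh.pos a ha
  have phb := Sh.pos b hb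
  have pka := Sk.pos a ha
  have pkb := Sk.pos b hb
  have a1 := (mem_ell f).mp ha
  have b1 := (mem_ell f).mp hb
  -- coordinates
  have eP : f.symm (en (f '' UD) a b) = f.symm a +
      ext (f '' UD) a (a - b) • (f.symm a - f.symm b) := aff_line f.symm a b _
  have eQ : f.symm (en (f '' UD) b a) = f.symm b +
      ext (f '' UD) b (b - a) • (f.symm b - f.symm a) := aff_line f.symm b a _
  change ip (f.symm (en (f '' UD) a b)) (f.symm (en (f '' UD) a b)) = 1 at hP1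
  change ip (f.symm (en (f '' UD) b a)) (f.symm (en (f '' UD) b a)) = 1 at hQ1
  have c0 : 0 < 1 - ip (f.symm (en (f '' UD) a b)) (f.symm a) := by
    rw [← fh]; exact pha
  unfold gg
  refine alg_disc hS hS' eP eQ hP1 hQ1 c0 rfl ?_
  rw [← fh, ← fh, ← fh, ← fk, ← fk, ← fk]
  exact hz'

end

end Pool.Agent.HilbertReverse
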