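import Pool.Agent.HilbertReverse.Ell

set_option autoImplicit false

namespace Pool.Agent.HilbertReverse

open Set Filter Topology

lemma kernel_line {r : ℝ × ℝ × ℝ} (hr : ¬ (r.1 = 0 ∧ r.2.1 = 0)) {w y : ℝ × ℝ} (hw : w ≠ 0)
    (h1 : lin r w = 0) (h2 : lin r y = 0) : ∃ c : ℝ, y = c • w := by
  simp only [lin] at h1 h2
  have hcross : w.1 * y.2 - w.2 * y.1 = 0 := by
    have e1 : r.1 * (w.1 * y.2 - w.2 * y.1) = 0 := by linear_combination y.2 * h1 - w.2 * h2
    have e2 : r.2.1 * (w.1 * y.2 - w.2 * y.1) = 0 := by linear_combination w.1 * h2 - y.1 * h1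
    by_contra hne
    exact hr ⟨(mul_eq_zero.mp e1).resolve_right hne, (mul_eq_zero.mp e2).resolve_right hne⟩
  have hpos : 0 < w.1 ^ 2 + w.2 ^ 2 := by
    by_contra hcon
    push Not at hcon
    apply hw
    have e1 : w.1 = 0 := by nlinarith [sq_nonneg w.1, sq_nonneg w.2]
    have e2 : w.2 = 0 := by nlinarith [sq_nonneg w.1, sq_nonneg w.2]
    ext
    · exact e1
    · exact e2
  refine ⟨(y.1 * w.1 + y.2 * w.2) / (w.1 ^ 2 + w.2 ^ 2), ?_⟩
  ext
  · rw [Prod.smul_fst, smul_eq_mul]
    field_simp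
    linear_combination -w.2 * hcross
  · rw [Prod.smul_snd, smul_eq_mul]
    field_simp
    linear_combination w.1 * hcross

lemma line_char {ℓ : AffineSubspace ℝ (ℝ × ℝ)} {m w : ℝ × ℝ} (hm : m ∈ ℓ) (hw : w ≠ 0)
    (hdir : ℓ.direction = Submodule.span ℝ {w}) {r : ℝ × ℝ × ℝ}
    (hr : ¬ (r.1 = 0 ∧ r.2.1 = 0)) (hz : ∀ z ∈ ℓ, ev r z = 0) :
    (∀ p, ev r p = 0 → p ∈ ℓ) ∧
      ∀ w0 : ℝ × ℝ, w0 ≠ 0 → lin r w0 = 0 → ℓ.direction = Submodule.span ℝ {w0} := by
  have hwd : w ∈ ℓ.direction := by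
    rw [hdir]
    exact Submodule.mem_span_singleton_self w
  have hmw : m + w ∈ ℓ := by
    have := AffineSubspace.vadd_mem_of_mem_direction hwd hm
    rwa [vadd_eq_add, add_comm] at this
  have hlin : lin r w = 0 := by
    have h1 := hz _ hmw
    have h2 := hz _ hm
    have h3 : ev r (m + w) = ev r m + lin r w := by
      simp only [ev, lin, Prod.fst_add, Prod.snd_add]
      ring
    rw [h3, h2, zero_add] at h1
    exact h1
  constructor
  · intro p hp
    have h4 : lin r (p - m) = 0 := by rw [lin_sub, hp, hz _ hm, sub_zero]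
    obtain ⟨c, hc⟩ := kernel_line hr hw hlin h4
    have h5 : c • w ∈ ℓ.direction := ℓ.direction.smul_mem c hwd
    have := AffineSubspace.vadd_mem_of_mem_direction h5 hm
    rw [← hc, vadd_eq_add, sub_add_cancel] at this
    exact this
  · intro w0 hw0 hl0
    rw [hdir]
    obtain ⟨c, hc⟩ := kernel_line hr hw hlin hl0
    have hc0 : c ≠ 0 := by
      rintro rfl
      rw [zero_smul] at hc
      exact hw0 hc
    rw [hc]
    exact (Submodule.span_singleton_smul_eq (IsUnit.mk0 c hc0) w).symm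

section

variable (f : (ℝ × ℝ) ≃ᵃ[ℝ] (ℝ × ℝ))

/-- the functional of two points is not constant on the line of zeros -/
lemma gg_nonconst {a b : ℝ × ℝ} (ha : a ∈ f '' UD) (hb : b ∈ f '' UD) (hab : a ≠ b)
    {ga gb : ℝ × ℝ × ℝ} (hga : ∀ z, ev ga z = gg f a z) (hgb : ∀ z, ev gb z = gg f b z)
    {m : ℝ × ℝ} (hm : gg f a m = gg f b m) :
    ¬ ((ga - gb).1 = 0 ∧ (ga - gb).2.1 = 0) := by
  rintro ⟨h1, h2⟩
  have hev : ∀ z, ev (ga - gb) z = gg f a z - gg f b z := by
    intro z
    rw [← hga, ← hgb]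
    simp only [ev, Prod.fst_sub, Prod.snd_sub]
    ring
  have hconst : ∀ z, ev (ga - gb) z = ev (ga - gb) m := by
    intro z
    unfold ev
    rw [h1, h2]
    ring
  have heq : ∀ z, gg f a z = gg f b z := by
    intro z
    have := hconst z
    rw [hev, hev, hm, sub_self] at this
    linarith
  have a1 := (mem_ell f).mp ha
  have b1 := (mem_ell f).mp hb
  have e0 := heq (f 0)
  have ea := heq a
  have eb := heq b
  unfold gg at e0 ea eb
  rw [f.symm_apply_apply] at e0
  have hne : f.symm a ≠ f.symm b := fun h => hab (f.symm.injective h)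
  generalize f.symm a = x at *
  generalize f.symm b = y at *
  have hA : 0 < Real.sqrt (1 - ip x x) := Real.sqrt_pos.mpr (by linarith)
  have hB : 0 < Real.sqrt (1 - ip y y) := Real.sqrt_pos.mpr (by linarith)
  have z0 : ∀ v, ip v (0 : ℝ × ℝ) = 0 := by
    intro v
    simp [ip]
  rw [z0, z0, div_eq_div_iff hA.ne' hB.ne'] at e0
  have hAB : Real.sqrt (1 - ip x x) = Real.sqrt (1 - ip y y) := by linarith
  rw [hAB] at ea eb
  have e1 := (div_left_inj' hB.ne').mp ea
  have e2 := (div_left_inj' hB.ne').mp eb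
  unfold ip at e1 e2
  have h3 : (x.1 - y.1) ^ 2 + (x.2 - y.2) ^ 2 = 0 := by nlinarith
  apply hne
  have q1 := sq_nonneg (x.1 - y.1)
  have q2 := sq_nonneg (x.2 - y.2)
  have z1 : (x.1 - y.1) ^ 2 = 0 := by linarith
  have z2 : (x.2 - y.2) ^ 2 = 0 := by linarith
  ext
  · have := pow_eq_zero_iff two_ne_zero |>.mp z1
    linarith
  · have := pow_eq_zero_iff two_ne_zero |>.mp z2
    linarith

/-- data of a reverse perpendicular median line of an ellipse -/
lemma RR_data {a b : ℝ × ℝ} (ha : a ∈ f '' UD) (hb : b ∈ f '' UD) (hab : a ≠ b)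
    {ga gb : ℝ × ℝ × ℝ} (hga : ∀ z, ev ga z = gg f a z) (hgb : ∀ z, ev gb z = gg f b z)
    {ℓ : AffineSubspace ℝ (ℝ × ℝ)} (hR : RR (f '' UD) a b ℓ) :
    (∀ p, ev (ga - gb) p = 0 → p ∈ ℓ) ∧
      ∀ w0 : ℝ × ℝ, w0 ≠ 0 → lin (ga - gb) w0 = 0 → ℓ.direction = Submodule.span ℝ {w0} := by
  have hO : f 0 ∈ f '' UD := mem_image_of_mem f (by show (0:ℝ) ^ 2 + (0:ℝ) ^ 2 < 1; norm_num)
  obtain ⟨_, _, _, _, _, w, hw, hdir, _⟩ :=
    RR_line (open_ell f) (convex_ell f) (bounded_ell f) hO ha hb hab hR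
  have hR' := hR
  obtain ⟨_, m, _, _, hm, _⟩ := hR'
  have hzero : ∀ z ∈ ℓ, ev (ga - gb) z = 0 := by
    intro z hz
    have := gg_eq_of_mem f ha hb hab hR hz
    have e : ev (ga - gb) z = ev ga z - ev gb z := by
      simp only [ev, Prod.fst_sub, Prod.snd_sub]
      ring
    rw [e, hga, hgb, this, sub_self]
  exact line_char hm hw hdir
    (gg_nonconst f ha hb hab hga hgb (gg_eq_of_mem f ha hb hab hR hm)) hzero

/-- in an ellipse all reverse perpendicular median lines of three points are in a pencil -/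
lemma pencil_ell {a b c : ℝ × ℝ} (ha : a ∈ f '' UD) (hb : b ∈ f '' UD) (hc : c ∈ f '' UD)
    (hab : a ≠ b) (hbc : b ≠ c) (hca : c ≠ a) :
    (∃ p : ℝ × ℝ, ∀ ℓ : AffineSubspace ℝ (ℝ × ℝ),
        (RR (f '' UD) a b ℓ ∨ RR (f '' UD) b c ℓ ∨ RR (f '' UD) c a ℓ) → p ∈ ℓ) ∨
      (∃ V : Submodule ℝ (ℝ × ℝ), ∀ ℓ : AffineSubspace ℝ (ℝ × ℝ),
        (RR (f '' UD) a b ℓ ∨ RR (f '' UD) b c ℓ ∨ RR (f '' UD) c a ℓ) → ℓ.direction = V) := by
  obtain ⟨ga, hga⟩ := gg_triple f a
  obtain ⟨gb, hgb⟩ := gg_triple f b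
  obtain ⟨gc, hgc⟩ := gg_triple f c
  have evd : ∀ (g h : ℝ × ℝ × ℝ) (z : ℝ × ℝ), ev (g - h) z = ev g z - ev h z := by
    intro g h z
    simp only [ev, Prod.fst_sub, Prod.snd_sub]
    ring
  have lind : ∀ (g h : ℝ × ℝ × ℝ) (z : ℝ × ℝ), lin (g - h) z = lin g z - lin h z := by
    intro g h z
    simp only [lin, Prod.fst_sub, Prod.snd_sub]
    ring
  by_cases hδ : (ga - gb).1 * (gb - gc).2.1 - (ga - gb).2.1 * (gb - gc).1 = 0
  · -- parallel case
    by_cases hnc : (ga - gb).1 = 0 ∧ (ga - gb).2.1 = 0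
    · -- then there is no line for a b; use b c
      have noab : ∀ ℓ, ¬ RR (f '' UD) a b ℓ := by
        intro ℓ hR
        have hR' := hR
        obtain ⟨_, m, _, _, hm, _⟩ := hR'
        exact gg_nonconst f ha hb hab hga hgb (gg_eq_of_mem f ha hb hab hR hm) hnc
      by_cases hnc2 : (gb - gc).1 = 0 ∧ (gb - gc).2.1 = 0
      · have nobc : ∀ ℓ, ¬ RR (f '' UD) b c ℓ := by
          intro ℓ hR
          have hR' := hR
          obtain ⟨_, m, _, _, hm, _⟩ := hR'
          exact gg_nonconst f hb hc hbc hgb hgc (gg_eq_of_mem f hb hc hbc hR hm) hnc2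
        have noca : ∀ ℓ, ¬ RR (f '' UD) c a ℓ := by
          intro ℓ hR
          have hR' := hR
          obtain ⟨_, m, _, _, hm, _⟩ := hR'
          refine gg_nonconst f hc ha hca hgc hga (gg_eq_of_mem f hc ha hca hR hm) ⟨?_, ?_⟩
          · have e1 := hnc.1
            have e2 := hnc2.1
            simp only [Prod.fst_sub] at e1 e2 ⊢
            linarith
          · have e1 := hnc.2
            have e2 := hnc2.2
            simp only [Prod.fst_sub, Prod.snd_sub] at e1 e2 ⊢
            linarith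
        left
        refine ⟨0, fun ℓ hℓ => ?_⟩
        rcases hℓ with h | h | h
        · exact absurd h (noab ℓ)
        · exact absurd h (nobc ℓ)
        · exact absurd h (noca ℓ)
      · right
        set w0 : ℝ × ℝ := (-(gb - gc).2.1, (gb - gc).1) with hw0
        have hw0ne : w0 ≠ 0 := by
          intro h
          apply hnc2
          have e1 := congrArg Prod.fst h
          have e2 := congrArg Prod.snd h
          simp only [hw0, Prod.fst_zero, Prod.snd_zero] at e1 e2
          exact ⟨e2, by linarith⟩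
        have l2 : lin (gb - gc) w0 = 0 := by
          simp only [lin, hw0]
          ring
        have l3 : lin (gc - ga) w0 = 0 := by
          have l1 : lin (ga - gb) w0 = 0 := by
            unfold lin
            rw [hnc.1, hnc.2]
            ring
          rw [lind] at l1 l2 ⊢
          linarith
        refine ⟨Submodule.span ℝ {w0}, fun ℓ hℓ => ?_⟩
        rcases hℓ with h | h | h
        · exact absurd h (noab ℓ)
        · exact (RR_data f hb hc hbc hgb hgc h).2 w0 hw0ne l2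
        · exact (RR_data f hc ha hca hgc hga h).2 w0 hw0ne l3
    · right
      set w0 : ℝ × ℝ := (-(ga - gb).2.1, (ga - gb).1) with hw0
      have hw0ne : w0 ≠ 0 := by
        intro h
        apply hnc
        have e1 := congrArg Prod.fst h
        have e2 := congrArg Prod.snd h
        simp only [hw0, Prod.fst_zero, Prod.snd_zero] at e1 e2
        exact ⟨e2, by linarith⟩
      have l1 : lin (ga - gb) w0 = 0 := by
        simp only [lin, hw0]
        ring
      have l2 : lin (gb - gc) w0 = 0 := by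
        simp only [lin, hw0]
        linarith
      have l3 : lin (gc - ga) w0 = 0 := by
        rw [lind] at l1 l2 ⊢
        linarith
      refine ⟨Submodule.span ℝ {w0}, fun ℓ hℓ => ?_⟩
      rcases hℓ with h | h | h
      · exact (RR_data f ha hb hab hga hgb h).2 w0 hw0ne l1
      · exact (RR_data f hb hc hbc hgb hgc h).2 w0 hw0ne l2
      · exact (RR_data f hc ha hca hgc hga h).2 w0 hw0ne l3
  · left
    set δ := (ga - gb).1 * (gb - gc).2.1 - (ga - gb).2.1 * (gb - gc).1 with hδdef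
    set p : ℝ × ℝ := (((ga - gb).2.1 * (gb - gc).2.2 - (gb - gc).2.1 * (ga - gb).2.2) / δ,
      ((ga - gb).2.2 * (gb - gc).1 - (gb - gc).2.2 * (ga - gb).1) / δ) with hp
    have p1 : ev (ga - gb) p = 0 := by
      have e : ev (ga - gb) p * δ = 0 := by
        simp only [ev, hp]
        rw [add_mul, add_mul, mul_assoc, mul_assoc, div_mul_cancel₀ _ hδ, div_mul_cancel₀ _ hδ,
          hδdef]
        ring
      exact (mul_eq_zero.mp e).resolve_right hδ
    have p2 : ev (gb - gc) p = 0 := by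
      have e : ev (gb - gc) p * δ = 0 := by
        simp only [ev, hp]
        rw [add_mul, add_mul, mul_assoc, mul_assoc, div_mul_cancel₀ _ hδ, div_mul_cancel₀ _ hδ,
          hδdef]
        ring
      exact (mul_eq_zero.mp e).resolve_right hδ
    have p3 : ev (gc - ga) p = 0 := by
      rw [evd] at p1 p2 ⊢
      linarith
    refine ⟨p, fun ℓ hℓ => ?_⟩
    rcases hℓ with h | h | h
    · exact (RR_data f ha hb hab hga hgb h).1 p p1
    · exact (RR_data f hb hc hbc hgb hgc h).1 p p2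
    · exact (RR_data f hc ha hca hgc hga h).1 p p3

end

end Pool.Agent.HilbertReverse
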