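import Pool.Agent.HilbertReverse.Line

set_option autoImplicit false

namespace Pool.Agent.HilbertReverse

open Set Filter Topology

/-- a smooth boundary point `U` of `Ω` with its normalised support functional `u` -/
structure Good (Ω : Set (ℝ × ℝ)) (O U : ℝ × ℝ) (u : ℝ × ℝ × ℝ) : Prop
    extends Supp Ω O u U where
  mem : U ∈ closure Ω
  smooth : ∀ w, 0 < lin u w → ∀ᶠ ε in 𝓝[>] (0 : ℝ), U + ε • w ∈ Ω

lemma Good.not_mem {Ω : Set (ℝ × ℝ)} {O U : ℝ × ℝ} {u : ℝ × ℝ × ℝ} (hu : Good Ω O U u) :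
    U ∉ Ω := fun h => (hu.pos U h).ne' hu.zero

lemma Good.unique {Ω : Set (ℝ × ℝ)} {O U : ℝ × ℝ} {u h : ℝ × ℝ × ℝ} (hu : Good Ω O U u)
    (hh : ∀ x ∈ Ω, 0 ≤ ev h x) (h1 : ev h O = 1) (h0 : ev h U = 0) : h = u := by
  have key : ∀ w, 0 < lin u w → 0 ≤ lin h w := by
    intro w hw
    have := (hu.smooth w hw).and self_mem_nhdsWithin
    obtain ⟨ε, hε, hε0⟩ := this.exists
    have h2 := hh _ hε
    rw [ev_add_smul, h0, zero_add] at h2
    exact nonneg_of_mul_nonneg_right h2 hε0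
  have hne : 0 < u.1 ^ 2 + u.2.1 ^ 2 := by
    by_contra hcon
    push Not at hcon
    have e1 : u.1 = 0 := by nlinarith [sq_nonneg u.1, sq_nonneg u.2.1]
    have e2 : u.2.1 = 0 := by nlinarith [sq_nonneg u.1, sq_nonneg u.2.1]
    have a1 := hu.norm
    have a2 := hu.zero
    simp only [ev, e1, e2] at a1 a2
    linarith
  have hcross : h.1 * u.2.1 = h.2.1 * u.1 := by
    by_contra hcon
    -- choose t making the linear part negative
    set c := h.2.1 * u.1 - h.1 * u.2.1 with hc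
    have hc0 : c ≠ 0 := fun h => hcon (by linarith)
    set t := -((h.1 * u.1 + h.2.1 * u.2.1) + 1) / c with ht
    have h3 := key (u.1 - t * u.2.1, u.2.1 + t * u.1) (by
      simp only [lin]
      nlinarith)
    have h4 : lin h (u.1 - t * u.2.1, u.2.1 + t * u.1) =
        (h.1 * u.1 + h.2.1 * u.2.1) + t * c := by
      simp only [lin, hc]
      ring
    rw [h4, ht, div_mul_cancel₀ _ hc0] at h3
    linarith
  -- h = λ u on linear parts
  have hOU : lin u (O - U) = 1 := by rw [lin_sub, hu.norm, hu.zero, sub_zero]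
  have hOU' : lin h (O - U) = 1 := by rw [lin_sub, h1, h0, sub_zero]
  have e1 : h.1 = u.1 := by
    have : h.1 * lin u (O - U) = u.1 * lin h (O - U) := by
      simp only [lin]
      linear_combination (O - U).2 * hcross
    rw [hOU, hOU'] at this
    linarith
  have e2 : h.2.1 = u.2.1 := by
    have : h.2.1 * lin u (O - U) = u.2.1 * lin h (O - U) := by
      simp only [lin]
      linear_combination -(O - U).1 * hcross
    rw [hOU, hOU'] at this
    linarith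
  have e3 : h.2.2 = u.2.2 := by
    have a1 := hu.zero
    have a2 := h0
    simp only [ev, e1, e2] at a1 a2
    linarith
  ext
  · exact e1
  · exact e2
  · exact e3

section

variable {Ω : Set (ℝ × ℝ)} (ho : IsOpen Ω) (hc : Convex ℝ Ω) (hb : Bornology.IsBounded Ω)

include ho in
lemma compact_supp {O : ℝ × ℝ} (hO : O ∈ Ω) :
    IsCompact {h : ℝ × ℝ × ℝ | (∀ x ∈ Ω, 0 ≤ ev h x) ∧ ev h O = 1} := by
  apply Metric.isCompact_of_isClosed_isBounded
  · have h1 : IsClosed {h : ℝ × ℝ × ℝ | ∀ x ∈ Ω, 0 ≤ ev h x} := by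
      have : {h : ℝ × ℝ × ℝ | ∀ x ∈ Ω, 0 ≤ ev h x} = ⋂ x ∈ Ω, {h | 0 ≤ ev h x} := by
        ext h
        simp
      rw [this]
      refine isClosed_biInter fun x _ => isClosed_le continuous_const ?_
      unfold ev
      fun_prop
    have h2 : IsClosed {h : ℝ × ℝ × ℝ | ev h O = 1} := by
      refine isClosed_eq ?_ continuous_const
      unfold ev
      fun_prop
    exact h1.inter h2
  · obtain ⟨r, hr, hball⟩ := Metric.isOpen_iff.mp ho O hO
    set ρ := r / 2 with hρ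
    have hρ0 : 0 < ρ := by positivity
    have hmem : ∀ w : ℝ × ℝ, ‖w‖ ≤ 1 → O + ρ • w ∈ Ω := by
      intro w hw
      apply hball
      rw [Metric.mem_ball, dist_eq_norm, add_sub_cancel_left, norm_smul, Real.norm_eq_abs,
        abs_of_pos hρ0]
      nlinarith [norm_nonneg w]
    have hb1 : ∀ h : ℝ × ℝ × ℝ, (∀ x ∈ Ω, 0 ≤ ev h x) ∧ ev h O = 1 → ∀ w : ℝ × ℝ, ‖w‖ ≤ 1 →
        -(1 / ρ) ≤ lin h w := by
      intro h hh w hw
      have := hh.1 _ (hmem w hw)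
      rw [ev_add_smul, hh.2] at this
      have h2 : -1 ≤ lin h w * ρ := by linarith
      rw [show -(1 / ρ) = (-1) / ρ by ring, div_le_iff₀ hρ0]
      exact h2
    have n1 : ‖((1 : ℝ), (0 : ℝ))‖ ≤ 1 := by simp [Prod.norm_def]
    have n2 : ‖((-1 : ℝ), (0 : ℝ))‖ ≤ 1 := by simp [Prod.norm_def]
    have n3 : ‖((0 : ℝ), (1 : ℝ))‖ ≤ 1 := by simp [Prod.norm_def]
    have n4 : ‖((0 : ℝ), (-1 : ℝ))‖ ≤ 1 := by simp [Prod.norm_def]
    have hsub : {h : ℝ × ℝ × ℝ | (∀ x ∈ Ω, 0 ≤ ev h x) ∧ ev h O = 1} ⊆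
        Icc (-(1/ρ)) (1/ρ) ×ˢ (Icc (-(1/ρ)) (1/ρ) ×ˢ
          Icc (1 - (1/ρ) * |O.1| - (1/ρ) * |O.2|) (1 + (1/ρ) * |O.1| + (1/ρ) * |O.2|)) := by
      intro h hh
      have a1 := hb1 h hh _ n1
      have a2 := hb1 h hh _ n2
      have a3 := hb1 h hh _ n3
      have a4 := hb1 h hh _ n4
      simp only [lin] at a1 a2 a3 a4
      have b1 : |h.1| ≤ 1 / ρ := abs_le.mpr ⟨by linarith, by linarith⟩
      have b2 : |h.2.1| ≤ 1 / ρ := abs_le.mpr ⟨by linarith, by linarith⟩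
      have b3 : |h.1 * O.1| ≤ (1/ρ) * |O.1| := by
        rw [abs_mul]
        exact mul_le_mul_of_nonneg_right b1 (abs_nonneg _)
      have b4 : |h.2.1 * O.2| ≤ (1/ρ) * |O.2| := by
        rw [abs_mul]
        exact mul_le_mul_of_nonneg_right b2 (abs_nonneg _)
      have c3 := abs_le.mp b3
      have c4 := abs_le.mp b4
      have e := hh.2
      simp only [ev] at e
      refine ⟨abs_le.mp b1, abs_le.mp b2, ?_, ?_⟩
      · linarith [c3.1, c3.2, c4.1, c4.2]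
      · linarith [c3.1, c3.2, c4.1, c4.2]
    exact (Metric.isBounded_Icc _ _ |>.prod ((Metric.isBounded_Icc _ _).prod
      (Metric.isBounded_Icc _ _))).subset hsub

include ho hc hb in
/-- the size of the end segment -/
lemma tendsto_ext {O U V : ℝ × ℝ} {u : ℝ × ℝ × ℝ} (hO : O ∈ Ω) (hu : Good Ω O U u)
    (hV : V ∈ closure Ω) (huV : 0 < ev u V) :
    Tendsto (fun ε : ℝ => ext Ω (U + ε • (O - U)) ((U + ε • (O - U)) - (V + ε • (O - V)))
      * (1 - ε) / ε) (𝓝[>] 0) (𝓝 (1 / ev u V)) := by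
  have hlinO : lin u (O - U) = 1 := by rw [lin_sub, hu.norm, hu.zero, sub_zero]
  have hAB : ∀ ε : ℝ, (U + ε • (O - U)) - (V + ε • (O - V)) = (1 - ε) • (U - V) := by
    intro ε
    ext <;> simp <;> ring
  have hUV : U ≠ V := by
    rintro rfl
    rw [hu.zero] at huV
    exact lt_irrefl _ huV
  have hev1 : ∀ᶠ ε in 𝓝[>] (0:ℝ), ε < 1 ∧ 0 < ε := by
    have h1 : ∀ᶠ ε in 𝓝[>] (0:ℝ), ε < 1 :=
      (eventually_lt_nhds (zero_lt_one)).filter_mono nhdsWithin_le_nhds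
    exact h1.and self_mem_nhdsWithin
  have hA : ∀ ε : ℝ, 0 < ε → ε < 1 → U + ε • (O - U) ∈ Ω := by
    intro ε h0 h1
    have := mem_of_lt ho hc hO hu.mem (t := 1 - ε) (by linarith) (by linarith)
    have e : O + (1 - ε) • (U - O) = U + ε • (O - U) := by
      ext <;> simp <;> ring
    rwa [e] at this
  rw [tendsto_order]
  constructor
  · intro c hc1
    -- lower bound
    obtain ⟨δ, hδ0, hδ1, hδ⟩ : ∃ δ : ℝ, 0 < δ ∧ δ < 1 ∧ c < (1 - δ) / ev u V := by
      have h1 : c * ev u V < 1 := by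
        rwa [lt_div_iff₀ huV] at hc1
      refine ⟨min (1/2) ((1 - c * ev u V) / 2), by apply lt_min; norm_num; linarith, ?_, ?_⟩
      · exact lt_of_le_of_lt (min_le_left _ _) (by norm_num)
      · rw [lt_div_iff₀ huV]
        have := min_le_right (1/2 : ℝ) ((1 - c * ev u V) / 2)
        linarith
    have hw : 0 < lin u ((O - U) - ((1 - δ) / ev u V) • (V - U)) := by
      have : lin u ((O - U) - ((1 - δ) / ev u V) • (V - U)) =
          lin u (O - U) - ((1 - δ) / ev u V) * (ev u V - ev u U) := by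
        rw [← lin_sub]
        simp only [lin, Prod.fst_sub, Prod.snd_sub, Prod.smul_fst, Prod.smul_snd, smul_eq_mul]
        ring
      rw [this, hlinO, hu.zero, sub_zero, div_mul_cancel₀ _ huV.ne']
      linarith
    filter_upwards [hu.smooth _ hw, hev1] with ε hε hε1
    obtain ⟨hε1, hε0⟩ := hε1
    rw [hAB]
    have h1ε : 0 < 1 - ε := by linarith
    have hne : (1 - ε) • (U - V) ≠ 0 := smul_ne_zero h1ε.ne' (sub_ne_zero.mpr hUV)
    have hle : (1 - δ) * ε / (ev u V * (1 - ε)) ≤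
        ext Ω (U + ε • (O - U)) ((1 - ε) • (U - V)) := by
      apply le_csSup (bddAbove_ray hb hne)
      refine ⟨div_nonneg (mul_nonneg (by linarith) hε0.le) (by positivity), ?_⟩
      have e : U + ε • (O - U) + ((1 - δ) * ε / (ev u V * (1 - ε))) • (1 - ε) • (U - V) =
          U + ε • ((O - U) - ((1 - δ) / ev u V) • (V - U)) := by
        have e2 : (1 - δ) * ε / (ev u V * (1 - ε)) * (1 - ε) = ε * ((1 - δ) / ev u V) := by
          field_simp
        rw [smul_smul, e2]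
        ext <;> simp <;> ring
      rwa [e]
    refine lt_of_lt_of_le hδ ?_
    rw [le_div_iff₀ hε0]
    calc (1 - δ) / ev u V * ε = (1 - δ) * ε / (ev u V * (1 - ε)) * (1 - ε) := by field_simp
      _ ≤ _ := mul_le_mul_of_nonneg_right hle h1ε.le
  · intro c hc1
    filter_upwards [hev1] with ε hε1
    obtain ⟨hε1, hε0⟩ := hε1
    refine lt_of_le_of_lt ?_ hc1
    rw [hAB]
    have h1ε : 0 < 1 - ε := by linarith
    have hne : (1 - ε) • (U - V) ≠ 0 := smul_ne_zero h1ε.ne' (sub_ne_zero.mpr hUV)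
    have h1 := ev_nonneg_closure hu.pos (ext_mem_closure hb (hA ε hε0 hε1) hne)
    have e1 : lin u ((1 - ε) • (U - V)) = (1 - ε) * (ev u U - ev u V) := by
      rw [← lin_sub]
      simp only [lin, Prod.fst_sub, Prod.snd_sub, Prod.smul_fst, Prod.smul_snd, smul_eq_mul]
      ring
    rw [ev_add_smul, ev_add_smul, hlinO, hu.zero, e1, hu.zero] at h1
    rw [div_le_div_iff₀ hε0 huV]
    nlinarith

include ho hc hb in
/-- the end points converge to `U` -/
lemma tendsto_en {O U V : ℝ × ℝ} {u : ℝ × ℝ × ℝ} (hO : O ∈ Ω) (hu : Good Ω O U u)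
    (hV : V ∈ closure Ω) (huV : 0 < ev u V) :
    Tendsto (fun ε : ℝ => en Ω (U + ε • (O - U)) (V + ε • (O - V))) (𝓝[>] 0) (𝓝 U) := by
  have h1 := tendsto_ext ho hc hb hO hu hV huV
  have hid : Tendsto (fun ε : ℝ => ε) (𝓝[>] 0) (𝓝 0) := tendsto_id.mono_left nhdsWithin_le_nhds
  have h2 : Tendsto (fun ε : ℝ => (ext Ω (U + ε • (O - U)) ((U + ε • (O - U)) -
      (V + ε • (O - V))) * (1 - ε) / ε) * ε / (1 - ε)) (𝓝[>] 0) (𝓝 (1 / ev u V * 0 / (1 - 0))) := by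
    apply Tendsto.div (h1.mul hid) (tendsto_const_nhds.sub hid)
    norm_num
  have hev1 : ∀ᶠ ε in 𝓝[>] (0:ℝ), ε < 1 ∧ 0 < ε := by
    have h1 : ∀ᶠ ε in 𝓝[>] (0:ℝ), ε < 1 :=
      (eventually_lt_nhds (zero_lt_one)).filter_mono nhdsWithin_le_nhds
    exact h1.and self_mem_nhdsWithin
  have h3 : Tendsto (fun ε : ℝ => ext Ω (U + ε • (O - U)) ((U + ε • (O - U)) -
      (V + ε • (O - V)))) (𝓝[>] 0) (𝓝 0) := by
    have : (1 / ev u V * 0 / (1 - 0) : ℝ) = 0 := by simp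
    rw [this] at h2
    refine h2.congr' ?_
    filter_upwards [hev1] with ε hε
    obtain ⟨hε1, hε0⟩ := hε
    have h1ε : 1 - ε ≠ 0 := by linarith
    field_simp
  have h4 : Tendsto (fun ε : ℝ => en Ω (U + ε • (O - U)) (V + ε • (O - V))) (𝓝[>] 0)
      (𝓝 ((U + (0:ℝ) • (O - U)) + (0:ℝ) • ((U + (0:ℝ) • (O - U)) - (V + (0:ℝ) • (O - V))))) := by
    unfold en
    have ha : Tendsto (fun ε : ℝ => U + ε • (O - U)) (𝓝[>] 0) (𝓝 (U + (0:ℝ) • (O - U))) :=
      tendsto_const_nhds.add (hid.smul tendsto_const_nhds)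
    have hb' : Tendsto (fun ε : ℝ => V + ε • (O - V)) (𝓝[>] 0) (𝓝 (V + (0:ℝ) • (O - V))) :=
      tendsto_const_nhds.add (hid.smul tendsto_const_nhds)
    exact ha.add (h3.smul (ha.sub hb'))
  simpa using h4

lemma tendsto_ev {ι : Type*} {l : Filter ι} {H : ι → ℝ × ℝ × ℝ} {X : ι → ℝ × ℝ}
    {h : ℝ × ℝ × ℝ} {x : ℝ × ℝ} (hH : Tendsto H l (𝓝 h)) (hX : Tendsto X l (𝓝 x)) :
    Tendsto (fun i => ev (H i) (X i)) l (𝓝 (ev h x)) := by
  have := (continuous_ev2.tendsto (h, x)).comp (hH.prodMk_nhds hX)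
  exact this

include ho hc hb in
lemma tendsto_supp {O U V : ℝ × ℝ} {u : ℝ × ℝ × ℝ} (hO : O ∈ Ω) (hu : Good Ω O U u)
    (hV : V ∈ closure Ω) (huV : 0 < ev u V) {H : ℝ → ℝ × ℝ × ℝ}
    (hH : ∀ᶠ ε in 𝓝[>] (0:ℝ), Supp Ω O (H ε) (en Ω (U + ε • (O - U)) (V + ε • (O - V)))) :
    Tendsto H (𝓝[>] 0) (𝓝 u) := by
  refine (compact_supp ho hO).tendsto_nhds_of_unique_mapClusterPt ?_ ?_
  · filter_upwards [hH] with ε hε
    exact ⟨fun x hx => (hε.pos x hx).le, hε.norm⟩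
  · intro h hh hcl
    rw [mapClusterPt_iff_ultrafilter] at hcl
    obtain ⟨F, hF, hlim⟩ := hcl
    apply hu.unique hh.1 hh.2
    have h1 := tendsto_ev hlim ((tendsto_en ho hc hb hO hu hV huV).mono_left hF)
    have h2 : Tendsto (fun ε : ℝ => ev (H ε) (en Ω (U + ε • (O - U)) (V + ε • (O - V)))) F
        (𝓝 0) := by
      refine tendsto_const_nhds.congr' ?_
      filter_upwards [hF hH] with ε hε
      exact hε.zero.symm
    exact tendsto_nhds_unique h1 h2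

include ho hc hb in
lemma tendsto_ratio {O U V : ℝ × ℝ} {u : ℝ × ℝ × ℝ} (hO : O ∈ Ω) (hu : Good Ω O U u)
    (hV : V ∈ closure Ω) (huV : 0 < ev u V) {H : ℝ → ℝ × ℝ × ℝ}
    (hH : ∀ᶠ ε in 𝓝[>] (0:ℝ), Supp Ω O (H ε) (en Ω (U + ε • (O - U)) (V + ε • (O - V)))) :
    Tendsto (fun ε => ev (H ε) (U + ε • (O - U)) / ε) (𝓝[>] 0) (𝓝 1) ∧
    Tendsto (fun ε => ev (H ε) (V + ε • (O - V))) (𝓝[>] 0) (𝓝 (ev u V)) := by
  have hid : Tendsto (fun ε : ℝ => ε) (𝓝[>] 0) (𝓝 0) := tendsto_id.mono_left nhdsWithin_le_nhds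
  have ha : Tendsto (fun ε : ℝ => U + ε • (O - U)) (𝓝[>] 0) (𝓝 U) := by
    have : Tendsto (fun ε : ℝ => U + ε • (O - U)) (𝓝[>] 0) (𝓝 (U + (0:ℝ) • (O - U))) :=
      tendsto_const_nhds.add (hid.smul tendsto_const_nhds)
    simpa using this
  have hb' : Tendsto (fun ε : ℝ => V + ε • (O - V)) (𝓝[>] 0) (𝓝 V) := by
    have : Tendsto (fun ε : ℝ => V + ε • (O - V)) (𝓝[>] 0) (𝓝 (V + (0:ℝ) • (O - V))) :=
      tendsto_const_nhds.add (hid.smul tendsto_const_nhds)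
    simpa using this
  have hHu := tendsto_supp ho hc hb hO hu hV huV hH
  have hA := tendsto_ev hHu ha
  have hB := tendsto_ev hHu hb'
  refine ⟨?_, hB⟩
  have h1 := tendsto_ext ho hc hb hO hu hV huV
  have h2 : Tendsto (fun ε : ℝ => (ext Ω (U + ε • (O - U)) ((U + ε • (O - U)) -
      (V + ε • (O - V))) * (1 - ε) / ε) / (1 - ε) *
      (ev (H ε) (V + ε • (O - V)) - ev (H ε) (U + ε • (O - U)))) (𝓝[>] 0)
      (𝓝 (1 / ev u V / (1 - 0) * (ev u V - ev u U))) := by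
    apply Tendsto.mul (Tendsto.div h1 (tendsto_const_nhds.sub hid) (by norm_num)) (hB.sub hA)
  have h3 : (1 / ev u V / (1 - 0) * (ev u V - ev u U)) = 1 := by
    rw [hu.zero]
    field_simp
    ring
  rw [h3] at h2
  refine h2.congr' ?_
  have hev1 : ∀ᶠ ε in 𝓝[>] (0:ℝ), ε < 1 ∧ 0 < ε := by
    have h1 : ∀ᶠ ε in 𝓝[>] (0:ℝ), ε < 1 :=
      (eventually_lt_nhds (zero_lt_one)).filter_mono nhdsWithin_le_nhds
    exact h1.and self_mem_nhdsWithin
  filter_upwards [hH, hev1] with ε hε hε1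
  obtain ⟨hε1, hε0⟩ := hε1
  have hz := hε.zero
  unfold en at hz
  rw [ev_add_smul (H ε) (U + ε • (O - U)), lin_sub] at hz
  have h1ε : 1 - ε ≠ 0 := by linarith
  have : ev (H ε) (U + ε • (O - U)) = ext Ω (U + ε • (O - U)) ((U + ε • (O - U)) -
      (V + ε • (O - V))) * (ev (H ε) (V + ε • (O - V)) - ev (H ε) (U + ε • (O - U))) := by
    linarith
  calc _ = (ext Ω (U + ε • (O - U)) ((U + ε • (O - U)) - (V + ε • (O - V))) *
        (ev (H ε) (V + ε • (O - V)) - ev (H ε) (U + ε • (O - U)))) / ε := by field_simp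
    _ = _ := by rw [← this]

end

end Pool.Agent.HilbertReverse
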