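import Pool.Agent.HilbertReverse.Dist

set_option autoImplicit false

namespace Pool.Agent.HilbertReverse

open Set Filter Topology

section

variable {Ω : Set (ℝ × ℝ)} (ho : IsOpen Ω) (hc : Convex ℝ Ω) (hb : Bornology.IsBounded Ω)

/-- the end of the line `a b` beyond `a` -/
noncomputable def en (Ω : Set (ℝ × ℝ)) (a b : ℝ × ℝ) : ℝ × ℝ := a + ext Ω a (a - b) • (a - b)

include ho hc hb in
/-- existence of the reverse perpendicular median line determined by two support functionals -/
lemma exists_line {a b : ℝ × ℝ} (ha : a ∈ Ω) (hb' : b ∈ Ω) (hab : a ≠ b)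
    {h k : ℝ × ℝ × ℝ} (hh : ∀ x ∈ Ω, 0 < ev h x) (hk : ∀ x ∈ Ω, 0 < ev k x)
    (hhz : ev h (en Ω a b) = 0) (hkz : ev k (en Ω b a) = 0) {κ : ℝ} (hκ : 0 < κ)
    (hκ2 : κ ^ 2 = (ev h a * ev h b) / (ev k a * ev k b)) :
    ∃ ℓ : AffineSubspace ℝ (ℝ × ℝ),
      (Module.finrank ℝ ℓ.direction = 1 ∧
        ∃ m ∈ segment ℝ a b, hd Ω a m = hd Ω m b ∧ m ∈ ℓ ∧
          ∀ x ∈ affineSpan ℝ {a, b}, x ∈ Ω → ∀ z ∈ ℓ, z ∈ Ω → hd Ω x m ≤ hd Ω x z) ∧
      (∀ z ∈ ℓ, ev h z = κ * ev k z) ∧
      ∃ w : ℝ × ℝ, w ≠ 0 ∧ ℓ.direction = Submodule.span ℝ {w} ∧ lin h w = κ * lin k w := by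
  classical
  have hw : a - b ≠ 0 := sub_ne_zero.mpr hab
  have hw' : b - a ≠ 0 := sub_ne_zero.mpr hab.symm
  have hS := ext_pos ho hb ha hw
  have hS' := ext_pos ho hb hb' hw'
  have hPc : en Ω a b ∈ closure Ω := ext_mem_closure hb ha hw
  have hPn : en Ω a b ∉ Ω := ext_not_mem ho hb ha hw
  have hQc : en Ω b a ∈ closure Ω := ext_mem_closure hb hb' hw'
  have hQn : en Ω b a ∉ Ω := ext_not_mem ho hb hb' hw'
  set S := ext Ω a (a - b) with hSdef
  set S' := ext Ω b (b - a) with hS'def
  have hPdef : en Ω a b = a + S • (a - b) := rfl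
  have hQdef : en Ω b a = b + S' • (b - a) := rfl
  generalize hP : en Ω a b = P at *
  generalize hQ : en Ω b a = Q at *
  have hN : 0 < 1 + S + S' := by linarith
  set pa := S / (1 + S + S') with hpa
  set pb := (1 + S) / (1 + S + S') with hpb
  have hpa0 : 0 < pa := by positivity
  have hpab : pa < pb := by
    rw [hpa, hpb]
    exact div_lt_div_of_pos_right (by linarith) hN
  have hpb1 : pb < 1 := by
    rw [hpb, div_lt_one hN]
    linarith
  have eQP : Q - P = (1 + S + S') • (b - a) := by
    rw [hPdef, hQdef]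
    ext <;> simp <;> ring
  have ea : a = P + pa • (Q - P) := by
    rw [eQP, smul_smul, hpa, div_mul_cancel₀ _ hN.ne', hPdef]
    ext <;> simp <;> ring
  have eb : b = P + pb • (Q - P) := by
    rw [eQP, smul_smul, hpb, div_mul_cancel₀ _ hN.ne', hPdef]
    ext <;> simp <;> ring
  -- values of h and k along the chord
  have evh : ∀ p : ℝ, ev h (P + p • (Q - P)) = p * ev h Q := by
    intro p
    rw [ev_add_smul, lin_sub, hhz]
    ring
  have evk : ∀ p : ℝ, ev k (P + p • (Q - P)) = (1 - p) * ev k P := by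
    intro p
    rw [ev_add_smul, lin_sub, hkz]
    ring
  have hhQ : 0 < ev h Q := by
    have := hh a ha
    rw [ea, evh] at this
    exact (pos_iff_pos_of_mul_pos this).mp hpa0
  have hkP : 0 < ev k P := by
    have := hk a ha
    rw [ea, evk] at this
    exact (pos_iff_pos_of_mul_pos this).mp (by linarith)
  -- the midpoint parameter
  set μ := κ * ev k P / (ev h Q + κ * ev k P) with hμ
  have hden : 0 < ev h Q + κ * ev k P := by positivity
  have hμ0 : 0 < μ := by positivity
  have hμ1 : μ < 1 := by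
    rw [hμ, div_lt_one hden]
    linarith
  have hμeq : μ * ev h Q = κ * ((1 - μ) * ev k P) := by
    rw [hμ]
    field_simp
    ring
  have hκ3 : κ ^ 2 * ((1 - pa) * (1 - pb) * (ev k P) ^ 2) = pa * pb * (ev h Q) ^ 2 := by
    have h1 : (1 - pa) ≠ 0 := by linarith
    have h2 : (1 - pb) ≠ 0 := by linarith
    have e1 : ev h a = pa * ev h Q := by rw [ea, evh]
    have e2 : ev h b = pb * ev h Q := by rw [eb, evh]
    have e3 : ev k a = (1 - pa) * ev k P := by rw [ea, evk]
    have e4 : ev k b = (1 - pb) * ev k P := by rw [eb, evk]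
    rw [hκ2, e1, e2, e3, e4]
    field_simp
  have hkey : μ ^ 2 * ((1 - pa) * (1 - pb)) = pa * pb * (1 - μ) ^ 2 := by
    have h1 : (μ * ev h Q) ^ 2 * ((1 - pa) * (1 - pb)) = pa * pb * (ev h Q) ^ 2 * (1 - μ) ^ 2 := by
      rw [hμeq, ← hκ3]
      ring
    have h2 : (ev h Q) ^ 2 ≠ 0 := by positivity
    apply mul_right_cancel₀ h2
    linarith
  have hpaμ : pa < μ := by
    by_contra hcon
    push Not at hcon
    have h1 : μ * μ ≤ pa * pb := by nlinarith
    have h2 : (1 - pa) * (1 - pb) < (1 - μ) * (1 - μ) := by nlinarith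
    have : μ ^ 2 * ((1 - pa) * (1 - pb)) < pa * pb * (1 - μ) ^ 2 := by
      calc μ ^ 2 * ((1 - pa) * (1 - pb)) < μ ^ 2 * ((1 - μ) * (1 - μ)) := by
            apply mul_lt_mul_of_pos_left h2; positivity
        _ = (μ * μ) * ((1 - μ) ^ 2) := by ring
        _ ≤ pa * pb * (1 - μ) ^ 2 := by
            apply mul_le_mul_of_nonneg_right h1; positivity
    linarith
  have hμpb : μ < pb := by
    by_contra hcon
    push Not at hcon
    have h1 : pa * pb < μ * μ := by nlinarith
    have h2 : (1 - μ) * (1 - μ) ≤ (1 - pa) * (1 - pb) := by nlinarith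
    have : pa * pb * (1 - μ) ^ 2 < μ ^ 2 * ((1 - pa) * (1 - pb)) := by
      calc pa * pb * (1 - μ) ^ 2 < (μ * μ) * (1 - μ) ^ 2 := by
            apply mul_lt_mul_of_pos_right h1
            have : 0 < 1 - μ := by linarith
            positivity
        _ = μ ^ 2 * ((1 - μ) * (1 - μ)) := by ring
        _ ≤ μ ^ 2 * ((1 - pa) * (1 - pb)) := by
            apply mul_le_mul_of_nonneg_left h2; positivity
    linarith
  set m := P + μ • (Q - P) with hm
  have hmseg : m ∈ segment ℝ a b := by
    rw [segment_eq_image']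
    refine ⟨(μ - pa) / (pb - pa), ⟨?_, ?_⟩, ?_⟩
    · apply div_nonneg <;> linarith
    · rw [div_le_one (by linarith)]; linarith
    · have hne : pb - pa ≠ 0 := by linarith
      show a + ((μ - pa) / (pb - pa)) • (b - a) = m
      have e5 : b - a = (pb - pa) • (Q - P) := by
        nth_rewrite 1 [eb]
        nth_rewrite 1 [ea]
        rw [add_sub_add_left_eq_sub, ← sub_smul]
      rw [e5, smul_smul, div_mul_cancel₀ _ hne, hm]
      nth_rewrite 1 [ea]
      rw [add_assoc, ← add_smul]
      congr 2
      ring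
  have hmΩ : m ∈ Ω := hc.segment_subset ha hb' hmseg
  -- distances
  have dam : hd Ω a m = (1 / 2) * Real.log (μ * (1 - pa) / (pa * (1 - μ))) := by
    have := hd_chord ho hc hPc hPn hQc hQn hpa0 hpaμ hμ1 (by rw [← ea]; exact ha)
    rwa [← ea] at this
  have dmb : hd Ω m b = (1 / 2) * Real.log (pb * (1 - μ) / (μ * (1 - pb))) := by
    have := hd_chord ho hc hPc hPn hQc hQn hμ0 hμpb hpb1 hmΩ
    rwa [← eb] at this
  have hdmid : hd Ω a m = hd Ω m b := by
    rw [dam, dmb]
    congr 2
    have h1 : (1 - pb) ≠ 0 := by linarith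
    have h2 : (1 - μ) ≠ 0 := by linarith
    rw [div_eq_div_iff (by positivity) (by positivity)]
    linarith
  -- direction of the line
  set w : ℝ × ℝ := (-(h.2.1 - κ * k.2.1), h.1 - κ * k.1) with hwdef
  have hlinw : lin h w = κ * lin k w := by
    simp only [lin, hwdef]
    ring
  have hwne : w ≠ 0 := by
    intro h0
    have h1 : h.2.1 - κ * k.2.1 = 0 := by
      have := congrArg Prod.fst h0
      simp [hwdef] at this
      linarith
    have h2 : h.1 - κ * k.1 = 0 := by
      have := congrArg Prod.snd h0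
      simpa [hwdef] using this
    -- then h - κ k is constant, but it has different signs at P and Q
    have h3 : ev h Q - κ * ev k Q = ev h P - κ * ev k P := by
      have h1' : h.2.1 = κ * k.2.1 := by linarith
      have h2' : h.1 = κ * k.1 := by linarith
      simp only [ev]
      rw [h1', h2']
      ring
    rw [hkz, hhz] at h3
    have : 0 < κ * ev k P := by positivity
    linarith
  have hline : ∀ z ∈ AffineSubspace.mk' m (Submodule.span ℝ {w}), ev h z = κ * ev k z := by
    intro z hz
    rw [AffineSubspace.mem_mk', vsub_eq_sub, Submodule.mem_span_singleton] at hz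
    obtain ⟨c, hcz⟩ := hz
    have e6 : z = m + c • w := by rw [hcz]; abel
    have e7 : ev h m = μ * ev h Q := by rw [hm, evh]
    have e8 : ev k m = (1 - μ) * ev k P := by rw [hm, evk]
    rw [e6, ev_add_smul h m, ev_add_smul k m, hlinw, e7, e8, hμeq]
    ring
  refine ⟨AffineSubspace.mk' m (Submodule.span ℝ {w}), ⟨?_, m, hmseg, hdmid, ?_, ?_⟩, hline, w,
    hwne, ?_, hlinw⟩
  · rw [AffineSubspace.direction_mk']
    exact finrank_span_singleton hwne
  · exact AffineSubspace.self_mem_mk' _ _
  · intro x hx hxΩ z hz hzΩ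
    have hzl := hline z hz
    obtain ⟨p, hp⟩ : ∃ p : ℝ, x = P + p • (Q - P) := by
      obtain ⟨r, hr⟩ := (mem_affineSpan_pair_iff_exists_lineMap_eq).mp hx
      refine ⟨pa + r * (pb - pa), ?_⟩
      have e5 : b - a = (pb - pa) • (Q - P) := by
        nth_rewrite 1 [eb]
        nth_rewrite 1 [ea]
        rw [add_sub_add_left_eq_sub, ← sub_smul]
      rw [← hr, AffineMap.lineMap_apply, vsub_eq_sub, vadd_eq_add, e5, smul_smul, add_smul,
        add_comm]
      nth_rewrite 1 [ea]
      rw [add_assoc]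
    have hxh := hh x hxΩ
    have hxk := hk x hxΩ
    have hzh := hh z hzΩ
    have hzk := hk z hzΩ
    have e7 : ev h x = p * ev h Q := by rw [hp, evh]
    have e8 : ev k x = (1 - p) * ev k P := by rw [hp, evk]
    have hp0 : 0 < p := by
      rw [e7] at hxh
      exact (pos_iff_pos_of_mul_pos hxh).mpr hhQ
    have hp1 : 0 < 1 - p := by
      rw [e8] at hxk
      exact (pos_iff_pos_of_mul_pos hxk).mpr hkP
    have hμ2 : 0 < 1 - μ := by linarith
    have hpμ : ev h x = κ * ev k x → p = μ := by
      intro hxx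
      rw [e7, e8] at hxx
      have : (p - μ) * (ev h Q + κ * ev k P) = 0 := by linear_combination hxx - hμeq
      rcases mul_eq_zero.mp this with h0 | h0
      · linarith
      · exact absurd h0 hden.ne'
    rcases lt_trichotomy p μ with hlt | heq | hgt
    · have hxz : x ≠ z := by
        rintro rfl
        exact hlt.ne (hpμ hzl)
      have hd1 := hd_chord ho hc hPc hPn hQc hQn hp0 hlt hμ1 (by rw [← hp]; exact hxΩ)
      rw [← hp, ← hm] at hd1
      rw [hd1]
      have := log_le_hd ho hb hxΩ hzΩ hxz hh hk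
      have e9 : ev h z * ev k x / (ev h x * ev k z) = μ * (1 - p) / (p * (1 - μ)) := by
        rw [hzl, e7, e8, div_eq_div_iff (by positivity) (by positivity)]
        linear_combination (-(ev k z * (1 - p) * p)) * hμeq
      rw [e9] at this
      linarith
    · have hxm : x = m := by rw [hp, heq]
      rw [hxm, hd_self Ω m hmΩ]
      by_cases hmz : m = z
      · rw [← hmz, hd_self Ω m hmΩ]
      · have := log_le_hd ho hb hmΩ hzΩ hmz hh hh
        have hmh := hh m hmΩ
        rw [mul_comm (ev h z), div_self (by positivity), Real.log_one] at this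
        linarith
    · have hxz : x ≠ z := by
        rintro rfl
        exact hgt.ne' (hpμ hzl)
      have e10 : Q + (1 - p) • (P - Q) = x := by
        rw [hp]
        ext <;> simp <;> ring
      have e11 : Q + (1 - μ) • (P - Q) = m := by
        rw [hm]
        ext <;> simp <;> ring
      have hd1 := hd_chord ho hc hQc hQn hPc hPn hp1 (show 1 - p < 1 - μ by linarith)
        (by linarith) (by rw [e10]; exact hxΩ)
      rw [e10, e11] at hd1
      rw [hd1]
      have := log_le_hd ho hb hxΩ hzΩ hxz hk hh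
      have e9 : ev k z * ev h x / (ev k x * ev h z) =
          (1 - μ) * (1 - (1 - p)) / ((1 - p) * (1 - (1 - μ))) := by
        rw [sub_sub_cancel, sub_sub_cancel, hzl, e7, e8, div_eq_div_iff (by positivity)
          (by positivity)]
        linear_combination (ev k z * (1 - p) * p) * hμeq
      rw [e9] at this
      linarith
  · rw [AffineSubspace.direction_mk']

end

end Pool.Agent.HilbertReverse
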