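import Pool.Agent.HilbertReverse.Segre2

set_option autoImplicit false

namespace Pool.Agent.HilbertReverse

open Set Filter Topology

section

variable {Ω : Set (ℝ × ℝ)} (ho : IsOpen Ω) (hc : Convex ℝ Ω) (hb : Bornology.IsBounded Ω)
  (hyp : WPencil Ω)

include ho hc hb hyp in
theorem ellipse_of_wpencil (hne : Ω.Nonempty) :
    ∃ f : (ℝ × ℝ) ≃ᵃ[ℝ] (ℝ × ℝ), Ω = f '' {p : ℝ × ℝ | p.1 ^ 2 + p.2 ^ 2 < 1} := by
  obtain ⟨O, hO⟩ := hne
  have one : ev ((0 : ℝ), (0 : ℝ), (1 : ℝ)) O = 1 := by simp [ev]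
  obtain ⟨A, a, hA, -⟩ := exists_good_off ho hc hb hO one one
  obtain ⟨B, b, hB, hAB⟩ := exists_good_off ho hc hb hO hA.norm hA.norm
  obtain ⟨C, c, hC, hABC⟩ := exists_good_off ho hc hb hO hA.norm hB.norm
  have nn : ∀ {X Y : ℝ × ℝ} {x y : ℝ × ℝ × ℝ}, Good Ω O X x → Good Ω O Y y → 0 ≤ ev x Y :=
    fun hx hy => ev_nonneg_closure hx.pos hy.mem
  have aB0 : ev a B ≠ 0 := left_ne_zero_of_mul hAB
  have aC0 : ev a C ≠ 0 := left_ne_zero_of_mul hABC
  have bC0 : ev b C ≠ 0 := right_ne_zero_of_mul hABC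
  have aB : 0 < ev a B := (nn hA hB).lt_of_ne' aB0
  have aC : 0 < ev a C := (nn hA hC).lt_of_ne' aC0
  have bC : 0 < ev b C := (nn hB hC).lt_of_ne' bC0
  have bA : 0 < ev b A := (nn hB hA).lt_of_ne' fun h => aB0 (hB.symm_zero hA h)
  have cA : 0 < ev c A := (nn hC hA).lt_of_ne' fun h => aC0 (hC.symm_zero hA h)
  have cB : 0 < ev c B := (nn hC hB).lt_of_ne' fun h => bC0 (hC.symm_zero hB h)
  have hD : D A B C ≠ 0 := by
    have h1 : det3 a b c * D A B C = ev a B * ev b C * ev c A + ev a C * ev b A * ev c B := by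
      rw [det_mul_D, hA.zero, hB.zero, hC.zero]
      ring
    have h2 : det3 a b c * D A B C ≠ 0 := by
      rw [h1]; positivity
    exact right_ne_zero_of_mul h2
  have sABC := segre2 ho hc hb hyp hO hA hB hC
  -- the conic vanishes at all good points
  have hQ : ∀ U u, Good Ω O U u → Qc A B C a b c U = 0 := by
    intro U u hU
    have s1 := segre2 ho hc hb hyp hO hU hA hB
    have s2 := segre2 ho hc hb hyp hO hU hA hC
    have s3 := segre2 ho hc hb hyp hO hU hB hC
    have i1 : ev u A * (ev b U * (ev a B / ev b A)) = ev u B * ev a U := by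
      field_simp
      linarith
    have i2 : ev u A * (ev c U * (ev a C / ev c A)) = ev u C * ev a U := by
      field_simp
      linarith
    have i3 : ev u B * (ev c U * (ev a C / ev c A)) = ev u C * (ev b U * (ev a B / ev b A)) := by
      have hb0 : ev b C * ev c A * ev b A ≠ 0 := by positivity
      rw [mul_div_assoc', mul_div_assoc', mul_div_assoc', mul_div_assoc',
        div_eq_div_iff cA.ne' bA.ne']
      apply mul_right_cancel₀ bC0
      linear_combination (ev a C * ev b A) * s3 - ev u C * ev b U * sABC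
    have inter := ev_interp u A B C U
    rw [hU.zero, mul_zero] at inter
    have q1 : ev u A * Qc A B C a b c U = 0 := by
      unfold Qc
      linear_combination ev a U * inter + D U C A * i1 + D U A B * i2
    have q2 : ev u B * Qc A B C a b c U = 0 := by
      unfold Qc
      linear_combination (ev b U * (ev a B / ev b A)) * inter - D U B C * i1 + D U A B * i3
    have q3 : ev u C * Qc A B C a b c U = 0 := by
      unfold Qc
      linear_combination (ev c U * (ev a C / ev c A)) * inter - D U B C * i2 - D U C A * i3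
    by_contra hcon
    have z1 : ev u A = 0 := (mul_eq_zero.mp q1).resolve_right hcon
    have z2 : ev u B = 0 := (mul_eq_zero.mp q2).resolve_right hcon
    have z3 : ev u C = 0 := (mul_eq_zero.mp q3).resolve_right hcon
    have := ev_interp u A B C O
    rw [z1, z2, z3, hU.norm] at this
    apply hD
    linarith
  obtain ⟨α, β, γ, s, t, e, hq⟩ := Qc_eq_qf A B C a b c
  have hqz : ∀ x ∈ closure Ω, x ∉ Ω → qf α β γ s t e x = 0 := by
    intro x hx hx'
    apply zero_on_boundary ho hc hb hO _ _ hx hx'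
    · unfold qf
      fun_prop
    · intro U u hU
      rw [← hq]
      exact hQ U u hU
  -- an interior point off the conic
  have hlin : 0 < lin a (B - A) := by
    rw [lin_sub, hA.zero, sub_zero]
    exact aB
  have hev1 : ∀ᶠ ε in 𝓝[>] (0:ℝ), ε < 1 ∧ 0 < ε := by
    have h1 : ∀ᶠ ε in 𝓝[>] (0:ℝ), ε < 1 :=
      (eventually_lt_nhds (zero_lt_one)).filter_mono nhdsWithin_le_nhds
    exact h1.and self_mem_nhdsWithin
  obtain ⟨ε, hε, hε1, hε0⟩ := ((hA.smooth _ hlin).and hev1).exists
  apply ellipse_of_conic ho hc hb hε hqz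
  rw [← hq]
  have hval : Qc A B C a b c (A + ε • (B - A)) = 2 * ε * (1 - ε) * ev a B * D A B C := by
    have e1 : D (A + ε • (B - A)) B C = (1 - ε) * D A B C := by
      simp only [D, Prod.fst_add, Prod.snd_add, Prod.smul_fst, Prod.smul_snd, smul_eq_mul,
        Prod.fst_sub, Prod.snd_sub]
      ring
    have e2 : D (A + ε • (B - A)) C A = ε * D A B C := by
      simp only [D, Prod.fst_add, Prod.snd_add, Prod.smul_fst, Prod.smul_snd, smul_eq_mul,
        Prod.fst_sub, Prod.snd_sub]
      ring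
    have e3 : D (A + ε • (B - A)) A B = 0 := by
      simp only [D, Prod.fst_add, Prod.snd_add, Prod.smul_fst, Prod.smul_snd, smul_eq_mul,
        Prod.fst_sub, Prod.snd_sub]
      ring
    unfold Qc
    rw [e1, e2, e3, ev_add_smul a, ev_add_smul b, lin_sub, lin_sub, hA.zero, hB.zero]
    field_simp
    ring
  rw [hval]
  have : 1 - ε ≠ 0 := by linarith
  positivity

end

end Pool.Agent.HilbertReverse
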