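import Pool.Agent.HilbertReverse.Limit

set_option autoImplicit false

namespace Pool.Agent.HilbertReverse

open Set Filter Topology

/-- reverse perpendicular median line relation -/
def RR (Ω : Set (ℝ × ℝ)) (a b : ℝ × ℝ) (ℓ : AffineSubspace ℝ (ℝ × ℝ)) : Prop :=
  Module.finrank ℝ ℓ.direction = 1 ∧
    ∃ m ∈ segment ℝ a b, hd Ω a m = hd Ω m b ∧ m ∈ ℓ ∧
      ∀ x ∈ affineSpan ℝ {a, b}, x ∈ Ω → ∀ z ∈ ℓ, z ∈ Ω → hd Ω x m ≤ hd Ω x z

/-- every triangle has its reverse perpendicular median lines in a pencil -/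
def Pencil (Ω : Set (ℝ × ℝ)) : Prop :=
  ∀ a b c : ℝ × ℝ, a ∈ Ω → b ∈ Ω → c ∈ Ω → ¬ Collinear ℝ {a, b, c} →
      ∀ ℓ₁ ℓ₂ ℓ₃ : AffineSubspace ℝ (ℝ × ℝ), RR Ω a b ℓ₁ → RR Ω b c ℓ₂ → RR Ω c a ℓ₃ →
        ((∃ p, p ∈ ℓ₁ ∧ p ∈ ℓ₂ ∧ p ∈ ℓ₃) ∨
          (ℓ₁.direction = ℓ₂.direction ∧ ℓ₂.direction = ℓ₃.direction))

/-- three by three determinant -/
def det3 (r s t : ℝ × ℝ × ℝ) : ℝ :=
  r.1 * (s.2.1 * t.2.2 - s.2.2 * t.2.1) - r.2.1 * (s.1 * t.2.2 - s.2.2 * t.1)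
    + r.2.2 * (s.1 * t.2.1 - s.2.1 * t.1)

/-- twice the signed area of a triangle -/
def D (a b c : ℝ × ℝ) : ℝ :=
  a.1 * (b.2 - c.2) - a.2 * (b.1 - c.1) + (b.1 * c.2 - b.2 * c.1)

lemma det3_eq_zero_of_point {r s t : ℝ × ℝ × ℝ} {p : ℝ × ℝ} (h1 : ev r p = 0) (h2 : ev s p = 0)
    (h3 : ev t p = 0) : det3 r s t = 0 := by
  simp only [ev] at h1 h2 h3
  unfold det3
  linear_combination (s.1 * t.2.1 - s.2.1 * t.1) * h1 + (r.2.1 * t.1 - r.1 * t.2.1) * h2 +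
    (r.1 * s.2.1 - r.2.1 * s.1) * h3

lemma det3_eq_zero_of_dir {r s t : ℝ × ℝ × ℝ} {w : ℝ × ℝ} (hw : w ≠ 0) (h1 : lin r w = 0)
    (h2 : lin s w = 0) (h3 : lin t w = 0) : det3 r s t = 0 := by
  simp only [lin] at h1 h2 h3
  have e1 : det3 r s t * w.1 = 0 := by
    unfold det3
    linear_combination (s.2.1 * t.2.2 - s.2.2 * t.2.1) * h1 +
      (r.2.2 * t.2.1 - r.2.1 * t.2.2) * h2 + (r.2.1 * s.2.2 - r.2.2 * s.2.1) * h3
  have e2 : det3 r s t * w.2 = 0 := by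
    unfold det3
    linear_combination (s.2.2 * t.1 - s.1 * t.2.2) * h1 +
      (r.1 * t.2.2 - r.2.2 * t.1) * h2 + (r.2.2 * s.1 - r.1 * s.2.2) * h3
  by_contra hne
  apply hw
  ext
  · simpa [hne] using e1
  · simpa [hne] using e2

lemma not_collinear_of_D {a b c : ℝ × ℝ} (h : D a b c ≠ 0) : ¬ Collinear ℝ {a, b, c} := by
  intro hcol
  rw [collinear_iff_of_mem (p₀ := a) (by simp)] at hcol
  obtain ⟨v, hv⟩ := hcol
  obtain ⟨r, hr⟩ := hv b (by simp)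
  obtain ⟨s, hs⟩ := hv c (by simp)
  apply h
  rw [hr, hs]
  simp only [D, vadd_eq_add, Prod.fst_add, Prod.snd_add, Prod.smul_fst, Prod.smul_snd,
    smul_eq_mul]
  ring

/-- product formula for determinants -/
lemma det_mul_D (u v w : ℝ × ℝ × ℝ) (U V W : ℝ × ℝ) :
    det3 u v w * D U V W =
      ev u U * (ev v V * ev w W - ev v W * ev w V) - ev u V * (ev v U * ev w W - ev v W * ev w U)
        + ev u W * (ev v U * ev w V - ev v V * ev w U) := by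
  simp only [det3, D, ev]
  ring

/-- the combination `h - κ k` -/
def comb (h k : ℝ × ℝ × ℝ) (κ : ℝ) : ℝ × ℝ × ℝ :=
  (h.1 - κ * k.1, h.2.1 - κ * k.2.1, h.2.2 - κ * k.2.2)

lemma ev_comb (h k : ℝ × ℝ × ℝ) (κ : ℝ) (x : ℝ × ℝ) :
    ev (comb h k κ) x = ev h x - κ * ev k x := by
  simp only [ev, comb]; ring

lemma lin_comb (h k : ℝ × ℝ × ℝ) (κ : ℝ) (x : ℝ × ℝ) :
    lin (comb h k κ) x = lin h x - κ * lin k x := by
  simp only [lin, comb]; ring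

lemma det3_comb (u v w : ℝ × ℝ × ℝ) (a b c : ℝ) :
    det3 (comb u v a) (comb v w b) (comb w u c) = (1 - a * b * c) * det3 u v w := by
  simp only [det3, comb]; ring

section

variable {Ω : Set (ℝ × ℝ)} (ho : IsOpen Ω) (hc : Convex ℝ Ω) (hb : Bornology.IsBounded Ω)
  (hyp : Pencil Ω)

include ho hc hb hyp in
/-- the determinant condition for one triangle -/
lemma det_zero {a b c : ℝ × ℝ} (ha : a ∈ Ω) (hb' : b ∈ Ω) (hc' : c ∈ Ω) (hD : D a b c ≠ 0)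
    {h1 k1 h2 k2 h3 k3 : ℝ × ℝ × ℝ}
    (ph1 : ∀ x ∈ Ω, 0 < ev h1 x) (pk1 : ∀ x ∈ Ω, 0 < ev k1 x)
    (ph2 : ∀ x ∈ Ω, 0 < ev h2 x) (pk2 : ∀ x ∈ Ω, 0 < ev k2 x)
    (ph3 : ∀ x ∈ Ω, 0 < ev h3 x) (pk3 : ∀ x ∈ Ω, 0 < ev k3 x)
    (zh1 : ev h1 (en Ω a b) = 0) (zk1 : ev k1 (en Ω b a) = 0)
    (zh2 : ev h2 (en Ω b c) = 0) (zk2 : ev k2 (en Ω c b) = 0)
    (zh3 : ev h3 (en Ω c a) = 0) (zk3 : ev k3 (en Ω a c) = 0) :
    det3 (comb h1 k1 (Real.sqrt ((ev h1 a * ev h1 b) / (ev k1 a * ev k1 b))))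
      (comb h2 k2 (Real.sqrt ((ev h2 b * ev h2 c) / (ev k2 b * ev k2 c))))
      (comb h3 k3 (Real.sqrt ((ev h3 c * ev h3 a) / (ev k3 c * ev k3 a)))) = 0 := by
  have hab : a ≠ b := by
    rintro rfl
    apply hD
    simp only [D]
    ring
  have hbc : b ≠ c := by
    rintro rfl
    apply hD
    simp only [D]
    ring
  have hca : c ≠ a := by
    rintro rfl
    apply hD
    simp only [D]
    ring
  have pos : ∀ {h k : ℝ × ℝ × ℝ} (_ : ∀ x ∈ Ω, 0 < ev h x) (_ : ∀ x ∈ Ω, 0 < ev k x)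
      {x y : ℝ × ℝ} (_ : x ∈ Ω) (_ : y ∈ Ω), 0 < (ev h x * ev h y) / (ev k x * ev k y) := by
    intro h k ph pk x y hx hy
    have := ph x hx
    have := ph y hy
    have := pk x hx
    have := pk y hy
    positivity
  obtain ⟨ℓ₁, R1, Z1, w1, hw1, D1, L1⟩ := exists_line ho hc hb ha hb' hab ph1 pk1 zh1 zk1
    (Real.sqrt_pos.mpr (pos ph1 pk1 ha hb')) (Real.sq_sqrt (pos ph1 pk1 ha hb').le)
  obtain ⟨ℓ₂, R2, Z2, w2, hw2, D2, L2⟩ := exists_line ho hc hb hb' hc' hbc ph2 pk2 zh2 zk2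
    (Real.sqrt_pos.mpr (pos ph2 pk2 hb' hc')) (Real.sq_sqrt (pos ph2 pk2 hb' hc').le)
  obtain ⟨ℓ₃, R3, Z3, w3, hw3, D3, L3⟩ := exists_line ho hc hb hc' ha hca ph3 pk3 zh3 zk3
    (Real.sqrt_pos.mpr (pos ph3 pk3 hc' ha)) (Real.sq_sqrt (pos ph3 pk3 hc' ha).le)
  rcases hyp a b c ha hb' hc' (not_collinear_of_D hD) ℓ₁ ℓ₂ ℓ₃ R1 R2 R3 with
    ⟨p, p1, p2, p3⟩ | ⟨d12, d23⟩
  · apply det3_eq_zero_of_point (p := p)
    · rw [ev_comb, Z1 p p1, sub_self]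
    · rw [ev_comb, Z2 p p2, sub_self]
    · rw [ev_comb, Z3 p p3, sub_self]
  · apply det3_eq_zero_of_dir hw1
    · rw [lin_comb, L1, sub_self]
    · have : w1 ∈ Submodule.span ℝ {w2} := by
        rw [← D2, ← d12, D1]
        exact Submodule.mem_span_singleton_self w1
      obtain ⟨c, rfl⟩ := Submodule.mem_span_singleton.mp this
      have e : ∀ h, lin h (c • w2) = c * lin h w2 := by
        intro h
        simp only [lin, Prod.smul_fst, Prod.smul_snd, smul_eq_mul]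
        ring
      rw [lin_comb, e, e, L2]
      ring
    · have : w1 ∈ Submodule.span ℝ {w3} := by
        rw [← D3, ← d23, ← d12, D1]
        exact Submodule.mem_span_singleton_self w1
      obtain ⟨c, rfl⟩ := Submodule.mem_span_singleton.mp this
      have e : ∀ h, lin h (c • w3) = c * lin h w3 := by
        intro h
        simp only [lin, Prod.smul_fst, Prod.smul_snd, smul_eq_mul]
        ring
      rw [lin_comb, e, e, L3]
      ring

include ho hc hb in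
lemma tendsto_kappa {O U V : ℝ × ℝ} {u v : ℝ × ℝ × ℝ} (hO : O ∈ Ω) (hu : Good Ω O U u)
    (hv : Good Ω O V v) (huV : 0 < ev u V) (hvU : 0 < ev v U) {H K : ℝ → ℝ × ℝ × ℝ}
    (hH : ∀ᶠ ε in 𝓝[>] (0:ℝ), Supp Ω O (H ε) (en Ω (U + ε • (O - U)) (V + ε • (O - V))))
    (hK : ∀ᶠ ε in 𝓝[>] (0:ℝ), Supp Ω O (K ε) (en Ω (V + ε • (O - V)) (U + ε • (O - U)))) :
    Tendsto (fun ε => Real.sqrt ((ev (H ε) (U + ε • (O - U)) * ev (H ε) (V + ε • (O - V))) /
      (ev (K ε) (U + ε • (O - U)) * ev (K ε) (V + ε • (O - V))))) (𝓝[>] 0)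
      (𝓝 (Real.sqrt (ev u V / ev v U))) := by
  obtain ⟨a1, a2⟩ := tendsto_ratio ho hc hb hO hu hv.mem huV hH
  obtain ⟨b1, b2⟩ := tendsto_ratio ho hc hb hO hv hu.mem hvU hK
  have h1 := (a1.mul a2).div (b2.mul b1) (by simpa using hvU.ne')
  have h2 := (Real.continuous_sqrt.tendsto _).comp h1
  rw [one_mul, mul_one] at h2
  refine h2.congr' ?_
  filter_upwards [self_mem_nhdsWithin] with ε hε
  have hε0 : ε ≠ 0 := (ne_of_gt hε)
  simp only [Function.comp]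
  congr 1
  simp only [Pi.div_apply]
  field_simp

include ho hc hb hyp in
/-- Segre's lemma of tangents, nondegenerate case -/
lemma segre_pos {O U V W : ℝ × ℝ} {u v w : ℝ × ℝ × ℝ} (hO : O ∈ Ω) (hu : Good Ω O U u)
    (hv : Good Ω O V v) (hw : Good Ω O W w) (huV : 0 < ev u V) (hvU : 0 < ev v U)
    (hvW : 0 < ev v W) (hwV : 0 < ev w V) (hwU : 0 < ev w U) (huW : 0 < ev u W) :
    ev u V * ev v W * ev w U = ev u W * ev v U * ev w V := by
  have hdet : det3 u v w * D U V W = ev u V * ev v W * ev w U + ev u W * ev v U * ev w V := by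
    rw [det_mul_D, hu.zero, hv.zero, hw.zero]
    ring
  have hdet0 : det3 u v w * D U V W ≠ 0 := by
    rw [hdet]
    positivity
  have hd : det3 u v w ≠ 0 := left_ne_zero_of_mul hdet0
  have hD : D U V W ≠ 0 := right_ne_zero_of_mul hdet0
  have hev1 : ∀ᶠ ε in 𝓝[>] (0:ℝ), ε < 1 ∧ 0 < ε := by
    have h1 : ∀ᶠ ε in 𝓝[>] (0:ℝ), ε < 1 :=
      (eventually_lt_nhds (zero_lt_one)).filter_mono nhdsWithin_le_nhds
    exact h1.and self_mem_nhdsWithin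
  have hA : ∀ X : ℝ × ℝ, X ∈ closure Ω → ∀ ε : ℝ, 0 < ε → ε < 1 → X + ε • (O - X) ∈ Ω := by
    intro X hX ε h0 h1
    have := mem_of_lt ho hc hO hX (t := 1 - ε) (by linarith) (by linarith)
    have e : O + (1 - ε) • (X - O) = X + ε • (O - X) := by
      ext <;> simp <;> ring
    rwa [e] at this
  -- choice of support functionals
  have hex : ∀ x y : ℝ × ℝ, ∃ h : ℝ × ℝ × ℝ, x ∈ Ω → y ∈ Ω → x ≠ y →
      Supp Ω O h (en Ω x y) := by
    intro x y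
    by_cases hx : x ∈ Ω ∧ y ∈ Ω ∧ x ≠ y
    · obtain ⟨h, hh⟩ := exists_supp hc ho hO (ext_not_mem ho hb hx.1 (sub_ne_zero.mpr hx.2.2))
      exact ⟨h, fun _ _ _ => hh⟩
    · exact ⟨0, fun h1 h2 h3 => absurd ⟨h1, h2, h3⟩ hx⟩
  choose H hH using hex
  have hDε : ∀ ε : ℝ, D (U + ε • (O - U)) (V + ε • (O - V)) (W + ε • (O - W)) =
      (1 - ε) ^ 2 * D U V W := by
    intro ε
    simp only [D, Prod.fst_add, Prod.snd_add, Prod.smul_fst, Prod.smul_snd, smul_eq_mul,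
      Prod.fst_sub, Prod.snd_sub]
    ring
  have hne : ∀ X Y : ℝ × ℝ, X ≠ Y → ∀ ε : ℝ, ε < 1 → X + ε • (O - X) ≠ Y + ε • (O - Y) := by
    intro X Y hXY ε h1 heq
    apply hXY
    have e : (1 - ε) • (X - Y) = 0 := by
      have : (1 - ε) • (X - Y) = (X + ε • (O - X)) - (Y + ε • (O - Y)) := by
        ext <;> simp <;> ring
      rw [this, heq, sub_self]
    rcases smul_eq_zero.mp e with h | h
    · linarith
    · exact sub_eq_zero.mp h
  have hUV : U ≠ V := by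
    rintro rfl
    rw [hu.zero] at huV
    exact lt_irrefl _ huV
  have hVW : V ≠ W := by
    rintro rfl
    rw [hv.zero] at hvW
    exact lt_irrefl _ hvW
  have hWU : W ≠ U := by
    rintro rfl
    rw [hw.zero] at hwU
    exact lt_irrefl _ hwU
  have sup : ∀ X Y : ℝ × ℝ, X ∈ closure Ω → Y ∈ closure Ω → X ≠ Y → ∀ᶠ ε in 𝓝[>] (0:ℝ),
      Supp Ω O (H (X + ε • (O - X)) (Y + ε • (O - Y)))
        (en Ω (X + ε • (O - X)) (Y + ε • (O - Y))) := by
    intro X Y hX hY hXY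
    filter_upwards [hev1] with ε hε
    exact hH _ _ (hA X hX ε hε.2 hε.1) (hA Y hY ε hε.2 hε.1) (hne X Y hXY ε hε.1)
  have s1 := sup U V hu.mem hv.mem hUV
  have s1' := sup V U hv.mem hu.mem hUV.symm
  have s2 := sup V W hv.mem hw.mem hVW
  have s2' := sup W V hw.mem hv.mem hVW.symm
  have s3 := sup W U hw.mem hu.mem hWU
  have s3' := sup U W hu.mem hw.mem hWU.symm
  have k1 := tendsto_kappa ho hc hb hO hu hv huV hvU s1 s1'
  have k2 := tendsto_kappa ho hc hb hO hv hw hvW hwV s2 s2'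
  have k3 := tendsto_kappa ho hc hb hO hw hu hwU huW s3 s3'
  have t1 := tendsto_supp ho hc hb hO hu hv.mem huV s1
  have t1' := tendsto_supp ho hc hb hO hv hu.mem hvU s1'
  have t2 := tendsto_supp ho hc hb hO hv hw.mem hvW s2
  have t2' := tendsto_supp ho hc hb hO hw hv.mem hwV s2'
  have t3 := tendsto_supp ho hc hb hO hw hu.mem hwU s3
  have t3' := tendsto_supp ho hc hb hO hu hw.mem huW s3'
  have hcomb : ∀ {f g : ℝ → ℝ × ℝ × ℝ} {κ : ℝ → ℝ} {f0 g0 : ℝ × ℝ × ℝ} {κ0 : ℝ},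
      Tendsto f (𝓝[>] 0) (𝓝 f0) → Tendsto g (𝓝[>] 0) (𝓝 g0) → Tendsto κ (𝓝[>] 0) (𝓝 κ0) →
      Tendsto (fun ε => comb (f ε) (g ε) (κ ε)) (𝓝[>] 0) (𝓝 (comb f0 g0 κ0)) := by
    intro f g κ f0 g0 κ0 hf hg hκ
    have hcont : Continuous (fun p : ((ℝ × ℝ × ℝ) × (ℝ × ℝ × ℝ)) × ℝ => comb p.1.1 p.1.2 p.2) := by
      unfold comb
      fun_prop
    exact (hcont.tendsto ((f0, g0), κ0)).comp ((hf.prodMk_nhds hg).prodMk_nhds hκ)
  have c1 := hcomb t1 t1' k1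
  have c2 := hcomb t2 t2' k2
  have c3 := hcomb t3 t3' k3
  have hdcont : Continuous (fun p : ((ℝ × ℝ × ℝ) × (ℝ × ℝ × ℝ)) × (ℝ × ℝ × ℝ) =>
      det3 p.1.1 p.1.2 p.2) := by
    unfold det3
    fun_prop
  have hlim := (hdcont.tendsto ((_, _), _)).comp ((c1.prodMk_nhds c2).prodMk_nhds c3)
  have hlim0 : Tendsto (fun _ : ℝ => (0:ℝ)) (𝓝[>] (0:ℝ)) (𝓝 (det3
      (comb u v (Real.sqrt (ev u V / ev v U))) (comb v w (Real.sqrt (ev v W / ev w V)))
      (comb w u (Real.sqrt (ev w U / ev u W))))) := by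
    refine hlim.congr' ?_
    filter_upwards [hev1, s1, s1', s2, s2', s3, s3'] with ε hε a1 a1' a2 a2' a3 a3'
    have hUΩ := hA U hu.mem ε hε.2 hε.1
    have hVΩ := hA V hv.mem ε hε.2 hε.1
    have hWΩ := hA W hw.mem ε hε.2 hε.1
    have hDne : D (U + ε • (O - U)) (V + ε • (O - V)) (W + ε • (O - W)) ≠ 0 := by
      rw [hDε]
      have : (1 - ε) ≠ 0 := by linarith [hε.1]
      positivity
    exact det_zero ho hc hb hyp hUΩ hVΩ hWΩ hDne a1.pos a1'.pos a2.pos a2'.pos a3.pos a3'.pos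
      a1.zero a1'.zero a2.zero a2'.zero a3.zero a3'.zero
  have hz := tendsto_nhds_unique hlim0 tendsto_const_nhds
  rw [det3_comb] at hz
  have hprod : Real.sqrt (ev u V / ev v U) * Real.sqrt (ev v W / ev w V) *
      Real.sqrt (ev w U / ev u W) = 1 := by
    rcases mul_eq_zero.mp hz with h | h
    · linarith
    · exact absurd h hd
  have hsq : (ev u V / ev v U) * (ev v W / ev w V) * (ev w U / ev u W) = 1 := by
    have e1 := Real.mul_self_sqrt (show 0 ≤ ev u V / ev v U by positivity)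
    have e2 := Real.mul_self_sqrt (show 0 ≤ ev v W / ev w V by positivity)
    have e3 := Real.mul_self_sqrt (show 0 ≤ ev w U / ev u W by positivity)
    calc (ev u V / ev v U) * (ev v W / ev w V) * (ev w U / ev u W) =
        (Real.sqrt (ev u V / ev v U) * Real.sqrt (ev v W / ev w V) *
      Real.sqrt (ev w U / ev u W)) * (Real.sqrt (ev u V / ev v U) * Real.sqrt (ev v W / ev w V) *
      Real.sqrt (ev w U / ev u W)) := by
          nth_rewrite 1 [← e1, ← e2, ← e3]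
          ring
      _ = 1 := by rw [hprod]; ring
  field_simp at hsq
  linarith

/-- vanishing is symmetric -/
lemma Good.symm_zero {O U V : ℝ × ℝ} {u v : ℝ × ℝ × ℝ} (hu : Good Ω O U u)
    (hv : Good Ω O V v) (h : ev u V = 0) : ev v U = 0 := by
  have := hv.unique (fun x hx => (hu.pos x hx).le) hu.norm h
  rw [← this]
  exact hu.zero

include ho hc hb hyp in
/-- Segre's lemma of tangents -/
lemma segre {O U V W : ℝ × ℝ} {u v w : ℝ × ℝ × ℝ} (hO : O ∈ Ω) (hu : Good Ω O U u)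
    (hv : Good Ω O V v) (hw : Good Ω O W w) :
    ev u V * ev v W * ev w U = ev u W * ev v U * ev w V := by
  have nn : ∀ {X Y : ℝ × ℝ} {x y : ℝ × ℝ × ℝ}, Good Ω O X x → Good Ω O Y y → 0 ≤ ev x Y :=
    fun hx hy => ev_nonneg_closure hx.pos hy.mem
  by_cases h1 : ev u V = 0
  · rw [h1, hu.symm_zero hv h1]; ring
  by_cases h2 : ev v W = 0
  · rw [h2, hv.symm_zero hw h2]; ring
  by_cases h3 : ev w U = 0
  · rw [h3, hw.symm_zero hu h3]; ring
  have h1' : ev v U ≠ 0 := fun h => h1 (hv.symm_zero hu h)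
  have h2' : ev w V ≠ 0 := fun h => h2 (hw.symm_zero hv h)
  have h3' : ev u W ≠ 0 := fun h => h3 (hu.symm_zero hw h)
  exact segre_pos ho hc hb hyp hO hu hv hw ((nn hu hv).lt_of_ne' h1) ((nn hv hu).lt_of_ne' h1')
    ((nn hv hw).lt_of_ne' h2) ((nn hw hv).lt_of_ne' h2') ((nn hw hu).lt_of_ne' h3)
    ((nn hu hw).lt_of_ne' h3')

end

end Pool.Agent.HilbertReverse
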