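import Pool.Agent.HilbertReverse.ConverseLine
import Pool.Agent.HilbertReverse.Dense
import Pool.Agent.HilbertReverse.Main

set_option autoImplicit false

namespace Pool.Agent.HilbertReverse

open Set Filter Topology

/-- outside some compact subset every triangle has a choice of reverse perpendicular median lines
in a pencil -/
def WPencil (Ω : Set (ℝ × ℝ)) : Prop :=
  ∃ C : Set (ℝ × ℝ), IsCompact C ∧ C ⊆ Ω ∧
    ∀ a b c : ℝ × ℝ, a ∈ Ω → b ∈ Ω → c ∈ Ω → a ∉ C → b ∉ C → c ∉ C → ¬ Collinear ℝ {a, b, c} →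
      ∃ ℓ₁ ℓ₂ ℓ₃ : AffineSubspace ℝ (ℝ × ℝ), RR Ω a b ℓ₁ ∧ RR Ω b c ℓ₂ ∧ RR Ω c a ℓ₃ ∧
        ((∃ p, p ∈ ℓ₁ ∧ p ∈ ℓ₂ ∧ p ∈ ℓ₃) ∨
          (ℓ₁.direction = ℓ₂.direction ∧ ℓ₂.direction = ℓ₃.direction))

section

variable {Ω : Set (ℝ × ℝ)} (ho : IsOpen Ω) (hc : Convex ℝ Ω) (hb : Bornology.IsBounded Ω)

/-- the coefficient of the median line -/
noncomputable def kap (h k : ℝ × ℝ × ℝ) (a b : ℝ × ℝ) : ℝ :=
  Real.sqrt ((ev h a * ev h b) / (ev k a * ev k b))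

include ho hc hb in
/-- the determinant condition for one triangle with a choice of lines in a pencil -/
lemma det_zero2 {O a b c : ℝ × ℝ} (hO : O ∈ Ω) (ha : a ∈ Ω) (hb' : b ∈ Ω) (hc' : c ∈ Ω)
    (hD : D a b c ≠ 0) {ℓ₁ ℓ₂ ℓ₃ : AffineSubspace ℝ (ℝ × ℝ)} (R1 : RR Ω a b ℓ₁)
    (R2 : RR Ω b c ℓ₂) (R3 : RR Ω c a ℓ₃)
    (hpen : (∃ p, p ∈ ℓ₁ ∧ p ∈ ℓ₂ ∧ p ∈ ℓ₃) ∨
      (ℓ₁.direction = ℓ₂.direction ∧ ℓ₂.direction = ℓ₃.direction)) :
    ∃ h1 k1 h2 k2 h3 k3 : ℝ × ℝ × ℝ,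
      Supp Ω O h1 (en Ω a b) ∧ Supp Ω O k1 (en Ω b a) ∧
      Supp Ω O h2 (en Ω b c) ∧ Supp Ω O k2 (en Ω c b) ∧
      Supp Ω O h3 (en Ω c a) ∧ Supp Ω O k3 (en Ω a c) ∧
      det3 (comb h1 k1 (kap h1 k1 a b)) (comb h2 k2 (kap h2 k2 b c))
        (comb h3 k3 (kap h3 k3 c a)) = 0 := by
  have hab : a ≠ b := by
    rintro rfl
    apply hD
    simp only [D]
    ring
  have hbc : b ≠ c := by
    rintro rfl
    apply hD
    simp only [D]
    ring
  have hca : c ≠ a := by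
    rintro rfl
    apply hD
    simp only [D]
    ring
  obtain ⟨h1, k1, s1, s1', Z1, w1, hw1, D1, L1⟩ := RR_line ho hc hb hO ha hb' hab R1
  obtain ⟨h2, k2, s2, s2', Z2, w2, hw2, D2, L2⟩ := RR_line ho hc hb hO hb' hc' hbc R2
  obtain ⟨h3, k3, s3, s3', Z3, w3, hw3, D3, L3⟩ := RR_line ho hc hb hO hc' ha hca R3
  refine ⟨h1, k1, h2, k2, h3, k3, s1, s1', s2, s2', s3, s3', ?_⟩
  unfold kap
  rcases hpen with ⟨p, p1, p2, p3⟩ | ⟨d12, d23⟩
  · apply det3_eq_zero_of_point (p := p)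
    · rw [ev_comb, Z1 p p1, sub_self]
    · rw [ev_comb, Z2 p p2, sub_self]
    · rw [ev_comb, Z3 p p3, sub_self]
  · apply det3_eq_zero_of_dir hw1
    · rw [lin_comb, L1, sub_self]
    · have : w1 ∈ Submodule.span ℝ {w2} := by
        rw [← D2, ← d12, D1]
        exact Submodule.mem_span_singleton_self w1
      obtain ⟨c, rfl⟩ := Submodule.mem_span_singleton.mp this
      have e : ∀ h, lin h (c • w2) = c * lin h w2 := by
        intro h
        simp only [lin, Prod.smul_fst, Prod.smul_snd, smul_eq_mul]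
        ring
      rw [lin_comb, e, e, L2]
      ring
    · have : w1 ∈ Submodule.span ℝ {w3} := by
        rw [← D3, ← d23, ← d12, D1]
        exact Submodule.mem_span_singleton_self w1
      obtain ⟨c, rfl⟩ := Submodule.mem_span_singleton.mp this
      have e : ∀ h, lin h (c • w3) = c * lin h w3 := by
        intro h
        simp only [lin, Prod.smul_fst, Prod.smul_snd, smul_eq_mul]
        ring
      rw [lin_comb, e, e, L3]
      ring

variable (hyp : WPencil Ω)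

include ho hc hb hyp in
/-- Segre's lemma of tangents, nondegenerate case, from the weak hypothesis -/
lemma segre_pos2 {O U V W : ℝ × ℝ} {u v w : ℝ × ℝ × ℝ} (hO : O ∈ Ω) (hu : Good Ω O U u)
    (hv : Good Ω O V v) (hw : Good Ω O W w) (huV : 0 < ev u V) (hvU : 0 < ev v U)
    (hvW : 0 < ev v W) (hwV : 0 < ev w V) (hwU : 0 < ev w U) (huW : 0 < ev u W) :
    ev u V * ev v W * ev w U = ev u W * ev v U * ev w V := by
  have hdet : det3 u v w * D U V W = ev u V * ev v W * ev w U + ev u W * ev v U * ev w V := by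
    rw [det_mul_D, hu.zero, hv.zero, hw.zero]
    ring
  have hdet0 : det3 u v w * D U V W ≠ 0 := by
    rw [hdet]
    positivity
  have hd : det3 u v w ≠ 0 := left_ne_zero_of_mul hdet0
  have hD : D U V W ≠ 0 := right_ne_zero_of_mul hdet0
  have hev1 : ∀ᶠ ε in 𝓝[>] (0:ℝ), ε < 1 ∧ 0 < ε := by
    have h1 : ∀ᶠ ε in 𝓝[>] (0:ℝ), ε < 1 :=
      (eventually_lt_nhds (zero_lt_one)).filter_mono nhdsWithin_le_nhds
    exact h1.and self_mem_nhdsWithin
  have hA : ∀ X : ℝ × ℝ, X ∈ closure Ω → ∀ ε : ℝ, 0 < ε → ε < 1 → X + ε • (O - X) ∈ Ω := by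
    intro X hX ε h0 h1
    have := mem_of_lt ho hc hO hX (t := 1 - ε) (by linarith) (by linarith)
    have e : O + (1 - ε) • (X - O) = X + ε • (O - X) := by
      ext <;> simp <;> ring
    rwa [e] at this
  have hDε : ∀ ε : ℝ, D (U + ε • (O - U)) (V + ε • (O - V)) (W + ε • (O - W)) =
      (1 - ε) ^ 2 * D U V W := by
    intro ε
    simp only [D, Prod.fst_add, Prod.snd_add, Prod.smul_fst, Prod.smul_snd, smul_eq_mul,
      Prod.fst_sub, Prod.snd_sub]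
    ring
  obtain ⟨C, hCc, hCΩ, hC⟩ := hyp
  have hnotC : ∀ X : ℝ × ℝ, X ∉ Ω → ∀ᶠ ε in 𝓝[>] (0:ℝ), X + ε • (O - X) ∉ C := by
    intro X hX
    have hlim : Tendsto (fun ε : ℝ => X + ε • (O - X)) (𝓝[>] (0:ℝ)) (𝓝 X) := by
      have h1 : Tendsto (fun ε : ℝ => X + ε • (O - X)) (𝓝 (0:ℝ)) (𝓝 (X + (0:ℝ) • (O - X))) := by
        apply Continuous.tendsto
        fun_prop
      rw [zero_smul, add_zero] at h1
      exact h1.mono_left nhdsWithin_le_nhds
    exact hlim.eventually (hCc.isClosed.isOpen_compl.mem_nhds (fun h => hX (hCΩ h)))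
  -- choice of the six functionals
  have hex : ∀ ε : ℝ, ∃ h1 k1 h2 k2 h3 k3 : ℝ × ℝ × ℝ, (ε < 1 ∧ 0 < ε) →
      U + ε • (O - U) ∉ C → V + ε • (O - V) ∉ C → W + ε • (O - W) ∉ C →
      Supp Ω O h1 (en Ω (U + ε • (O - U)) (V + ε • (O - V))) ∧
      Supp Ω O k1 (en Ω (V + ε • (O - V)) (U + ε • (O - U))) ∧
      Supp Ω O h2 (en Ω (V + ε • (O - V)) (W + ε • (O - W))) ∧
      Supp Ω O k2 (en Ω (W + ε • (O - W)) (V + ε • (O - V))) ∧
      Supp Ω O h3 (en Ω (W + ε • (O - W)) (U + ε • (O - U))) ∧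
      Supp Ω O k3 (en Ω (U + ε • (O - U)) (W + ε • (O - W))) ∧
      det3 (comb h1 k1 (kap h1 k1 (U + ε • (O - U)) (V + ε • (O - V))))
        (comb h2 k2 (kap h2 k2 (V + ε • (O - V)) (W + ε • (O - W))))
        (comb h3 k3 (kap h3 k3 (W + ε • (O - W)) (U + ε • (O - U)))) = 0 := by
    intro ε
    by_cases hε : (ε < 1 ∧ 0 < ε) ∧ U + ε • (O - U) ∉ C ∧ V + ε • (O - V) ∉ C ∧
      W + ε • (O - W) ∉ C
    · obtain ⟨⟨h1, h0⟩, cU, cV, cW⟩ := hε
      have hUΩ := hA U hu.mem ε h0 h1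
      have hVΩ := hA V hv.mem ε h0 h1
      have hWΩ := hA W hw.mem ε h0 h1
      have hDne : D (U + ε • (O - U)) (V + ε • (O - V)) (W + ε • (O - W)) ≠ 0 := by
        rw [hDε]
        have : (1 - ε) ≠ 0 := by linarith
        positivity
      obtain ⟨ℓ₁, ℓ₂, ℓ₃, R1, R2, R3, hp⟩ := hC _ _ _ hUΩ hVΩ hWΩ cU cV cW
        (not_collinear_of_D hDne)
      obtain ⟨h1', k1, h2, k2, h3, k3, hall⟩ :=
        det_zero2 ho hc hb hO hUΩ hVΩ hWΩ hDne R1 R2 R3 hp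
      exact ⟨h1', k1, h2, k2, h3, k3, fun _ _ _ _ => hall⟩
    · exact ⟨0, 0, 0, 0, 0, 0, fun a b c d => absurd ⟨a, b, c, d⟩ hε⟩
  choose h1 k1 h2 k2 h3 k3 hall using hex
  have hev : ∀ᶠ ε in 𝓝[>] (0:ℝ), (ε < 1 ∧ 0 < ε) ∧ U + ε • (O - U) ∉ C ∧
      V + ε • (O - V) ∉ C ∧ W + ε • (O - W) ∉ C :=
    hev1.and ((hnotC U hu.not_mem).and ((hnotC V hv.not_mem).and (hnotC W hw.not_mem)))
  have hall' := hev.mono fun ε hε => hall ε hε.1 hε.2.1 hε.2.2.1 hε.2.2.2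
  have s1 := hall'.mono fun ε h => h.1
  have s1' := hall'.mono fun ε h => h.2.1
  have s2 := hall'.mono fun ε h => h.2.2.1
  have s2' := hall'.mono fun ε h => h.2.2.2.1
  have s3 := hall'.mono fun ε h => h.2.2.2.2.1
  have s3' := hall'.mono fun ε h => h.2.2.2.2.2.1
  have sd := hall'.mono fun ε h => h.2.2.2.2.2.2
  have c1' := tendsto_kappa ho hc hb hO hu hv huV hvU s1 s1'
  have c2' := tendsto_kappa ho hc hb hO hv hw hvW hwV s2 s2'
  have c3' := tendsto_kappa ho hc hb hO hw hu hwU huW s3 s3'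
  have t1 := tendsto_supp ho hc hb hO hu hv.mem huV s1
  have t1' := tendsto_supp ho hc hb hO hv hu.mem hvU s1'
  have t2 := tendsto_supp ho hc hb hO hv hw.mem hvW s2
  have t2' := tendsto_supp ho hc hb hO hw hv.mem hwV s2'
  have t3 := tendsto_supp ho hc hb hO hw hu.mem hwU s3
  have t3' := tendsto_supp ho hc hb hO hu hw.mem huW s3'
  have hcomb : ∀ {f g : ℝ → ℝ × ℝ × ℝ} {κ : ℝ → ℝ} {f0 g0 : ℝ × ℝ × ℝ} {κ0 : ℝ},
      Tendsto f (𝓝[>] 0) (𝓝 f0) → Tendsto g (𝓝[>] 0) (𝓝 g0) → Tendsto κ (𝓝[>] 0) (𝓝 κ0) →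
      Tendsto (fun ε => comb (f ε) (g ε) (κ ε)) (𝓝[>] 0) (𝓝 (comb f0 g0 κ0)) := by
    intro f g κ f0 g0 κ0 hf hg hκ
    have hcont : Continuous (fun p : ((ℝ × ℝ × ℝ) × (ℝ × ℝ × ℝ)) × ℝ => comb p.1.1 p.1.2 p.2) := by
      unfold comb
      fun_prop
    exact (hcont.tendsto ((f0, g0), κ0)).comp ((hf.prodMk_nhds hg).prodMk_nhds hκ)
  have c1 := hcomb t1 t1' c1'
  have c2 := hcomb t2 t2' c2'
  have c3 := hcomb t3 t3' c3'
  have hdcont : Continuous (fun p : ((ℝ × ℝ × ℝ) × (ℝ × ℝ × ℝ)) × (ℝ × ℝ × ℝ) =>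
      det3 p.1.1 p.1.2 p.2) := by
    unfold det3
    fun_prop
  have hlim := (hdcont.tendsto ((_, _), _)).comp ((c1.prodMk_nhds c2).prodMk_nhds c3)
  have hlim0 : Tendsto (fun _ : ℝ => (0:ℝ)) (𝓝[>] (0:ℝ)) (𝓝 (det3
      (comb u v (Real.sqrt (ev u V / ev v U))) (comb v w (Real.sqrt (ev v W / ev w V)))
      (comb w u (Real.sqrt (ev w U / ev u W))))) := by
    refine hlim.congr' ?_
    filter_upwards [sd] with ε hε
    exact hε
  have hz := tendsto_nhds_unique hlim0 tendsto_const_nhds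
  rw [det3_comb] at hz
  have hprod : Real.sqrt (ev u V / ev v U) * Real.sqrt (ev v W / ev w V) *
      Real.sqrt (ev w U / ev u W) = 1 := by
    rcases mul_eq_zero.mp hz with h | h
    · linarith
    · exact absurd h hd
  have hsq : (ev u V / ev v U) * (ev v W / ev w V) * (ev w U / ev u W) = 1 := by
    have e1 := Real.mul_self_sqrt (show 0 ≤ ev u V / ev v U by positivity)
    have e2 := Real.mul_self_sqrt (show 0 ≤ ev v W / ev w V by positivity)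
    have e3 := Real.mul_self_sqrt (show 0 ≤ ev w U / ev u W by positivity)
    calc (ev u V / ev v U) * (ev v W / ev w V) * (ev w U / ev u W) =
        (Real.sqrt (ev u V / ev v U) * Real.sqrt (ev v W / ev w V) *
      Real.sqrt (ev w U / ev u W)) * (Real.sqrt (ev u V / ev v U) * Real.sqrt (ev v W / ev w V) *
      Real.sqrt (ev w U / ev u W)) := by
          nth_rewrite 1 [← e1, ← e2, ← e3]
          ring
      _ = 1 := by rw [hprod]; ring
  field_simp at hsq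
  linarith

include ho hc hb hyp in
/-- Segre's lemma of tangents -/
lemma segre2 {O U V W : ℝ × ℝ} {u v w : ℝ × ℝ × ℝ} (hO : O ∈ Ω) (hu : Good Ω O U u)
    (hv : Good Ω O V v) (hw : Good Ω O W w) :
    ev u V * ev v W * ev w U = ev u W * ev v U * ev w V := by
  have nn : ∀ {X Y : ℝ × ℝ} {x y : ℝ × ℝ × ℝ}, Good Ω O X x → Good Ω O Y y → 0 ≤ ev x Y :=
    fun hx hy => ev_nonneg_closure hx.pos hy.mem
  by_cases h1 : ev u V = 0
  · rw [h1, hu.symm_zero hv h1]; ring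
  by_cases h2 : ev v W = 0
  · rw [h2, hv.symm_zero hw h2]; ring
  by_cases h3 : ev w U = 0
  · rw [h3, hw.symm_zero hu h3]; ring
  have h1' : ev v U ≠ 0 := fun h => h1 (hv.symm_zero hu h)
  have h2' : ev w V ≠ 0 := fun h => h2 (hw.symm_zero hv h)
  have h3' : ev u W ≠ 0 := fun h => h3 (hu.symm_zero hw h)
  exact segre_pos2 ho hc hb hyp hO hu hv hw ((nn hu hv).lt_of_ne' h1) ((nn hv hu).lt_of_ne' h1')
    ((nn hv hw).lt_of_ne' h2) ((nn hw hv).lt_of_ne' h2') ((nn hw hu).lt_of_ne' h3)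
    ((nn hu hw).lt_of_ne' h3')

end

end Pool.Agent.HilbertReverse
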