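import Pool.Agent.HilbertReverse.EllPencil

set_option autoImplicit false

namespace Pool.Agent.HilbertReverse

open Set Filter Topology

open Classical in
/-- The Hilbert distance of `K`: `(1/2) ln (|AY| |XB| / (|AX| |YB|))` if the line `XY` meets the
boundary of `K` in `A`, `B`, ordered `A, X, Y, B`; and `0` if there are no such `A`, `B`
(as for `X = Y`). -/
noncomputable def hilbertDist (K : Set (ℝ × ℝ)) (X Y : ℝ × ℝ) : ℝ :=
  if h : ∃ p : (ℝ × ℝ) × (ℝ × ℝ), p.1 ∈ frontier K ∧ p.2 ∈ frontier K ∧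
      Sbtw ℝ p.1 X Y ∧ Sbtw ℝ X Y p.2 then
    (1 / 2) * Real.log (dist h.choose.1 Y * dist X h.choose.2 /
      (dist h.choose.1 X * dist Y h.choose.2))
  else 0

/-- `ℓ` is a reverse perpendicular median line of `A`, `B`: a line through the point `M` of the
segment `AB` with `d(A,M) = d(M,B)`, such that `M` is a nearest point of `ℓ` to each point of the
line `AB`. -/
def RevMedian (K : Set (ℝ × ℝ)) (A B : ℝ × ℝ) (ℓ : AffineSubspace ℝ (ℝ × ℝ)) : Prop :=
  Module.finrank ℝ ℓ.direction = 1 ∧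
    ∃ M ∈ segment ℝ A B, hilbertDist K A M = hilbertDist K M B ∧ M ∈ ℓ ∧
      ∀ X ∈ affineSpan ℝ {A, B}, X ∈ K → ∀ Y ∈ ℓ, Y ∈ K → hilbertDist K X M ≤ hilbertDist K X Y

/-- a set of lines is a pencil: all pass through one point, or all are parallel -/
def IsPencil (S : Set (AffineSubspace ℝ (ℝ × ℝ))) : Prop :=
  (∃ P, ∀ ℓ ∈ S, P ∈ ℓ) ∨ ∃ V : Submodule ℝ (ℝ × ℝ), ∀ ℓ ∈ S, ℓ.direction = V

/-- `K` is the interior of an ellipse: an affine image of the open unit disc -/
def IsEllipse (K : Set (ℝ × ℝ)) : Prop :=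
  ∃ f : (ℝ × ℝ) ≃ᵃ[ℝ] (ℝ × ℝ), K = f '' {p : ℝ × ℝ | p.1 ^ 2 + p.2 ^ 2 < 1}

section

variable {K : Set (ℝ × ℝ)} (ho : IsOpen K) (hc : Convex ℝ K) (hb : Bornology.IsBounded K)

include ho hc in
/-- the formula for any pair of boundary points -/
lemma formula_eq {X Y A B : ℝ × ℝ} (hX : X ∈ K) (hA : A ∈ frontier K)
    (hB : B ∈ frontier K) (h1 : Sbtw ℝ A X Y) (h2 : Sbtw ℝ X Y B) :
    (1 / 2) * Real.log (dist A Y * dist X B / (dist A X * dist Y B)) = hd K X Y := by
  rw [frontier, ho.interior_eq] at hA hB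
  obtain ⟨⟨t, ⟨ht0, ht1⟩, htX⟩, hXA, hXY⟩ := h1
  obtain ⟨⟨s, ⟨hs0, hs1⟩, hsY⟩, hYX, hYB⟩ := h2
  rw [AffineMap.lineMap_apply, vsub_eq_sub, vadd_eq_add] at htX hsY
  have hAY : Y - A ≠ 0 := by
    intro h
    rw [h, smul_zero, zero_add] at htX
    exact hXA htX.symm
  have hXB : B - X ≠ 0 := by
    intro h
    rw [h, smul_zero, zero_add] at hsY
    exact hYX hsY.symm
  have ht0' : 0 < t := by
    rcases ht0.lt_or_eq with h | h
    · exact h
    · exfalso
      rw [← h, zero_smul, zero_add] at htX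
      exact hXA htX.symm
  have ht1' : t < 1 := by
    rcases ht1.lt_or_eq with h | h
    · exact h
    · exfalso
      rw [h, one_smul, sub_add_cancel] at htX
      exact hXY htX.symm
  have hs0' : 0 < s := by
    rcases hs0.lt_or_eq with h | h
    · exact h
    · exfalso
      rw [← h, zero_smul, zero_add] at hsY
      exact hYX hsY.symm
  have hs1' : s < 1 := by
    rcases hs1.lt_or_eq with h | h
    · exact h
    · exfalso
      rw [h, one_smul, sub_add_cancel] at hsY
      exact hYB hsY.symm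
  have e1 : Y - X = (1 - t) • (Y - A) := by
    rw [← htX]
    ext <;> simp <;> ring
  have e1' : X - Y = (-(1 - t)) • (Y - A) := by
    rw [← htX]
    ext <;> simp <;> ring
  have e2 : Y - X = s • (B - X) := by
    rw [← hsY]
    abel
  have e3 : X - A = t • (Y - A) := by
    rw [← htX]
    abel
  have e4 : B - Y = (1 - s) • (B - X) := by
    rw [← hsY]
    ext <;> simp <;> ring
  have pA : X + (t / (1 - t)) • (X - Y) = A := by
    rw [e1', smul_smul]
    have : t / (1 - t) * -(1 - t) = -t := by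
      have : (1 - t) ≠ 0 := by linarith
      field_simp
    rw [this, neg_smul, ← e3]
    abel
  have pB : X + (1 / s) • (Y - X) = B := by
    rw [e2, smul_smul, one_div, inv_mul_cancel₀ hs0'.ne', one_smul]
    abel
  have S1 : ext K X (X - Y) = t / (1 - t) := by
    apply ext_eq ho hc hX (div_nonneg ht0 (by linarith))
    · rw [pA]; exact hA.1
    · rw [pA]; exact hA.2
  have T1 : ext K X (Y - X) = 1 / s := by
    apply ext_eq ho hc hX (by positivity)
    · rw [pB]; exact hB.1
    · rw [pB]; exact hB.2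
  have n1 : 0 < ‖Y - A‖ := norm_pos_iff.mpr hAY
  have n2 : 0 < ‖B - X‖ := norm_pos_iff.mpr hXB
  have d1 : dist A Y = ‖Y - A‖ := by rw [dist_comm, dist_eq_norm]
  have d2 : dist X B = ‖B - X‖ := by rw [dist_comm, dist_eq_norm]
  have d3 : dist A X = t * ‖Y - A‖ := by
    rw [dist_comm, dist_eq_norm, e3, norm_smul, Real.norm_eq_abs, abs_of_pos ht0']
  have d4 : dist Y B = (1 - s) * ‖B - X‖ := by
    rw [dist_comm, dist_eq_norm, e4, norm_smul, Real.norm_eq_abs, abs_of_pos (by linarith)]
  unfold hd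
  rw [S1, T1, d1, d2, d3, d4]
  congr 2
  have a1 : (1 - t) ≠ 0 := by linarith
  have a2 : (1 - s) ≠ 0 := by linarith
  have a3 : 1 / s - 1 = (1 - s) / s := by
    field_simp
  have a4 : 1 + t / (1 - t) = 1 / (1 - t) := by
    field_simp
    ring
  rw [a3, a4]
  field_simp

include ho hc hb in
lemma hilbertDist_eq {X Y : ℝ × ℝ} (hX : X ∈ K) (hY : Y ∈ K) : hilbertDist K X Y = hd K X Y := by
  classical
  unfold hilbertDist
  split_ifs with h
  · obtain ⟨h1, h2, h3, h4⟩ := h.choose_spec
    exact formula_eq ho hc hX h1 h2 h3 h4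
  · by_cases hXY : X = Y
    · rw [← hXY, hd_self K X hX]
    · exfalso
      apply h
      have hw : X - Y ≠ 0 := sub_ne_zero.mpr hXY
      have hw' : Y - X ≠ 0 := sub_ne_zero.mpr (Ne.symm hXY)
      have hS := ext_pos ho hb hX hw
      have hT := ext_pos ho hb hY hw'
      refine ⟨(X + ext K X (X - Y) • (X - Y), Y + ext K Y (Y - X) • (Y - X)), ?_, ?_, ?_, ?_⟩
      · rw [frontier, ho.interior_eq]
        exact ⟨ext_mem_closure hb hX hw, ext_not_mem ho hb hX hw⟩
      · rw [frontier, ho.interior_eq]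
        exact ⟨ext_mem_closure hb hY hw', ext_not_mem ho hb hY hw'⟩
      · set S := ext K X (X - Y)
        refine ⟨⟨S / (1 + S), ⟨by positivity, ?_⟩, ?_⟩, ?_, hXY⟩
        · rw [div_le_one (by positivity)]
          linarith
        · rw [AffineMap.lineMap_apply, vsub_eq_sub, vadd_eq_add]
          have e : Y - (X + S • (X - Y)) = (1 + S) • (Y - X) := by
            ext <;> simp <;> ring
          rw [e, smul_smul, div_mul_cancel₀ _ (by positivity)]
          ext <;> simp <;> ring
        · intro h0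
          have : S • (X - Y) = 0 := by
            have := congrArg (fun z => z - X) h0
            simp only [sub_self, add_sub_cancel_left] at this
            exact this.symm
          rcases smul_eq_zero.mp this with h | h
          · exact hS.ne' h
          · exact hw h
      · set S := ext K Y (Y - X)
        refine ⟨⟨1 / (1 + S), ⟨by positivity, ?_⟩, ?_⟩, Ne.symm hXY, ?_⟩
        · rw [div_le_one (by positivity)]
          linarith
        · rw [AffineMap.lineMap_apply, vsub_eq_sub, vadd_eq_add]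
          have e : Y + S • (Y - X) - X = (1 + S) • (Y - X) := by
            ext <;> simp <;> ring
          rw [e, smul_smul, one_div, inv_mul_cancel₀ (by positivity), one_smul]
          abel
        · intro h0
          have : S • (Y - X) = 0 := by
            have := congrArg (fun z => z - Y) h0
            simp only [sub_self, add_sub_cancel_left] at this
            exact this.symm
          rcases smul_eq_zero.mp this with h | h
          · exact hT.ne' h
          · exact hw' h

include ho hc hb in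
lemma revMedian_iff {A B : ℝ × ℝ} (hA : A ∈ K) (hB : B ∈ K) {ℓ : AffineSubspace ℝ (ℝ × ℝ)} :
    RevMedian K A B ℓ ↔ RR K A B ℓ := by
  unfold RevMedian RR
  constructor
  · rintro ⟨h1, M, hM, h2, h3, h4⟩
    have hMK : M ∈ K := hc.segment_subset hA hB hM
    refine ⟨h1, M, hM, ?_, h3, ?_⟩
    · rwa [hilbertDist_eq ho hc hb hA hMK, hilbertDist_eq ho hc hb hMK hB] at h2
    · intro X hX hXK Y hY hYK
      have := h4 X hX hXK Y hY hYK
      rwa [hilbertDist_eq ho hc hb hXK hMK, hilbertDist_eq ho hc hb hXK hYK] at this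
  · rintro ⟨h1, M, hM, h2, h3, h4⟩
    have hMK : M ∈ K := hc.segment_subset hA hB hM
    refine ⟨h1, M, hM, ?_, h3, ?_⟩
    · rwa [hilbertDist_eq ho hc hb hA hMK, hilbertDist_eq ho hc hb hMK hB]
    · intro X hX hXK Y hY hYK
      rw [hilbertDist_eq ho hc hb hXK hMK, hilbertDist_eq ho hc hb hXK hYK]
      exact h4 X hX hXK Y hY hYK

include ho hc hb in
/-- existence of reverse perpendicular median lines -/
lemma exists_RR {A B : ℝ × ℝ} (hA : A ∈ K) (hB : B ∈ K) (hAB : A ≠ B) : ∃ ℓ, RR K A B ℓ := by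
  obtain ⟨h, Sh⟩ := exists_supp hc ho hA (ext_not_mem ho hb hA (sub_ne_zero.mpr hAB))
  obtain ⟨k, Sk⟩ := exists_supp hc ho hA (ext_not_mem ho hb hB (sub_ne_zero.mpr hAB.symm))
  have p1 := Sh.pos A hA
  have p2 := Sh.pos B hB
  have p3 := Sk.pos A hA
  have p4 := Sk.pos B hB
  have hpos : 0 < (ev h A * ev h B) / (ev k A * ev k B) := by positivity
  obtain ⟨ℓ, hℓ, -⟩ := exists_line ho hc hb hA hB hAB Sh.pos Sk.pos Sh.zero Sk.zero
    (Real.sqrt_pos.mpr hpos) (Real.sq_sqrt hpos.le)
  exact ⟨ℓ, hℓ⟩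

lemma ne_of_not_collinear {A B C : ℝ × ℝ} (h : ¬ Collinear ℝ {A, B, C}) :
    A ≠ B ∧ B ≠ C ∧ C ≠ A := by
  refine ⟨?_, ?_, ?_⟩
  · rintro rfl
    apply h
    rw [Set.insert_eq_of_mem (by simp)]
    exact collinear_pair ℝ _ _
  · rintro rfl
    apply h
    have : ({A, B, B} : Set (ℝ × ℝ)) = {A, B} := by simp
    rw [this]
    exact collinear_pair ℝ _ _
  · rintro rfl
    apply h
    have : ({C, B, C} : Set (ℝ × ℝ)) = {B, C} := by
      rw [Set.insert_eq_of_mem (by simp)]
    rw [this]
    exact collinear_pair ℝ _ _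

end

end Pool.Agent.HilbertReverse
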